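import Pool.Agent.Helper38.JB.OneX

/-!
The just basis with its law: the interface.
-/

set_option autoImplicit false

open Finset Filter

namespace Pool.Agent.Helper38.JB

open Pool.Agent.Helper25.RC (below rep)
open Pool.Agent.Helper5.RC (sol AA)

/-- a basis in blocks at the even powers of two, with energy bounds and an upper bound for its
law -/
def IsBase (Z : Subgroup Circle) (BR : ℕ → Finset ℕ) (K : ℝ) : Prop :=
  (∀ j, Odd j → BR j = ∅) ∧ (∀ j, ((sol (2 ^ j) (BR j)).card : ℝ) ≤ K * 2 ^ j) ∧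
  (∀ᶠ n : ℕ in atTop, 1 ≤ rep (AA (fun j => 2 ^ j) BR) n) ∧
  ∀ S : Finset Circle, (∀ s ∈ S, s ∈ Z) → ∀ c : Circle → ℂ, ∀ ε : ℝ, 0 < ε →
    ∀ᶠ x : ℕ in atTop, ∑ a ∈ below (AA (fun j => 2 ^ j) BR) x, ‖∑ s ∈ S, c s * (s : ℂ) ^ a‖ ^ 2 ≤
      (K * ∑ s ∈ S, ‖c s‖ ^ 2 + ε) * √x

end Pool.Agent.Helper38.JB
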