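import Pool.Agent.Helper38.JB.Lev
import Pool.Agent.Helper38.JB.Defs
import Pool.Agent.Helper38.SP.Bdd

/-!
The just basis with its law.
-/

set_option autoImplicit false

open Finset Filter

namespace Pool.Agent.Helper38.JB

open Pool.Agent.Helper25.RC (below rep mem_below)
open Pool.Agent.Helper5.RC (sol AA mem_blk)
open Pool.Agent.Helper38.SP (quad norm_sq_expand)

theorem quad_shift (V : Finset ℕ) (t : ℕ) (ht : ∀ v ∈ V, t ≤ v) :
    (quad (V.image fun v => v - t)).card ≤ (quad V).card := by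
  classical
  refine card_le_card_of_injOn (fun q => ((q.1.1 + t, q.1.2 + t), (q.2.1 + t, q.2.2 + t))) ?_ ?_
  · rintro ⟨⟨a, b⟩, c, d⟩ hq
    obtain ⟨h1, h2⟩ := mem_filter.1 (mem_coe.1 hq)
    simp only [mem_product] at h1
    obtain ⟨⟨ha, hb⟩, hc, hd⟩ := h1
    have key : ∀ a ∈ V.image (fun v => v - t), a + t ∈ V := by
      intro a ha
      obtain ⟨v, hv, rfl⟩ := mem_image.1 ha
      rw [Nat.sub_add_cancel (ht v hv)]
      exact hv
    refine mem_coe.2 (mem_filter.2 ⟨?_, ?_⟩)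
    · simp only [mem_product]
      exact ⟨⟨key _ ha, key _ hb⟩, key _ hc, key _ hd⟩
    · simp only at h2 ⊢
      omega
  · rintro ⟨⟨a, b⟩, c, d⟩ _ ⟨⟨a', b'⟩, c', d'⟩ _ h
    simp only [Prod.mk.injEq] at h ⊢
    omega

theorem sum_biU {ι : Type} [DecidableEq ι] {E : ℕ → ℝ} (hE : ∀ a, 0 ≤ E a) (I : Finset ι)
    (V : ι → Finset ℕ) : ∑ a ∈ I.biUnion V, E a ≤ ∑ i ∈ I, ∑ a ∈ V i, E a := by
  classical
  induction I using Finset.induction_on with
  | empty => simp
  | insert i I hi ih =>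
    rw [biUnion_insert, sum_insert hi]
    have h1 := sum_union_inter (s₁ := V i) (s₂ := I.biUnion V) (f := E)
    have h2 : 0 ≤ ∑ a ∈ V i ∩ I.biUnion V, E a := sum_nonneg fun _ _ => hE _
    linarith

/-- the mean square of a sum of characters over a piece -/
theorem piece_le (S : Finset Circle) (c : Circle → ℂ) (X : Finset ℕ) {N δ : ℝ}
    (hN : (X.card : ℝ) ≤ N) (hδ : 0 ≤ δ)
    (hX : ∀ s ∈ S, ∀ t ∈ S, s ≠ t → ‖∑ v ∈ X, ((s / t : Circle) : ℂ) ^ v‖ ≤ δ) :
    ∑ v ∈ X, ‖∑ s ∈ S, c s * (s : ℂ) ^ v‖ ^ 2 ≤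
      N * ∑ s ∈ S, ‖c s‖ ^ 2 + δ * (∑ s ∈ S, ‖c s‖) ^ 2 := by
  classical
  have h1 : ((∑ v ∈ X, ‖∑ s ∈ S, c s * (s : ℂ) ^ v‖ ^ 2 : ℝ) : ℂ) =
      ∑ s ∈ S, ∑ t ∈ S, c s * (starRingEnd ℂ) (c t) * ∑ v ∈ X, ((s / t : Circle) : ℂ) ^ v := by
    rw [Complex.ofReal_sum]
    simp_rw [norm_sq_expand]
    rw [Finset.sum_comm]
    refine sum_congr rfl fun s _ => ?_
    rw [Finset.sum_comm]
    refine sum_congr rfl fun t _ => ?_
    rw [mul_sum]
  have h2 : ∀ s ∈ S, ∀ t ∈ S, ‖∑ v ∈ X, ((s / t : Circle) : ℂ) ^ v‖ ≤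
      (if s = t then N else 0) + δ := by
    intro s hs t ht
    split_ifs with h
    · rw [h, div_self']
      simp only [Circle.coe_one, one_pow, sum_const, nsmul_eq_mul, mul_one]
      rw [Complex.norm_natCast]
      linarith
    · rw [zero_add]
      exact hX s hs t ht h
  have h3 : ∑ v ∈ X, ‖∑ s ∈ S, c s * (s : ℂ) ^ v‖ ^ 2 =
      ‖((∑ v ∈ X, ‖∑ s ∈ S, c s * (s : ℂ) ^ v‖ ^ 2 : ℝ) : ℂ)‖ := by
    rw [Complex.norm_real, Real.norm_eq_abs, abs_of_nonneg (sum_nonneg fun _ _ => by positivity)]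
  rw [h3, h1]
  calc ‖∑ s ∈ S, ∑ t ∈ S, c s * (starRingEnd ℂ) (c t) * ∑ v ∈ X, ((s / t : Circle) : ℂ) ^ v‖
      ≤ ∑ s ∈ S, ∑ t ∈ S, ‖c s‖ * ‖c t‖ * ((if s = t then N else 0) + δ) := by
        refine (norm_sum_le _ _).trans (sum_le_sum fun s hs => ?_)
        refine (norm_sum_le _ _).trans (sum_le_sum fun t ht => ?_)
        rw [norm_mul, norm_mul, RCLike.norm_conj]
        exact mul_le_mul_of_nonneg_left (h2 s hs t ht) (by positivity)
    _ = N * ∑ s ∈ S, ‖c s‖ ^ 2 + δ * (∑ s ∈ S, ‖c s‖) ^ 2 := by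
        simp_rw [mul_add, sum_add_distrib]
        congr 1
        · rw [mul_sum]
          refine sum_congr rfl fun s hs => ?_
          simp only [mul_ite, mul_zero]
          rw [Finset.sum_ite_eq, if_pos hs]
          ring
        · rw [sq, sum_mul_sum, mul_sum]
          refine sum_congr rfl fun s _ => ?_
          rw [mul_sum]
          refine sum_congr rfl fun t _ => ?_
          ring

set_option maxRecDepth 20000 in
theorem base (hE : ExShift) (Z : Subgroup Circle) (hZ : (Z : Set Circle).Countable) :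
    ∃ (BR : ℕ → Finset ℕ) (K : ℝ), IsBase Z BR K := by
  classical
  obtain ⟨zs, hzs⟩ := hZ.exists_eq_range ⟨1, Z.one_mem⟩
  obtain ⟨Si, hSi⟩ : ∃ Si : ℕ → Finset Circle, ∀ i, Si i = ((range i).image zs).filter
    (fun z : Circle => z ≠ 1 ∧ 4 / ‖1 - (z : ℂ)‖ ^ 2 ≤ (i : ℝ)) := ⟨_, fun _ => rfl⟩
  have hex : ∀ i, ∃ X, 3 ≤ i → Lev i (Si i) X := by
    intro i
    by_cases hi : 3 ≤ i
    · obtain ⟨X, hX⟩ := lev_exists hE hi (Si i) (fun z hz => by
        rw [hSi] at hz
        exact (mem_filter.1 hz).2.1)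
      exact ⟨X, fun _ => hX⟩
    · exact ⟨fun _ => ∅, fun h => absurd h hi⟩
  choose X hX using hex
  obtain ⟨V, hV⟩ : ∃ V : ℕ → Finset ℕ, ∀ i, V i = if 3 ≤ i then II.biUnion (X i) else ∅ :=
    ⟨_, fun _ => rfl⟩
  obtain ⟨BR, hBR⟩ : ∃ BR : ℕ → Finset ℕ, ∀ j, BR j =
    if Even j then (V (j / 2)).image (fun v => v - 2 ^ j) else ∅ := ⟨_, fun _ => rfl⟩
  have hVb : ∀ i, ∀ v ∈ V i, 3 ≤ i ∧ 2 * 4 ^ i ≤ v ∧ v < 444 * 4 ^ i := by
    intro i v hv
    rw [hV] at hv
    split_ifs at hv with h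
    · obtain ⟨κ, hκ, hv'⟩ := mem_biUnion.1 hv
      exact ⟨h, (hX i h).1 κ hκ v hv'⟩
    · exact absurd hv (notMem_empty _)
  have h42 : ∀ i : ℕ, 2 ^ (2 * i) = 4 ^ i := fun i => by
    rw [pow_mul]
    norm_num
  have hBR2 : ∀ i, BR (2 * i) = (V i).image (fun v => v - 4 ^ i) := by
    intro i
    rw [hBR, if_pos (even_two_mul i), Nat.mul_div_cancel_left i (by norm_num), h42]
  have hmem : ∀ a, a ∈ AA (fun j => 2 ^ j) BR ↔ ∃ i, a ∈ V i := by
    intro a
    constructor
    · rintro ⟨j, hj⟩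
      obtain ⟨h1, h2⟩ := mem_blk.1 hj
      simp only at h1 h2
      rcases Nat.even_or_odd' j with ⟨i, rfl | rfl⟩
      · rw [hBR2] at h2
        obtain ⟨v, hv, h3⟩ := mem_image.1 h2
        refine ⟨i, ?_⟩
        have h4 := (hVb i v hv).2.1
        rw [h42] at h1 h3
        have : a = v := by omega
        rw [this]
        exact hv
      · rw [hBR, if_neg (by rw [Nat.not_even_iff_odd]; exact ⟨i, rfl⟩)] at h2
        exact absurd h2 (notMem_empty _)
    · rintro ⟨i, hi⟩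
      have h4 := (hVb i a hi).2.1
      refine ⟨2 * i, mem_blk.2 ⟨?_, ?_⟩⟩
      · simp only
        rw [h42]
        omega
      · simp only
        rw [hBR2, h42]
        exact mem_image_of_mem (fun v => v - 4 ^ i) hi
  refine ⟨BR, 888 * (8 * 486 ^ 4), ?_, ?_, ?_, ?_⟩
  · intro j hj
    rw [hBR, if_neg (by rw [Nat.not_even_iff_odd]; exact hj)]
  · intro j
    rcases Nat.even_or_odd' j with ⟨i, rfl | rfl⟩
    · have h1 : ((sol (2 ^ (2 * i)) (BR (2 * i))).card : ℝ) ≤
          2 * (444 : ℕ) * (quad (BR (2 * i))).card := by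
        refine sol_le_quad (by positivity) ?_
        intro b hb
        rw [hBR2] at hb
        obtain ⟨v, hv, rfl⟩ := mem_image.1 hb
        have h4 := (hVb i v hv).2
        rw [h42]
        omega
      refine h1.trans ?_
      rw [hBR2]
      have h2 : ((quad ((V i).image fun v => v - 4 ^ i)).card : ℝ) ≤ 8 * 486 ^ 4 * 4 ^ i := by
        have h3 := quad_shift (V i) (4 ^ i) (fun v hv => by
          have := (hVb i v hv).2.1
          omega)
        have h4 : ((quad (V i)).card : ℝ) ≤ 8 * 486 ^ 4 * 4 ^ i := by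
          rw [hV]
          split_ifs with h
          · exact (hX i h).2.1
          · have : (quad (∅ : Finset ℕ)).card = 0 := by
              unfold quad
              simp
            rw [this, Nat.cast_zero]
            positivity
        exact le_trans (by exact_mod_cast h3) h4
      have h3 : (2 : ℝ) ^ (2 * i) = 4 ^ i := by
        rw [pow_mul]
        norm_num
      rw [h3]
      push_cast
      linarith
    · rw [hBR, if_neg (by rw [Nat.not_even_iff_odd]; exact ⟨i, rfl⟩)]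
      have : (sol (2 ^ (2 * i + 1)) (∅ : Finset ℕ)).card = 0 := by
        unfold Pool.Agent.Helper5.RC.sol
        simp
      rw [this, Nat.cast_zero]
      positivity
  · filter_upwards [eventually_ge_atTop (28 * 4 ^ 3)] with n hn
    have hex : ∃ k, n < 28 * 4 ^ (k + 1) := by
      refine ⟨n, ?_⟩
      have : n < 4 ^ n := Nat.lt_pow_self (by norm_num)
      have : 4 ^ n ≤ 4 ^ (n + 1) := Nat.pow_le_pow_right (by norm_num) (by omega)
      omega
    obtain ⟨i, hi1, hi2⟩ : ∃ i, n < 28 * 4 ^ (i + 1) ∧ ∀ k < i, ¬ n < 28 * 4 ^ (k + 1) :=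
      ⟨Nat.find hex, Nat.find_spec hex, fun k hk => Nat.find_min hex hk⟩
    have hi3 : 3 ≤ i := by
      by_contra hlt
      have : 4 ^ (i + 1) ≤ 4 ^ 3 := Nat.pow_le_pow_right (by norm_num) (by omega)
      omega
    have hi4 : 28 * 4 ^ i ≤ n := by
      have := hi2 (i - 1) (by omega)
      rw [Nat.sub_add_cancel (by omega)] at this
      omega
    have hi5 : n < 112 * 4 ^ i := by
      rw [pow_succ] at hi1
      omega
    obtain ⟨v, hv, w, hw, h⟩ := (hX i hi3).2.2.1 n hi4 hi5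
    have hVi : V i = II.biUnion (X i) := by rw [hV, if_pos hi3]
    have : 0 < rep (AA (fun j => 2 ^ j) BR) n := by
      unfold Pool.Agent.Helper25.RC.rep
      refine card_pos.2 ⟨(v, w), mem_filter.2 ⟨mem_antidiagonal.2 h, ?_, ?_⟩⟩
      · exact (hmem v).2 ⟨i, by rw [hVi]; exact hv⟩
      · exact (hmem w).2 ⟨i, by rw [hVi]; exact hw⟩
    exact this
  · intro S hS c ε hε
    obtain ⟨E, hEd⟩ : ∃ E : ℕ → ℝ, ∀ a, E a = ‖∑ s ∈ S, c s * (s : ℂ) ^ a‖ ^ 2 := ⟨_, fun _ => rfl⟩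
    have hE0 : ∀ a, 0 ≤ E a := fun a => by rw [hEd]; positivity
    simp_rw [← hEd]
    obtain ⟨W, hW⟩ : ∃ W, W = (∑ s ∈ S, ‖c s‖) ^ 2 := ⟨_, rfl⟩
    have hW0 : 0 ≤ W := by rw [hW]; positivity
    obtain ⟨Q, hQ⟩ : ∃ Q, Q = ∑ s ∈ S, ‖c s‖ ^ 2 := ⟨_, rfl⟩
    have hQ0 : 0 ≤ Q := by rw [hQ]; exact sum_nonneg fun _ _ => by positivity
    obtain ⟨δ, hδ, hδW⟩ : ∃ δ : ℝ, 0 < δ ∧ 972 * (δ * W) ≤ ε / 2 := by
      refine ⟨ε / (2 * 972 * (W + 1)), by positivity, ?_⟩
      have : 972 * (ε / (2 * 972 * (W + 1)) * W) = ε / 2 * (W / (W + 1)) := by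
        field_simp
      rw [this]
      have h1 : W / (W + 1) ≤ 1 := by
        rw [div_le_one (by positivity)]
        linarith
      have := mul_le_mul_of_nonneg_left h1 (by positivity : (0 : ℝ) ≤ ε / 2)
      linarith
    -- the exponential sums over the pieces
    have hpow : Tendsto (fun i : ℕ => (3 : ℝ) * i * (2 * 2 ^ i + i) / 4 ^ i) atTop (nhds 0) := by
      have h1 := tendsto_pow_const_mul_const_pow_of_abs_lt_one 1 (r := (1 / 2 : ℝ))
        (by rw [abs_of_pos] <;> norm_num)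
      have h2 := tendsto_pow_const_mul_const_pow_of_abs_lt_one 2 (r := (1 / 4 : ℝ))
        (by rw [abs_of_pos] <;> norm_num)
      have h3 := (h1.const_mul 6).add (h2.const_mul 3)
      rw [mul_zero, mul_zero, add_zero] at h3
      refine h3.congr fun i => ?_
      have h4 : (4 : ℝ) ^ i = 2 ^ i * 2 ^ i := by rw [← mul_pow]; norm_num
      have h5 : ((1 : ℝ) / 2) ^ i = 1 / 2 ^ i := by rw [div_pow, one_pow]
      have h6 : ((1 : ℝ) / 4) ^ i = 1 / (2 ^ i * 2 ^ i) := by rw [div_pow, one_pow, h4]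
      rw [h5, h6, h4]
      field_simp
      ring
    have hSiev : ∀ η ∈ Z, η ≠ 1 → ∀ᶠ i : ℕ in atTop, η ∈ Si i := by
      intro η hη hη1
      have : η ∈ Set.range zs := by rw [← hzs]; exact hη
      obtain ⟨k, rfl⟩ := this
      filter_upwards [eventually_gt_atTop k,
        (tendsto_natCast_atTop_atTop (R := ℝ)).eventually_ge_atTop (4 / ‖1 - (zs k : ℂ)‖ ^ 2)]
        with i h1 h2
      rw [hSi]
      exact mem_filter.2 ⟨mem_image_of_mem _ (mem_range.2 h1), hη1, h2⟩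
    have hbd : ∀ᶠ i : ℕ in atTop, ∀ κ ∈ II, ∀ s ∈ S, ∀ t ∈ S, s ≠ t →
        ‖∑ v ∈ X i κ, ((s / t : Circle) : ℂ) ^ v‖ ≤ δ * 2 ^ i := by
      have h1 : ∀ᶠ i : ℕ in atTop, ∀ s ∈ S, ∀ t ∈ S, s ≠ t → s / t ∈ Si i := by
        rw [eventually_all_finset]
        intro s hs
        rw [eventually_all_finset]
        intro t ht
        by_cases h : s = t
        · exact Eventually.of_forall fun i hi => absurd h hi
        · filter_upwards [hSiev (s / t) (Z.div_mem (hS s hs) (hS t ht))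
            (fun h2 => h (div_eq_one.1 h2))] with i hi _
          exact hi
      filter_upwards [h1, eventually_ge_atTop 3,
        hpow.eventually_lt_const (by positivity : (0 : ℝ) < δ ^ 2)] with i h2 h3 h4 κ hκ s hs t ht hst
      have h5 := (hX i h3).2.2.2.2 κ hκ (s / t) (h2 s hs t ht hst)
      have h6 : 3 * ∑ z ∈ Si i, (2 * 2 ^ i + 4 / ‖1 - (z : ℂ)‖ ^ 2) ≤
          (3 : ℝ) * i * (2 * 2 ^ i + i) := by
        have h7 : ∑ z ∈ Si i, (2 * 2 ^ i + 4 / ‖1 - (z : ℂ)‖ ^ 2) ≤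
            ∑ _z ∈ Si i, ((2 : ℝ) * 2 ^ i + i) := by
          refine sum_le_sum fun z hz => ?_
          rw [hSi] at hz
          have := (mem_filter.1 hz).2.2
          linarith
        rw [sum_const, nsmul_eq_mul] at h7
        have h8 : ((Si i).card : ℝ) ≤ i := by
          have : (Si i).card ≤ i := by
            rw [hSi]
            refine (card_filter_le _ _).trans (card_image_le.trans ?_)
            rw [card_range]
          exact_mod_cast this
        have h9 : ((Si i).card : ℝ) * (2 * 2 ^ i + i) ≤ i * (2 * 2 ^ i + i) :=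
          mul_le_mul_of_nonneg_right h8 (by positivity)
        linarith
      have h7 : (3 : ℝ) * i * (2 * 2 ^ i + i) ≤ (δ * 2 ^ i) ^ 2 := by
        have h8 : (δ * 2 ^ i) ^ 2 = δ ^ 2 * 4 ^ i := by
          rw [mul_pow, ← pow_mul, mul_comm i 2, pow_mul]
          norm_num
        rw [h8]
        exact (div_le_iff₀ (by positivity)).1 h4.le
      exact le_of_pow_le_pow_left₀ (by norm_num) (by positivity) ((h5.trans h6).trans h7)
    -- one scale
    obtain ⟨G, hG⟩ : ∃ G : ℕ → ℝ, ∀ i, G i = if 3 ≤ i then ∑ κ ∈ II, ∑ v ∈ X i κ, E v else 0 :=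
      ⟨_, fun _ => rfl⟩
    have hG0 : ∀ i, 0 ≤ G i := fun i => by
      rw [hG]
      split_ifs
      · exact sum_nonneg fun _ _ => sum_nonneg fun _ _ => hE0 _
      · exact le_rfl
    have hGle : ∀ᶠ i : ℕ in atTop, G i ≤ (972 * Q + 486 * (δ * W)) * 2 ^ i := by
      filter_upwards [hbd, eventually_ge_atTop 3] with i h1 h2
      rw [hG, if_pos h2]
      have h3 : ∀ κ ∈ II, ∑ v ∈ X i κ, E v ≤ (2 * 2 ^ i) * Q + (δ * 2 ^ i) * W := by
        intro κ hκ
        have h4 := piece_le S c (X i κ) (N := 2 * 2 ^ i) (δ := δ * 2 ^ i)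
          (by exact_mod_cast (hX i h2).2.2.2.1 κ hκ) (by positivity) (h1 κ hκ)
        rw [← hQ, ← hW] at h4
        simp_rw [← hEd] at h4
        exact h4
      have h5 := sum_le_sum h3
      rw [sum_const, card_II, nsmul_eq_mul] at h5
      push_cast at h5
      linarith
    obtain ⟨i0, hi0⟩ := eventually_atTop.1 hGle
    obtain ⟨C0, hC0⟩ : ∃ C0, C0 = ∑ i ∈ range i0, G i := ⟨_, rfl⟩
    have hC00 : 0 ≤ C0 := by rw [hC0]; exact sum_nonneg fun _ _ => hG0 _
    have hL0 : 0 ≤ 972 * Q + 486 * (δ * W) := by positivity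
    have hGN : ∀ N : ℕ, ∑ i ∈ range N, G i ≤ C0 + (972 * Q + 486 * (δ * W)) * 2 ^ N := by
      intro N
      have h1 : ∀ i ∈ range N, G i ≤ (if i < i0 then G i else 0) +
          (972 * Q + 486 * (δ * W)) * 2 ^ i := by
        intro i _
        split_ifs with h
        · have : 0 ≤ (972 * Q + 486 * (δ * W)) * 2 ^ i := by positivity
          linarith
        · rw [zero_add]
          exact hi0 i (by omega)
      refine (sum_le_sum h1).trans ?_
      rw [sum_add_distrib, ← mul_sum]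
      refine add_le_add ?_ (mul_le_mul_of_nonneg_left ?_ hL0)
      · rw [← sum_filter, hC0]
        refine sum_le_sum_of_subset_of_nonneg ?_ (fun _ _ _ => hG0 _)
        intro i hi
        exact mem_range.2 (mem_filter.1 hi).2
      · have := geom_sum_eq (x := (2 : ℝ)) (by norm_num) N
        rw [this]
        have : (0 : ℝ) < 2 ^ N := by positivity
        norm_num
    have hsqrt : Tendsto (fun x : ℕ => √(x : ℝ)) atTop atTop :=
      Real.tendsto_sqrt_atTop.comp tendsto_natCast_atTop_atTop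
    filter_upwards [hsqrt.eventually_ge_atTop (2 * C0 / ε), eventually_ge_atTop 2] with x hx1 hx2
    have hexN : ∃ N, x ≤ 4 ^ N := ⟨x, (Nat.lt_pow_self (by norm_num)).le⟩
    obtain ⟨N, hN1, hN2⟩ : ∃ N, x ≤ 4 ^ N ∧ ∀ k < N, ¬ x ≤ 4 ^ k :=
      ⟨Nat.find hexN, Nat.find_spec hexN, fun k hk => Nat.find_min hexN hk⟩
    have hN0 : 1 ≤ N := by
      by_contra hlt
      have : N = 0 := by omega
      rw [this] at hN1
      simp at hN1
      omega
    have hN3 : 4 ^ (N - 1) < x := by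
      have := hN2 (N - 1) (by omega)
      omega
    have hN4 : (2 : ℝ) ^ N ≤ 2 * √x := by
      have h1 : (2 : ℝ) ^ N = 2 * 2 ^ (N - 1) := by
        rw [← pow_succ', Nat.sub_add_cancel hN0]
      have h2 : (2 : ℝ) ^ (N - 1) ≤ √x := by
        refine Real.le_sqrt_of_sq_le ?_
        rw [← pow_mul, mul_comm, pow_mul]
        have : ((4 ^ (N - 1) : ℕ) : ℝ) ≤ x := by exact_mod_cast hN3.le
        push_cast at this
        norm_num
        exact this
      rw [h1]
      linarith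
    have hsub : ∑ a ∈ below (AA (fun j => 2 ^ j) BR) x, E a ≤ ∑ i ∈ range N, G i := by
      have h1 : below (AA (fun j => 2 ^ j) BR) x ⊆ (range N).biUnion V := by
        intro a ha
        obtain ⟨h2, h3⟩ := mem_below.1 ha
        obtain ⟨i, hi⟩ := (hmem a).1 h3
        refine mem_biUnion.2 ⟨i, mem_range.2 ?_, hi⟩
        by_contra hlt
        have h4 := (hVb i a hi).2.1
        have h5 : 4 ^ N ≤ 4 ^ i := Nat.pow_le_pow_right (by norm_num) (by omega)
        omega
      calc ∑ a ∈ below (AA (fun j => 2 ^ j) BR) x, E a ≤ ∑ a ∈ (range N).biUnion V, E a :=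
            sum_le_sum_of_subset_of_nonneg h1 fun _ _ _ => hE0 _
        _ ≤ ∑ i ∈ range N, ∑ a ∈ V i, E a := sum_biU hE0 _ _
        _ ≤ ∑ i ∈ range N, G i := by
            refine sum_le_sum fun i _ => ?_
            rw [hG, hV]
            split_ifs
            · exact sum_biU hE0 _ _
            · rw [sum_empty]
    have h1 := hGN N
    have h2 : (972 * Q + 486 * (δ * W)) * 2 ^ N ≤ (972 * Q + 486 * (δ * W)) * (2 * √x) :=
      mul_le_mul_of_nonneg_left hN4 hL0
    have h3 : C0 ≤ ε / 2 * √x := by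
      rw [div_le_iff₀ hε] at hx1
      linarith
    have h4 : 0 ≤ √(x : ℝ) := Real.sqrt_nonneg _
    have h5 : 972 * (δ * W) * √x ≤ ε / 2 * √x := mul_le_mul_of_nonneg_right hδW h4
    have h6 : 0 ≤ Q * √x := by positivity
    rw [← hQ]
    nlinarith

end Pool.Agent.Helper38.JB
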