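import Pool.Agent.Helper38.JB.OneX

/-!
The just basis with its law at all positions: the interface.
-/

set_option autoImplicit false

open Finset Filter

namespace Pool.Agent.Helper38.JB

open Pool.Agent.Helper25.RC (below rep)
open Pool.Agent.Helper38.SP (PosDef quad)

/-- a basis with bounded mean square, with few elements in each short interval, and uniformly
distributed -/
def IsJ (Z : Subgroup Circle) (J : Set ℕ) (K : ℝ) : Prop :=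
  (∀ x : ℕ, ∑ n ∈ range x, (rep J n : ℝ) ^ 2 ≤ K * x) ∧
  (∀ᶠ n : ℕ in atTop, 1 ≤ rep J n) ∧
  (∀ u v : ℕ, 1 ≤ u → u ≤ v → v ≤ 2 * u →
    (((below J v) \ (below J u)).card : ℝ) ≤ K * (((v : ℝ) - u) / √u + 1)) ∧
  ∀ z ∈ Z, z ≠ 1 → ∀ ε : ℝ, 0 < ε → ∀ᶠ x : ℕ in atTop,
    ‖∑ a ∈ below J x, (z : ℂ) ^ a‖ ≤ ε * √x

/-- one scale: `G` is the part of the basis in `[2 ^ j, 2 ^ (j + 1))`, moved to `0` -/
def OneY : Prop := ∀ (Z : Subgroup Circle) (φ : Circle → ℂ), PosDef (Z : Set Circle) φ → φ 1 = 1 →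
  ∀ Φ : ℝ, (∀ S : Finset Circle, (∀ s ∈ S, s ∈ Z) → ∑ s ∈ S, ‖φ s‖ ^ 4 ≤ Φ) →
  ∀ t : ℝ, 0 < t → (open Classical in
    PosDef (Z : Set Circle) fun z => φ z - if z = 1 then (t : ℂ) else 0) →
  ∀ K : ℝ, 0 < K → ∃ Θ D : ℝ, 0 < Θ ∧ 0 < D ∧
  ∀ (F : Finset Circle), (∀ ζ ∈ F, ζ ∈ Z) → ∀ s : ℕ, 0 < s →
  ∀ S : Finset Circle, S.Nonempty → (∀ t ∈ S, t ∈ Z) → (open Classical in
    ∀ ζ ∈ F, (1 - 1 / (4 * (Θ + 1) * (s : ℝ))) * S.card ≤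
      (S.filter (fun t => t * ζ ∈ S)).card) →
  ∀ᶠ j : ℕ in atTop, ∀ G : Finset ℕ, (∀ a ∈ G, a < 2 ^ j) →
    (∀ u v : ℕ, u ≤ v → v ≤ 2 ^ j → ((G.filter fun a => u ≤ a ∧ a < v).card : ℝ) ≤
      K * (((v : ℝ) - u) / √((2 : ℝ) ^ j) + 1)) →
    (∀ z ∈ F, z ≠ 1 → ∀ y ≤ 2 ^ j,
      ‖∑ a ∈ G.filter (fun a => a < y), (z : ℂ) ^ (2 ^ j + a)‖ ≤ √((2 : ℝ) ^ j) / (8 * s)) →
    ∃ B : Finset ℕ, (∀ b ∈ B, b < 2 ^ j) ∧ ((quad B).card : ℝ) ≤ D * 2 ^ j ∧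
      ((B ∩ G).card : ℝ) ≤ √((2 : ℝ) ^ j) / s ∧
      (open Classical in ∀ z ∈ insert 1 F, ∀ y ≤ 2 ^ j,
        ‖∑ a ∈ B.filter (fun a => a < y), (z : ℂ) ^ (2 ^ j + a) +
          ∑ a ∈ G.filter (fun a => a < y), (z : ℂ) ^ (2 ^ j + a) -
          φ z * ((Θ * y / √((2 : ℝ) ^ j) : ℝ) : ℂ)‖ ≤ √((2 : ℝ) ^ j) / s)

end Pool.Agent.Helper38.JB
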