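import Pool.Agent.Helper38.JB.Lev4
import Pool.Agent.Helper38.JB.Base
import Pool.Agent.Helper38.JB.Defs3

/-!
The just basis with its law at all positions.
-/

set_option autoImplicit false

open Finset Filter

namespace Pool.Agent.Helper38.JB

open Pool.Agent.Helper25.RC (below rep mem_below)
open Pool.Agent.Helper5.RC (sol AA mem_blk mean_square)
open Pool.Agent.Helper80.RC (chain_two)
open Pool.Agent.Helper38.SP (quad)

theorem union_seq {f : ℕ → ℂ} (hf : ∀ a, ‖f a‖ ≤ 1) (W : ℕ → Finset ℕ) (N : ℕ) :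
    ‖∑ a ∈ (range N).biUnion W, f a - ∑ i ∈ range N, ∑ a ∈ W i, f a‖ ≤
      ∑ i ∈ range N, ((W i ∩ (range i).biUnion W).card : ℝ) := by
  classical
  induction N with
  | zero => simp
  | succ N ih =>
    have h1 : (range (N + 1)).biUnion W = W N ∪ (range N).biUnion W := by
      rw [range_add_one, biUnion_insert]
    have h2 := sum_union_inter (s₁ := W N) (s₂ := (range N).biUnion W) (f := f)
    rw [sum_range_succ, sum_range_succ, h1]
    have h3 : ‖∑ a ∈ W N ∩ (range N).biUnion W, f a‖ ≤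
        ((W N ∩ (range N).biUnion W).card : ℝ) := by
      refine (norm_sum_le _ _).trans ((sum_le_sum fun a _ => hf a).trans (le_of_eq ?_))
      rw [sum_const, nsmul_eq_mul, mul_one]
    have h4 : ∑ a ∈ W N ∪ (range N).biUnion W, f a -
        (∑ i ∈ range N, ∑ a ∈ W i, f a + ∑ a ∈ W N, f a) =
        (∑ a ∈ (range N).biUnion W, f a - ∑ i ∈ range N, ∑ a ∈ W i, f a) -
          ∑ a ∈ W N ∩ (range N).biUnion W, f a := by
      linear_combination h2
    rw [h4]
    exact (norm_sub_le _ _).trans (add_le_add ih h3)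

theorem union_fam {ι : Type} [DecidableEq ι] {f : ℕ → ℂ} (hf : ∀ a, ‖f a‖ ≤ 1) (I : Finset ι)
    (Y : ι → Finset ℕ) {c : ℕ} (hY : ∀ κ ∈ I, ∀ κ' ∈ I, κ ≠ κ' → (Y κ ∩ Y κ').card ≤ c) :
    ‖∑ a ∈ I.biUnion Y, f a - ∑ κ ∈ I, ∑ a ∈ Y κ, f a‖ ≤ (I.card : ℝ) ^ 2 * c := by
  classical
  induction I using Finset.induction_on with
  | empty => simp
  | insert κ I hκ ih =>
    have ih' := ih fun κ' h' κ'' h'' h => hY κ' (mem_insert_of_mem h') κ'' (mem_insert_of_mem h'') h
    have h2 := sum_union_inter (s₁ := Y κ) (s₂ := I.biUnion Y) (f := f)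
    rw [biUnion_insert, sum_insert hκ, card_insert_of_notMem hκ]
    have h5 : (Y κ ∩ I.biUnion Y).card ≤ I.card * c := by
      have h6 : Y κ ∩ I.biUnion Y ⊆ I.biUnion fun κ' => Y κ ∩ Y κ' := by
        intro a ha
        obtain ⟨h7, h8⟩ := mem_inter.1 ha
        obtain ⟨κ', h9, h10⟩ := mem_biUnion.1 h8
        exact mem_biUnion.2 ⟨κ', h9, mem_inter.2 ⟨h7, h10⟩⟩
      refine (card_le_card h6).trans (card_biUnion_le.trans ?_)
      refine (sum_le_sum fun κ' h' => hY κ (mem_insert_self _ _) κ' (mem_insert_of_mem h')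
        (fun h => hκ (h ▸ h'))).trans (le_of_eq ?_)
      rw [sum_const, smul_eq_mul]
    have h3 : ‖∑ a ∈ Y κ ∩ I.biUnion Y, f a‖ ≤ I.card * c := by
      refine (norm_sum_le _ _).trans ((sum_le_sum fun a _ => hf a).trans ?_)
      rw [sum_const, nsmul_eq_mul, mul_one]
      exact_mod_cast h5
    have h4 : ∑ a ∈ Y κ ∪ I.biUnion Y, f a - (∑ a ∈ Y κ, f a + ∑ κ ∈ I, ∑ a ∈ Y κ, f a) =
        (∑ a ∈ I.biUnion Y, f a - ∑ κ ∈ I, ∑ a ∈ Y κ, f a) -
          ∑ a ∈ Y κ ∩ I.biUnion Y, f a := by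
      linear_combination h2
    rw [h4]
    refine (norm_sub_le _ _).trans ((add_le_add ih' h3).trans ?_)
    push_cast
    have h6 : (0 : ℝ) ≤ (I.card : ℝ) * c := by positivity
    have h7 : (0 : ℝ) ≤ (c : ℝ) := Nat.cast_nonneg _
    nlinarith

theorem small_err (c : ℝ) {ε : ℝ} (hε : 0 < ε) : ∀ᶠ i : ℕ in atTop,
    486 * (√(2 * (3 * ((i : ℝ) + 1) * ((i : ℝ) * (2 * 2 ^ i + i)) + 1)) +
      2 * (2 * 2 ^ i / i + 1) + 2) + c ≤ ε * 2 ^ i := by
  have h1 : Tendsto (fun i : ℕ => (2 * (3 * ((i : ℝ) + 1) * ((i : ℝ) * (2 * 2 ^ i + i)) + 1)) /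
      4 ^ i) atTop (nhds 0) := by
    have a1 := tendsto_pow_const_mul_const_pow_of_abs_lt_one 1 (r := (1 / 2 : ℝ))
      (by rw [abs_of_pos] <;> norm_num)
    have a2 := tendsto_pow_const_mul_const_pow_of_abs_lt_one 2 (r := (1 / 2 : ℝ))
      (by rw [abs_of_pos] <;> norm_num)
    have b0 := tendsto_pow_const_mul_const_pow_of_abs_lt_one 0 (r := (1 / 4 : ℝ))
      (by rw [abs_of_pos] <;> norm_num)
    have b2 := tendsto_pow_const_mul_const_pow_of_abs_lt_one 2 (r := (1 / 4 : ℝ))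
      (by rw [abs_of_pos] <;> norm_num)
    have b3 := tendsto_pow_const_mul_const_pow_of_abs_lt_one 3 (r := (1 / 4 : ℝ))
      (by rw [abs_of_pos] <;> norm_num)
    have h3 := ((((a1.const_mul 12).add (a2.const_mul 12)).add (b0.const_mul 2)).add
      (b2.const_mul 6)).add (b3.const_mul 6)
    simp only [mul_zero, add_zero] at h3
    refine h3.congr fun i => ?_
    have h4 : (4 : ℝ) ^ i = 2 ^ i * 2 ^ i := by rw [← mul_pow]; norm_num
    have h5 : ((1 : ℝ) / 2) ^ i = 1 / 2 ^ i := by rw [div_pow, one_pow]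
    have h6 : ((1 : ℝ) / 4) ^ i = 1 / (2 ^ i * 2 ^ i) := by rw [div_pow, one_pow, h4]
    rw [h5, h6, h4]
    field_simp
    ring
  have h2 : ∀ᶠ i : ℕ in atTop, 486 * 4 / (i : ℝ) ≤ ε / 3 := by
    have := (tendsto_const_div_atTop_nhds_zero_nat (486 * 4 : ℝ)).eventually_le_const
      (by positivity : (0 : ℝ) < ε / 3)
    exact this
  have h3 : ∀ᶠ i : ℕ in atTop, (486 * 4 + c) ≤ ε / 3 * 2 ^ i :=
    ((tendsto_pow_atTop_atTop_of_one_lt (by norm_num : (1 : ℝ) < 2)).const_mul_atTop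
      (by positivity : (0 : ℝ) < ε / 3)).eventually_ge_atTop _
  filter_upwards [h1.eventually_lt_const (by positivity : (0 : ℝ) < (ε / 3 / 486) ^ 2), h2, h3,
    eventually_ge_atTop 1] with i g1 g2 g3 g4
  have hi : (0 : ℝ) < i := by exact_mod_cast g4
  have h2i : (0 : ℝ) < 2 ^ i := by positivity
  have g5 : √(2 * (3 * ((i : ℝ) + 1) * ((i : ℝ) * (2 * 2 ^ i + i)) + 1)) ≤ ε / 3 / 486 * 2 ^ i := by
    refine Real.sqrt_le_iff.2 ⟨by positivity, ?_⟩
    have e : (ε / 3 / 486 * 2 ^ i) ^ 2 = (ε / 3 / 486) ^ 2 * 4 ^ i := by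
      rw [mul_pow, ← pow_mul, mul_comm i 2, pow_mul]
      norm_num
    rw [e]
    exact (div_le_iff₀ (by positivity)).1 g1.le
  have g6 : 486 * (2 * (2 * 2 ^ i / (i : ℝ))) ≤ ε / 3 * 2 ^ i := by
    have e : 486 * (2 * (2 * 2 ^ i / (i : ℝ))) = 486 * 4 / (i : ℝ) * 2 ^ i := by ring
    rw [e]
    exact mul_le_mul_of_nonneg_right g2 h2i.le
  linarith

set_option maxRecDepth 20000 in
theorem base3 (Z : Subgroup Circle) (hZ : (Z : Set Circle).Countable) :
    ∃ (J : Set ℕ) (K : ℝ), 0 < K ∧ IsJ Z J K := by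
  classical
  obtain ⟨zs, hzs⟩ := hZ.exists_eq_range ⟨1, Z.one_mem⟩
  obtain ⟨Si, hSi⟩ : ∃ Si : ℕ → Finset Circle, ∀ i, Si i = ((range i).image zs).filter
    (fun z : Circle => z ≠ 1 ∧ 4 / ‖1 - (z : ℂ)‖ ^ 2 ≤ (i : ℝ)) := ⟨_, fun _ => rfl⟩
  have hex : ∀ (i : ℕ) (D : Finset ℕ), ∃ X, 3 ≤ i → Lev3 i i (Si i) D X := by
    intro i D
    by_cases hi : 3 ≤ i
    · obtain ⟨X, hX⟩ := lev3_exists hi (by omega : 0 < i) (Si i) (fun z hz => by
        rw [hSi] at hz
        exact (mem_filter.1 hz).2.1) D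
      exact ⟨X, fun _ => hX⟩
    · exact ⟨fun _ => ∅, fun h => absurd h hi⟩
  choose Xf hXf using hex
  obtain ⟨VD, hVD⟩ : ∃ VD : ℕ → Finset ℕ → Finset ℕ, ∀ i D, VD i D =
    if 3 ≤ i then II.biUnion (Xf i D) else ∅ := ⟨_, fun _ _ => rfl⟩
  obtain ⟨St, hSt0, hSt1⟩ : ∃ St : ℕ → Finset ℕ, St 0 = ∅ ∧ ∀ i, St (i + 1) = VD i (St i) ∪ St i :=
    ⟨fun n => Nat.rec ∅ (fun i D => VD i D ∪ D) n, rfl, fun _ => rfl⟩
  obtain ⟨V, hV'⟩ : ∃ V : ℕ → Finset ℕ, ∀ i, V i = VD i (St i) := ⟨_, fun _ => rfl⟩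
  obtain ⟨X, hX'⟩ : ∃ X : ℕ → Fin 3 × ℕ × ℕ → Finset ℕ, ∀ i, X i = Xf i (St i) :=
    ⟨_, fun _ => rfl⟩
  have hX : ∀ i, 3 ≤ i → Lev3 i i (Si i) (St i) (X i) := fun i hi => by
    rw [hX']
    exact hXf i (St i) hi
  have hV : ∀ i, V i = if 3 ≤ i then II.biUnion (X i) else ∅ := fun i => by
    rw [hV', hVD, hX']
  have hStV : ∀ i, St i = (range i).biUnion V := by
    intro i
    induction i with
    | zero => rw [hSt0]; simp
    | succ i ih => rw [hSt1, ← hV', ih, range_add_one, biUnion_insert]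
  have hVb : ∀ i, ∀ v ∈ V i, 3 ≤ i ∧ 2 * 4 ^ i ≤ v ∧ v < 444 * 4 ^ i := by
    intro i v hv
    rw [hV] at hv
    split_ifs at hv with h
    · obtain ⟨κ, hκ, hv'⟩ := mem_biUnion.1 hv
      exact ⟨h, (hX i h).1 κ hκ v hv'⟩
    · exact absurd hv (notMem_empty _)
  have hVc : ∀ i, (V i).card ≤ 972 * 2 ^ i := by
    intro i
    rw [hV]
    split_ifs with h
    · refine card_biUnion_le.trans ((sum_le_sum fun κ hκ => (hX i h).2.2.2.1 κ hκ).trans ?_)
      rw [sum_const, card_II, smul_eq_mul]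
      omega
    · simp
  have hStc : ∀ i, (St i).card ≤ 972 * 2 ^ i := by
    intro i
    induction i with
    | zero => rw [hSt0]; simp
    | succ i ih =>
      rw [hSt1, ← hV']
      refine (card_union_le _ _).trans ?_
      have := hVc i
      rw [pow_succ]
      omega
  obtain ⟨J, hJ⟩ : ∃ J : Set ℕ, J = {a | ∃ i, a ∈ V i} := ⟨_, rfl⟩
  have hmemJ : ∀ a, a ∈ J ↔ ∃ i, a ∈ V i := fun a => by rw [hJ]; rfl
  obtain ⟨BR, hBR⟩ : ∃ BR : ℕ → Finset ℕ, ∀ j, BR j =
    if Even j then (V (j / 2)).image (fun v => v - 2 ^ j) else ∅ := ⟨_, fun _ => rfl⟩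
  have h42 : ∀ i : ℕ, 2 ^ (2 * i) = 4 ^ i := fun i => by
    rw [pow_mul]
    norm_num
  have hBR2 : ∀ i, BR (2 * i) = (V i).image (fun v => v - 4 ^ i) := by
    intro i
    rw [hBR, if_pos (even_two_mul i), Nat.mul_div_cancel_left i (by norm_num), h42]
  have hJAA : J = AA (fun j => 2 ^ j) BR := by
    ext a
    rw [hmemJ]
    constructor
    · rintro ⟨i, hi⟩
      have h4 := (hVb i a hi).2.1
      refine ⟨2 * i, mem_blk.2 ⟨?_, ?_⟩⟩
      · simp only
        rw [h42]
        omega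
      · simp only
        rw [hBR2, h42]
        exact mem_image_of_mem (fun v => v - 4 ^ i) hi
    · rintro ⟨j, hj⟩
      obtain ⟨h1, h2⟩ := mem_blk.1 hj
      simp only at h1 h2
      rcases Nat.even_or_odd' j with ⟨i, rfl | rfl⟩
      · rw [hBR2] at h2
        obtain ⟨v, hv, h3⟩ := mem_image.1 h2
        refine ⟨i, ?_⟩
        have h4 := (hVb i v hv).2.1
        rw [h42] at h1 h3
        have : a = v := by omega
        rw [this]
        exact hv
      · rw [hBR, if_neg (by rw [Nat.not_even_iff_odd]; exact ⟨i, rfl⟩)] at h2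
        exact absurd h2 (notMem_empty _)
  obtain ⟨D0, hD0⟩ : ∃ D0 : ℝ, D0 = 888 * (8 * 486 ^ 4) := ⟨_, rfl⟩
  obtain ⟨K, hK⟩ : ∃ K : ℝ, K = 2401 * D0 := ⟨_, rfl⟩
  have hK2 : K = 2401 * (888 * (8 * 486 ^ 4)) := by rw [hK, hD0]
  have hKpos : 0 < K := by rw [hK2]; norm_num
  have hKbig : 5 * (486 * 22) ≤ K := by rw [hK2]; norm_num
  have hE : ∀ j, ((sol (2 ^ j) (BR j)).card : ℝ) ≤ D0 * (2 ^ j : ℕ) := by
    intro j
    rcases Nat.even_or_odd' j with ⟨i, rfl | rfl⟩
    · have h1 : ((sol (2 ^ (2 * i)) (BR (2 * i))).card : ℝ) ≤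
          2 * (444 : ℕ) * (quad (BR (2 * i))).card := by
        refine sol_le_quad (by positivity) ?_
        intro b hb
        rw [hBR2] at hb
        obtain ⟨v, hv, rfl⟩ := mem_image.1 hb
        have h4 := (hVb i v hv).2
        rw [h42]
        omega
      refine h1.trans ?_
      rw [hBR2]
      have h2 : ((quad ((V i).image fun v => v - 4 ^ i)).card : ℝ) ≤ 8 * 486 ^ 4 * 4 ^ i := by
        have h3 := quad_shift (V i) (4 ^ i) (fun v hv => by
          have := (hVb i v hv).2.1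
          omega)
        have h4 : ((quad (V i)).card : ℝ) ≤ 8 * 486 ^ 4 * 4 ^ i := by
          rw [hV]
          split_ifs with h
          · exact (hX i h).2.1
          · have : (quad (∅ : Finset ℕ)).card = 0 := by
              unfold quad
              simp
            rw [this, Nat.cast_zero]
            positivity
        exact le_trans (by exact_mod_cast h3) h4
      have h3 : ((2 ^ (2 * i) : ℕ) : ℝ) = 4 ^ i := by
        rw [h42]
        push_cast
        ring
      rw [h3, hD0]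
      push_cast
      linarith
    · rw [hBR, if_neg (by rw [Nat.not_even_iff_odd]; exact ⟨i, rfl⟩)]
      have : (sol (2 ^ (2 * i + 1)) (∅ : Finset ℕ)).card = 0 := by
        unfold Pool.Agent.Helper5.RC.sol
        simp
      rw [this, Nat.cast_zero, hD0]
      positivity
  refine ⟨J, K, hKpos, ?_, ?_, ?_, ?_⟩
  · intro x
    have h := mean_square chain_two hE x
    rw [← hJAA, ← hK] at h
    refine le_trans (le_of_eq (sum_congr rfl fun n _ => ?_)) h
    rw [Pool.Agent.Helper80.RC.rep_eq]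
  · filter_upwards [eventually_ge_atTop (28 * 4 ^ 3)] with n hn
    have hex : ∃ k, n < 28 * 4 ^ (k + 1) := by
      refine ⟨n, ?_⟩
      have : n < 4 ^ n := Nat.lt_pow_self (by norm_num)
      have : 4 ^ n ≤ 4 ^ (n + 1) := Nat.pow_le_pow_right (by norm_num) (by omega)
      omega
    obtain ⟨i, hi1, hi2⟩ : ∃ i, n < 28 * 4 ^ (i + 1) ∧ ∀ k < i, ¬ n < 28 * 4 ^ (k + 1) :=
      ⟨Nat.find hex, Nat.find_spec hex, fun k hk => Nat.find_min hex hk⟩
    have hi3 : 3 ≤ i := by
      by_contra hlt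
      have : 4 ^ (i + 1) ≤ 4 ^ 3 := Nat.pow_le_pow_right (by norm_num) (by omega)
      omega
    have hi4 : 28 * 4 ^ i ≤ n := by
      have := hi2 (i - 1) (by omega)
      rw [Nat.sub_add_cancel (by omega)] at this
      omega
    have hi5 : n < 112 * 4 ^ i := by
      rw [pow_succ] at hi1
      omega
    obtain ⟨v, hv, w, hw, h⟩ := (hX i hi3).2.2.1 n hi4 hi5
    have hVi : V i = II.biUnion (X i) := by rw [hV, if_pos hi3]
    have : 0 < rep J n := by
      unfold Pool.Agent.Helper25.RC.rep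
      refine card_pos.2 ⟨(v, w), mem_filter.2 ⟨mem_antidiagonal.2 h, ?_, ?_⟩⟩
      · exact (hmemJ v).2 ⟨i, by rw [hVi]; exact hv⟩
      · exact (hmemJ w).2 ⟨i, by rw [hVi]; exact hw⟩
    exact this
  · intro u v hu huv hv2
    have huv' : (u : ℝ) ≤ v := by exact_mod_cast huv
    have hu0 : (0 : ℝ) < u := by exact_mod_cast hu
    have hsu : 0 < √(u : ℝ) := Real.sqrt_pos.2 hu0
    have hex : ∃ k, u < 444 * 4 ^ k := ⟨u, by
      have : u < 4 ^ u := Nat.lt_pow_self (by norm_num)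
      omega⟩
    obtain ⟨i1, hi1, hi2⟩ : ∃ i, u < 444 * 4 ^ i ∧ ∀ k < i, ¬ u < 444 * 4 ^ k :=
      ⟨Nat.find hex, Nat.find_spec hex, fun k hk => Nat.find_min hex hk⟩
    have hsub : below J v \ below J u ⊆
        (Ico i1 (i1 + 5)).biUnion fun i => (V i).filter fun w => u ≤ w ∧ w < v := by
      intro a ha
      obtain ⟨h1, h2⟩ := mem_sdiff.1 ha
      obtain ⟨h3, h4⟩ := mem_below.1 h1
      have h5 : u ≤ a := by
        by_contra hlt
        exact h2 (mem_below.2 ⟨by omega, h4⟩)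
      obtain ⟨i, hi⟩ := (hmemJ a).1 h4
      have h6 := (hVb i a hi).2
      refine mem_biUnion.2 ⟨i, mem_Ico.2 ⟨?_, ?_⟩, mem_filter.2 ⟨hi, h5, h3⟩⟩
      · by_contra hlt
        exact hi2 i (by omega) (by omega)
      · by_contra hlt
        have h7 : 4 ^ (i1 + 5) ≤ 4 ^ i := Nat.pow_le_pow_right (by norm_num) (by omega)
        rw [pow_add] at h7
        omega
    have hone : ∀ i ∈ Ico i1 (i1 + 5), (((V i).filter fun w => u ≤ w ∧ w < v).card : ℝ) ≤
        486 * (22 * (((v : ℝ) - u) / √u) + 5) := by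
      intro i hi
      have hi' := (mem_Ico.1 hi).1
      rw [hV]
      split_ifs with h
      · have h1 : ((II.biUnion (X i)).filter fun w => u ≤ w ∧ w < v).card ≤
            ∑ κ ∈ II, ((X i κ).filter fun w => u ≤ w ∧ w < v).card := by
          rw [filter_biUnion]
          exact card_biUnion_le
        have h2 : ∀ κ ∈ II, (((X i κ).filter fun w => u ≤ w ∧ w < v).card : ℝ) ≤
            22 * (((v : ℝ) - u) / √u) + 5 := by
          intro κ hκ
          refine ((hX i h).2.2.2.2.1 κ hκ u v huv).trans ?_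
          have h3 : √(u : ℝ) ≤ 22 * 2 ^ i := by
            refine Real.sqrt_le_iff.2 ⟨by positivity, ?_⟩
            have h4 : (22 * (2 : ℝ) ^ i) ^ 2 = 484 * 4 ^ i := by
              rw [mul_pow, ← pow_mul, mul_comm i 2, pow_mul]
              norm_num
            rw [h4]
            have h5 : u < 444 * 4 ^ i := lt_of_lt_of_le hi1
              (Nat.mul_le_mul_left _ (Nat.pow_le_pow_right (by norm_num) hi'))
            have h6 : (u : ℝ) < 444 * 4 ^ i := by exact_mod_cast h5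
            have h7 : (0 : ℝ) < 4 ^ i := by positivity
            linarith
          have h4 : ((v : ℝ) - u) / 2 ^ i ≤ 22 * (((v : ℝ) - u) / √u) := by
            rw [← mul_div_assoc, div_le_div_iff₀ (by positivity) hsu]
            have h5 : 0 ≤ (v : ℝ) - u := by linarith
            have := mul_le_mul_of_nonneg_left h3 h5
            linarith
          linarith
        have h3 : (((II.biUnion (X i)).filter fun w => u ≤ w ∧ w < v).card : ℝ) ≤
            ∑ κ ∈ II, (((X i κ).filter fun w => u ≤ w ∧ w < v).card : ℝ) := by exact_mod_cast h1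
        refine h3.trans ((sum_le_sum h2).trans (le_of_eq ?_))
        rw [sum_const, card_II, nsmul_eq_mul]
        push_cast
        ring
      · rw [filter_empty, card_empty, Nat.cast_zero]
        have : 0 ≤ ((v : ℝ) - u) / √u := div_nonneg (by linarith) hsu.le
        positivity
    have h1 : ((below J v \ below J u).card : ℝ) ≤
        ∑ i ∈ Ico i1 (i1 + 5), (((V i).filter fun w => u ≤ w ∧ w < v).card : ℝ) := by
      have := (card_le_card hsub).trans card_biUnion_le
      exact_mod_cast this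
    refine (h1.trans (sum_le_sum hone)).trans ?_
    rw [sum_const, Nat.card_Ico, nsmul_eq_mul]
    have h2 : 0 ≤ ((v : ℝ) - u) / √u := div_nonneg (by linarith) hsu.le
    have h3 : i1 + 5 - i1 = 5 := by omega
    rw [h3]
    push_cast
    have h4 := mul_le_mul_of_nonneg_right hKbig (by linarith : 0 ≤ ((v : ℝ) - u) / √u + 1)
    linarith
  · intro z hz hz1 ε hε
    obtain ⟨c1, hc1⟩ : ∃ c1 : ℝ, c1 = 486 ^ 2 * 2 + 486 * (2 * (486 * 972 + 1)) := ⟨_, rfl⟩
    have hfz : ∀ a : ℕ, ‖(z : ℂ) ^ a‖ ≤ 1 := fun a => by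
      rw [norm_pow, Circle.norm_coe, one_pow]
    have hSiev : ∀ᶠ i : ℕ in atTop, z ∈ Si i := by
      have : z ∈ Set.range zs := by rw [← hzs]; exact hz
      obtain ⟨k, rfl⟩ := this
      filter_upwards [eventually_gt_atTop k,
        (tendsto_natCast_atTop_atTop (R := ℝ)).eventually_ge_atTop (4 / ‖1 - (zs k : ℂ)‖ ^ 2)]
        with i h1 h2
      rw [hSi]
      exact mem_filter.2 ⟨mem_image_of_mem _ (mem_range.2 h1), hz1, h2⟩
    -- one scale
    have hone : ∀ᶠ i : ℕ in atTop, ∀ y : ℕ, ‖∑ a ∈ (V i).filter (fun w => w < y), (z : ℂ) ^ a‖ +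
        (((V i) ∩ (range i).biUnion V).card : ℝ) ≤ ε / 4 * 2 ^ i := by
      filter_upwards [hSiev, eventually_ge_atTop 3,
        small_err c1 (by positivity : (0 : ℝ) < ε / 4)] with i h1 h2 h3 y
      have hVi : V i = II.biUnion (X i) := by rw [hV, if_pos h2]
      have hL := hX i h2
      have h4 : ‖∑ a ∈ II.biUnion (fun κ => (X i κ).filter (fun w => w < y)), (z : ℂ) ^ a -
          ∑ κ ∈ II, ∑ a ∈ (X i κ).filter (fun w => w < y), (z : ℂ) ^ a‖ ≤
          (II.card : ℝ) ^ 2 * (2 : ℕ) := by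
        refine union_fam hfz II _ ?_
        intro κ hκ κ' hκ' hne
        refine le_trans (card_le_card ?_) (hL.2.2.2.2.2.2.1 κ hκ κ' hκ' hne)
        intro a ha
        obtain ⟨g1, g2⟩ := mem_inter.1 ha
        exact mem_inter.2 ⟨(mem_filter.1 g1).1, (mem_filter.1 g2).1⟩
      rw [card_II] at h4
      push_cast at h4
      have h5 : (V i).filter (fun w => w < y) =
          II.biUnion (fun κ => (X i κ).filter (fun w => w < y)) := by
        rw [hVi, filter_biUnion]
      have h6 : ∑ z ∈ Si i, (2 * 2 ^ i + 4 / ‖1 - (z : ℂ)‖ ^ 2) ≤ (i : ℝ) * (2 * 2 ^ i + i) := by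
        have h7 : ∑ z ∈ Si i, (2 * 2 ^ i + 4 / ‖1 - (z : ℂ)‖ ^ 2) ≤
            ∑ _z ∈ Si i, ((2 : ℝ) * 2 ^ i + i) := by
          refine sum_le_sum fun z hz => ?_
          rw [hSi] at hz
          have := (mem_filter.1 hz).2.2
          linarith
        rw [sum_const, nsmul_eq_mul] at h7
        have h8 : ((Si i).card : ℝ) ≤ i := by
          have : (Si i).card ≤ i := by
            rw [hSi]
            refine (card_filter_le _ _).trans (card_image_le.trans ?_)
            rw [card_range]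
          exact_mod_cast this
        exact h7.trans (mul_le_mul_of_nonneg_right h8 (by positivity))
      have h7 : ∀ κ ∈ II, ‖∑ a ∈ (X i κ).filter (fun w => w < y), (z : ℂ) ^ a‖ ≤
          √(2 * (3 * ((i : ℝ) + 1) * ((i : ℝ) * (2 * 2 ^ i + i)) + 1)) +
            2 * (2 * 2 ^ i / i + 1) + 2 := by
        intro κ hκ
        refine (hL.2.2.2.2.2.1 κ hκ z h1 y).trans ?_
        gcongr
      have h8 : ‖∑ κ ∈ II, ∑ a ∈ (X i κ).filter (fun w => w < y), (z : ℂ) ^ a‖ ≤
          486 * (√(2 * (3 * ((i : ℝ) + 1) * ((i : ℝ) * (2 * 2 ^ i + i)) + 1)) +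
            2 * (2 * 2 ^ i / i + 1) + 2) := by
        refine (norm_sum_le _ _).trans ((sum_le_sum h7).trans (le_of_eq ?_))
        rw [sum_const, card_II, nsmul_eq_mul]
        push_cast
        ring
      have h9 : (((V i) ∩ (range i).biUnion V).card : ℝ) ≤ 486 * (2 * (486 * 972 + 1)) := by
        rw [← hStV, hVi]
        have g1 : ((II.biUnion (X i)) ∩ St i).card ≤ ∑ κ ∈ II, ((X i κ) ∩ St i).card := by
          rw [biUnion_inter]
          exact card_biUnion_le
        have g2 : ∀ κ ∈ II, (((X i κ) ∩ St i).card : ℝ) ≤ 2 * (486 * 972 + 1) := by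
          intro κ hκ
          refine (hL.2.2.2.2.2.2.2 κ hκ).trans ?_
          have g3 : ((St i).card : ℝ) ≤ 972 * 2 ^ i := by exact_mod_cast hStc i
          have g4 : 486 * ((St i).card : ℝ) / 2 ^ i ≤ 486 * 972 := by
            rw [div_le_iff₀ (by positivity)]
            linarith
          linarith
        have g5 : (((II.biUnion (X i)) ∩ St i).card : ℝ) ≤
            ∑ κ ∈ II, (((X i κ) ∩ St i).card : ℝ) := by exact_mod_cast g1
        refine g5.trans ((sum_le_sum g2).trans (le_of_eq ?_))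
        rw [sum_const, card_II, nsmul_eq_mul]
        push_cast
        ring
      rw [h5]
      have h10 : ‖∑ a ∈ II.biUnion (fun κ => (X i κ).filter (fun w => w < y)), (z : ℂ) ^ a‖ ≤
          486 ^ 2 * 2 + 486 * (√(2 * (3 * ((i : ℝ) + 1) * ((i : ℝ) * (2 * 2 ^ i + i)) + 1)) +
            2 * (2 * 2 ^ i / i + 1) + 2) := by
        have := norm_sub_norm_le (∑ a ∈ II.biUnion (fun κ => (X i κ).filter (fun w => w < y)),
          (z : ℂ) ^ a) (∑ κ ∈ II, ∑ a ∈ (X i κ).filter (fun w => w < y), (z : ℂ) ^ a)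
        linarith
      rw [hc1] at h3
      linarith
    obtain ⟨i0, hi0⟩ := eventually_atTop.1 hone
    obtain ⟨C0, hC0⟩ : ∃ C0 : ℝ, C0 = ∑ i ∈ range i0, ((V i).card + (V i).card : ℝ) := ⟨_, rfl⟩
    have hC00 : 0 ≤ C0 := by
      rw [hC0]
      exact sum_nonneg fun _ _ => add_nonneg (Nat.cast_nonneg _) (Nat.cast_nonneg _)
    have hbd : ∀ N y : ℕ, ∑ i ∈ range N, (‖∑ a ∈ (V i).filter (fun w => w < y), (z : ℂ) ^ a‖ +
        (((V i) ∩ (range i).biUnion V).card : ℝ)) ≤ C0 + ε / 4 * 2 ^ N := by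
      intro N y
      have h1 : ∀ i ∈ range N, ‖∑ a ∈ (V i).filter (fun w => w < y), (z : ℂ) ^ a‖ +
          (((V i) ∩ (range i).biUnion V).card : ℝ) ≤
          (if i < i0 then ((V i).card + (V i).card : ℝ) else 0) + ε / 4 * 2 ^ i := by
        intro i _
        split_ifs with h
        · have h2 : ‖∑ a ∈ (V i).filter (fun w => w < y), (z : ℂ) ^ a‖ ≤ (V i).card := by
            refine (norm_sum_le _ _).trans ((sum_le_sum fun a _ => hfz a).trans ?_)
            rw [sum_const, nsmul_eq_mul, mul_one]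
            exact_mod_cast card_filter_le _ _
          have h3 : (((V i) ∩ (range i).biUnion V).card : ℝ) ≤ (V i).card := by
            exact_mod_cast card_le_card inter_subset_left
          have : 0 ≤ ε / 4 * 2 ^ i := by positivity
          linarith
        · rw [zero_add]
          exact hi0 i (by omega) y
      refine (sum_le_sum h1).trans ?_
      rw [sum_add_distrib, ← mul_sum]
      refine add_le_add ?_ (mul_le_mul_of_nonneg_left ?_ (by positivity))
      · rw [← sum_filter, hC0]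
        refine sum_le_sum_of_subset_of_nonneg ?_
          (fun _ _ _ => add_nonneg (Nat.cast_nonneg _) (Nat.cast_nonneg _))
        intro i hi
        exact mem_range.2 (mem_filter.1 hi).2
      · rw [geom_sum_eq (x := (2 : ℝ)) (by norm_num) N]
        norm_num
    have hsqrt : Tendsto (fun x : ℕ => √(x : ℝ)) atTop atTop :=
      Real.tendsto_sqrt_atTop.comp tendsto_natCast_atTop_atTop
    filter_upwards [hsqrt.eventually_ge_atTop (2 * C0 / ε), eventually_ge_atTop 2] with x hx1 hx2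
    have hexN : ∃ N, x ≤ 4 ^ N := ⟨x, (Nat.lt_pow_self (by norm_num)).le⟩
    obtain ⟨N, hN1, hN2⟩ : ∃ N, x ≤ 4 ^ N ∧ ∀ k < N, ¬ x ≤ 4 ^ k :=
      ⟨Nat.find hexN, Nat.find_spec hexN, fun k hk => Nat.find_min hexN hk⟩
    have hN0 : 1 ≤ N := by
      by_contra hlt
      have : N = 0 := by omega
      rw [this] at hN1
      simp at hN1
      omega
    have hN3 : 4 ^ (N - 1) < x := by
      have := hN2 (N - 1) (by omega)
      omega
    have hN4 : (2 : ℝ) ^ N ≤ 2 * √x := by
      have h1 : (2 : ℝ) ^ N = 2 * 2 ^ (N - 1) := by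
        rw [← pow_succ', Nat.sub_add_cancel hN0]
      have h2 : (2 : ℝ) ^ (N - 1) ≤ √x := by
        refine Real.le_sqrt_of_sq_le ?_
        rw [← pow_mul, mul_comm, pow_mul]
        have : ((4 ^ (N - 1) : ℕ) : ℝ) ≤ x := by exact_mod_cast hN3.le
        push_cast at this
        norm_num
        exact this
      rw [h1]
      linarith
    have hbel : below J x = (range N).biUnion fun i => (V i).filter fun w => w < x := by
      ext a
      rw [mem_below, hmemJ, mem_biUnion]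
      constructor
      · rintro ⟨h1, i, hi⟩
        refine ⟨i, mem_range.2 ?_, mem_filter.2 ⟨hi, h1⟩⟩
        by_contra hlt
        have h4 := (hVb i a hi).2.1
        have h5 : 4 ^ N ≤ 4 ^ i := Nat.pow_le_pow_right (by norm_num) (by omega)
        omega
      · rintro ⟨i, _, hi⟩
        exact ⟨(mem_filter.1 hi).2, i, (mem_filter.1 hi).1⟩
    have h1 := union_seq hfz (fun i => (V i).filter fun w => w < x) N
    have h2 : ∑ i ∈ range N, ((((V i).filter fun w => w < x) ∩
        (range i).biUnion fun i => (V i).filter fun w => w < x).card : ℝ) ≤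
        ∑ i ∈ range N, (((V i) ∩ (range i).biUnion V).card : ℝ) := by
      refine sum_le_sum fun i _ => ?_
      have : (((V i).filter fun w => w < x) ∩ (range i).biUnion fun i => (V i).filter fun w =>
          w < x) ⊆ (V i) ∩ (range i).biUnion V := by
        intro a ha
        obtain ⟨g1, g2⟩ := mem_inter.1 ha
        obtain ⟨k, g3, g4⟩ := mem_biUnion.1 g2
        exact mem_inter.2 ⟨(mem_filter.1 g1).1, mem_biUnion.2 ⟨k, g3, (mem_filter.1 g4).1⟩⟩
      exact_mod_cast card_le_card this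
    rw [← hbel] at h1
    have h3 := hbd N x
    rw [sum_add_distrib] at h3
    have h4 : ‖∑ i ∈ range N, ∑ a ∈ (V i).filter (fun w => w < x), (z : ℂ) ^ a‖ ≤
        ∑ i ∈ range N, ‖∑ a ∈ (V i).filter (fun w => w < x), (z : ℂ) ^ a‖ := norm_sum_le _ _
    have h5 := norm_sub_norm_le (∑ a ∈ below J x, (z : ℂ) ^ a)
      (∑ i ∈ range N, ∑ a ∈ (V i).filter (fun w => w < x), (z : ℂ) ^ a)
    have h6 : C0 ≤ ε / 2 * √x := by
      rw [div_le_iff₀ hε] at hx1
      linarith
    have h7 : ε / 4 * 2 ^ N ≤ ε / 2 * √x := by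
      have := mul_le_mul_of_nonneg_left hN4 (by positivity : (0 : ℝ) ≤ ε / 4)
      linarith
    linarith

end Pool.Agent.Helper38.JB
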