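import Mathlib

/-!
Parabolas modulo a prime and the just basis of Ruzsa at one prime.
-/

set_option autoImplicit false

open Finset

namespace Pool.Agent.Helper38.JB

/-- all sums of two elements are different -/
def Sid (X : Finset ℕ) : Prop :=
  ∀ a ∈ X, ∀ b ∈ X, ∀ c ∈ X, ∀ d ∈ X, a + b = c + d → a = c ∨ a = d

theorem digits {m u v u' v' : ℕ} (hu : u < m) (hu' : u' < m) (h : u + m * v = u' + m * v') :
    u = u' ∧ v = v' := by
  have h1 : u = u' := by
    have := congrArg (fun t => t % m) h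
    simp only [Nat.add_mul_mod_self_left, Nat.mod_eq_of_lt hu, Nat.mod_eq_of_lt hu'] at this
    exact this
  refine ⟨h1, ?_⟩
  rw [h1] at h
  have h2 : m * v = m * v' := by omega
  exact Nat.eq_of_mul_eq_mul_left (by omega) h2

section

variable {p : ℕ} [Fact p.Prime]

/-- the second coordinate -/
def yc (k a b : ZMod p) (x : ℕ) : ℕ := (k * ((x : ZMod p) - a) ^ 2 + b).val

/-- the elements -/
def el (k a b : ZMod p) (x : ℕ) : ℕ := x + 2 * p * yc k a b x

/-- the set of all elements -/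
def par (k a b : ZMod p) : Finset ℕ := (range p).image (el k a b)

theorem yc_lt (k a b : ZMod p) (x : ℕ) : yc k a b x < p := ZMod.val_lt _

theorem el_lt (k a b : ZMod p) {x : ℕ} (hx : x < p) : el k a b x < 2 * p ^ 2 := by
  have h1 := yc_lt k a b x
  have h2 : yc k a b x + 1 ≤ p := h1
  have h3 : 2 * p * (yc k a b x + 1) ≤ 2 * p * p := Nat.mul_le_mul_left _ h2
  unfold el
  nlinarith

theorem el_inj (k a b : ZMod p) {x y : ℕ} (hx : x < p) (hy : y < p)
    (h : el k a b x = el k a b y) : x = y :=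
  (digits (by omega) (by omega) h).1

theorem card_par (k a b : ZMod p) : (par k a b).card = p := by
  unfold par
  rw [card_image_of_injOn, card_range]
  intro x hx y hy h
  rw [coe_range, Set.mem_Iio] at hx hy
  exact el_inj k a b hx hy h

theorem cast_inj_lt {x y : ℕ} (hx : x < p) (hy : y < p) (h : (x : ZMod p) = (y : ZMod p)) :
    x = y := by
  rw [ZMod.natCast_eq_natCast_iff'] at h
  rwa [Nat.mod_eq_of_lt hx, Nat.mod_eq_of_lt hy] at h

theorem sid_par (hp2 : (2 : ZMod p) ≠ 0) {k : ZMod p} (hk : k ≠ 0) (a b : ZMod p) :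
    Sid (par k a b) := by
  intro v1 h1 v2 h2 v3 h3 v4 h4 h
  obtain ⟨x1, hx1, rfl⟩ := mem_image.1 h1
  obtain ⟨x2, hx2, rfl⟩ := mem_image.1 h2
  obtain ⟨x3, hx3, rfl⟩ := mem_image.1 h3
  obtain ⟨x4, hx4, rfl⟩ := mem_image.1 h4
  rw [mem_range] at hx1 hx2 hx3 hx4
  have e : (x1 + x2) + 2 * p * (yc k a b x1 + yc k a b x2) =
      (x3 + x4) + 2 * p * (yc k a b x3 + yc k a b x4) := by
    unfold el at h
    linarith
  obtain ⟨e1, e2⟩ := digits (by omega) (by omega) e
  have f1 : (x1 : ZMod p) + x2 = x3 + x4 := by exact_mod_cast congrArg (Nat.cast (R := ZMod p)) e1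
  have f2 : (k * ((x1 : ZMod p) - a) ^ 2 + b) + (k * ((x2 : ZMod p) - a) ^ 2 + b) =
      (k * ((x3 : ZMod p) - a) ^ 2 + b) + (k * ((x4 : ZMod p) - a) ^ 2 + b) := by
    have := congrArg (Nat.cast (R := ZMod p)) e2
    push_cast at this
    unfold yc at this
    rw [ZMod.natCast_zmod_val, ZMod.natCast_zmod_val, ZMod.natCast_zmod_val,
      ZMod.natCast_zmod_val] at this
    exact this
  have f3 : (2 * k) * (((x1 : ZMod p) - x3) * ((x1 : ZMod p) - x4)) = 0 := by
    have f4 : (x2 : ZMod p) = x3 + x4 - x1 := by linear_combination f1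
    rw [f4] at f2
    linear_combination f2
  rcases mul_eq_zero.1 f3 with h5 | h5
  · exact absurd h5 (mul_ne_zero hp2 hk)
  · rcases mul_eq_zero.1 h5 with h6 | h6
    · left
      rw [cast_inj_lt hx1 hx3 (sub_eq_zero.1 h6)]
    · right
      rw [cast_inj_lt hx1 hx4 (sub_eq_zero.1 h6)]

/-- the three coefficients -/
def kap (u : ZMod p) (i : Fin 3) : ZMod p :=
  if i = 0 then 1 else if i = 1 then (1 + u) / 2 else (1 + u) / (2 * u)

theorem kap_ne (hp2 : (2 : ZMod p) ≠ 0) {u : ZMod p} (hu0 : u ≠ 0) (hu1 : 1 + u ≠ 0) (i : Fin 3) :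
    kap u i ≠ 0 := by
  unfold kap
  split_ifs
  · exact one_ne_zero
  · exact div_ne_zero hu1 hp2
  · exact div_ne_zero hu1 (mul_ne_zero hp2 hu0)

theorem cover_zmod (hp2 : (2 : ZMod p) ≠ 0) {u : ZMod p} (hu : ¬ IsSquare u) (hu1 : 1 + u ≠ 0)
    (a b s t : ZMod p) : ∃ (i j : Fin 3) (X Y : ZMod p), X + Y = s ∧
      (kap u i * (X - a) ^ 2 + b) + (kap u j * (Y - a) ^ 2 + b) = t := by
  have hu0 : u ≠ 0 := by
    rintro rfl
    exact hu ⟨0, by ring⟩
  by_cases hsq : IsSquare (2 * (t - 2 * b) - (s - 2 * a) ^ 2)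
  · obtain ⟨d, hd⟩ := hsq
    refine ⟨0, 0, a + ((s - 2 * a) + d) / 2, a + ((s - 2 * a) - d) / 2, ?_, ?_⟩
    · field_simp
      ring
    · have h2 : ((s - 2 * a + d) / 2) ^ 2 + ((s - 2 * a - d) / 2) ^ 2 = t - 2 * b := by
        field_simp
        linear_combination (-2) * hd
      unfold kap
      rw [if_pos rfl]
      linear_combination h2
  · have hsq2 : IsSquare (u * (2 * (t - 2 * b) - (s - 2 * a) ^ 2)) := by
      have hp : ringChar (ZMod p) ≠ 2 := by
        rw [ZMod.ringChar_zmod_n]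
        intro h2
        apply hp2
        have := (ZMod.natCast_eq_zero_iff 2 p).2 (by rw [h2])
        exact_mod_cast this
      have h1 := (quadraticChar_neg_one_iff_not_isSquare (F := ZMod p)).2 hu
      have h2 := (quadraticChar_neg_one_iff_not_isSquare (F := ZMod p)).2 hsq
      have h3 : quadraticChar (ZMod p) (u * (2 * (t - 2 * b) - (s - 2 * a) ^ 2)) = 1 := by
        rw [map_mul, h1, h2]
        norm_num
      have h4 : u * (2 * (t - 2 * b) - (s - 2 * a) ^ 2) ≠ 0 := by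
        intro h
        rw [h] at h3
        simp at h3
      exact (quadraticChar_one_iff_isSquare h4).1 h3
    obtain ⟨d, hd⟩ := hsq2
    refine ⟨1, 2, a + ((s - 2 * a) + d) / (1 + u), a + (u * (s - 2 * a) - d) / (1 + u), ?_, ?_⟩
    · field_simp
      ring
    · have h2 : (1 + u) / 2 * ((s - 2 * a + d) / (1 + u)) ^ 2 +
          (1 + u) / (2 * u) * ((u * (s - 2 * a) - d) / (1 + u)) ^ 2 = t - 2 * b := by
        field_simp
        linear_combination (-(1 + u)) * hd
      have e1 : kap u 1 = (1 + u) / 2 := by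
        unfold kap
        rw [if_neg (by decide), if_pos rfl]
      have e2 : kap u 2 = (1 + u) / (2 * u) := by
        unfold kap
        rw [if_neg (by decide), if_neg (by decide)]
      rw [e1, e2]
      linear_combination h2

theorem cover (hp2 : (2 : ZMod p) ≠ 0) {u : ZMod p} (hu : ¬ IsSquare u) (hu1 : 1 + u ≠ 0)
    (a b : ZMod p) {n : ℕ} (hn : 4 * p ^ 2 ≤ n) : ∃ (i j : Fin 3), ∃ v ∈ par (kap u i) a b,
      ∃ w ∈ par (kap u j) a b, ∃ e β : ℕ, e ≤ 2 ∧ n + p = v + w + e * p + 2 * p ^ 2 * β ∧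
        2 * p ^ 2 * β ≤ n ∧ n < 2 * p ^ 2 * (β + 2) := by
  have hp0 : 0 < p := (Fact.out : p.Prime).pos
  obtain ⟨s0, hs0⟩ : ∃ s0, s0 = n % (2 * p) := ⟨_, rfl⟩
  obtain ⟨t0, ht0⟩ : ∃ t0, t0 = n / (2 * p) := ⟨_, rfl⟩
  have hn' : n = s0 + 2 * p * t0 := by
    rw [hs0, ht0]
    exact (Nat.mod_add_div n (2 * p)).symm
  have hs0lt : s0 < 2 * p := by
    rw [hs0]
    exact Nat.mod_lt _ (by omega)
  have ht0ge : 2 * p ≤ t0 := by
    by_contra hlt
    have : t0 + 1 ≤ 2 * p := by omega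
    have h2 : 2 * p * (t0 + 1) ≤ 2 * p * (2 * p) := Nat.mul_le_mul_left _ this
    nlinarith
  obtain ⟨i, j, X, Y, h1, h2⟩ := cover_zmod hp2 hu hu1 a b (s0 : ZMod p) (t0 : ZMod p)
  have hXc : ((X.val : ℕ) : ZMod p) = X := ZMod.natCast_zmod_val X
  have hYc : ((Y.val : ℕ) : ZMod p) = Y := ZMod.natCast_zmod_val Y
  have hX := ZMod.val_lt X
  have hY := ZMod.val_lt Y
  have hy1 := yc_lt (kap u i) a b X.val
  have hy2 := yc_lt (kap u j) a b Y.val
  have c1 : ((X.val + Y.val : ℕ) : ZMod p) = (s0 : ZMod p) := by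
    push_cast
    rw [hXc, hYc, h1]
  have c2 : ((yc (kap u i) a b X.val + yc (kap u j) a b Y.val : ℕ) : ZMod p) = (t0 : ZMod p) := by
    push_cast
    unfold yc
    simp only [ZMod.natCast_zmod_val]
    exact h2
  rw [ZMod.natCast_eq_natCast_iff] at c1 c2
  -- the first digit
  have d1 : ∃ e ≤ 2, s0 + p = X.val + Y.val + e * p := by
    have h3 : (p : ℤ) ∣ ((s0 : ℤ) - (X.val + Y.val : ℕ)) := (Nat.modEq_iff_dvd).1 c1
    obtain ⟨q, hq⟩ := h3
    have hq1 : -2 < q := by
      by_contra hlt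
      have : (p : ℤ) * q ≤ p * (-2) := mul_le_mul_of_nonneg_left (by omega) (by omega)
      push_cast at hq
      omega
    have hq2 : q < 2 := by
      by_contra hlt
      have : (p : ℤ) * 2 ≤ p * q := mul_le_mul_of_nonneg_left (by omega) (by omega)
      push_cast at hq
      omega
    have hq3 : q = -1 ∨ q = 0 ∨ q = 1 := by omega
    rcases hq3 with rfl | rfl | rfl
    · exact ⟨0, by norm_num, by push_cast at hq; omega⟩
    · exact ⟨1, by norm_num, by push_cast at hq; omega⟩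
    · exact ⟨2, by norm_num, by push_cast at hq; omega⟩
  have d2 : ∃ β : ℕ, t0 = yc (kap u i) a b X.val + yc (kap u j) a b Y.val + p * β := by
    have h3 : p ∣ t0 - (yc (kap u i) a b X.val + yc (kap u j) a b Y.val) :=
      (Nat.modEq_iff_dvd' (by omega)).1 c2
    obtain ⟨β, hβ⟩ := h3
    exact ⟨β, by omega⟩
  obtain ⟨e, he, hse⟩ := d1
  obtain ⟨β, hβ⟩ := d2
  refine ⟨i, j, _, mem_image_of_mem _ (mem_range.2 hX), _, mem_image_of_mem _ (mem_range.2 hY),
    e, β, he, ?_, ?_, ?_⟩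
  · unfold el
    rw [hn', hβ]
    have : s0 + 2 * p * (yc (kap u i) a b X.val + yc (kap u j) a b Y.val + p * β) + p =
        (s0 + p) + 2 * p * (yc (kap u i) a b X.val + yc (kap u j) a b Y.val + p * β) := by ring
    rw [this, hse]
    ring
  · rw [hn', hβ]
    have : 2 * p * (yc (kap u i) a b X.val + yc (kap u j) a b Y.val + p * β) =
        2 * p * (yc (kap u i) a b X.val + yc (kap u j) a b Y.val) + 2 * p ^ 2 * β := by ring
    rw [this]
    omega
  · rw [hn', hβ]
    have h3 : yc (kap u i) a b X.val + yc (kap u j) a b Y.val + 2 ≤ 2 * p := by omega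
    have h4 : 2 * p * (yc (kap u i) a b X.val + yc (kap u j) a b Y.val + 2) ≤ 2 * p * (2 * p) :=
      Nat.mul_le_mul_left _ h3
    nlinarith

end

end Pool.Agent.Helper38.JB
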