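import Pool.Agent.Helper38.SP.One
import Pool.Agent.Helper38.JB.Par

/-!
Energies of unions of Sidon sets and of residues.
-/

set_option autoImplicit false

open Finset

namespace Pool.Agent.Helper38.JB

open Pool.Agent.Helper38.SP (quad)
open Pool.Agent.Helper5.RC (sol)

/-- the number of pairs with a given sum -/
def rr (P : Finset (ℕ × ℕ)) (n : ℕ) : ℕ := (P.filter fun q => q.1 + q.2 = n).card

theorem pairs_eq (P : Finset (ℕ × ℕ)) {M : ℕ} (hM : ∀ q ∈ P, q.1 + q.2 < M) :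
    (((P ×ˢ P).filter fun v => v.1.1 + v.1.2 = v.2.1 + v.2.2).card : ℝ) =
      ∑ n ∈ range M, (rr P n : ℝ) ^ 2 := by
  classical
  have h1 : ((P ×ˢ P).filter fun v => v.1.1 + v.1.2 = v.2.1 + v.2.2).card =
      ∑ n ∈ range M, (((P ×ˢ P).filter fun v => v.1.1 + v.1.2 = v.2.1 + v.2.2).filter
        fun v => v.1.1 + v.1.2 = n).card := by
    refine card_eq_sum_card_fiberwise ?_
    intro v hv
    have hv' := (mem_filter.1 (mem_coe.1 hv)).1
    exact mem_coe.2 (mem_range.2 (hM _ (mem_product.1 hv').1))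
  rw [h1]
  push_cast
  refine sum_congr rfl fun n _ => ?_
  have h2 : ((P ×ˢ P).filter fun v => v.1.1 + v.1.2 = v.2.1 + v.2.2).filter
      (fun v => v.1.1 + v.1.2 = n) = (P.filter fun q => q.1 + q.2 = n) ×ˢ
        (P.filter fun q => q.1 + q.2 = n) := by
    ext v
    simp only [mem_filter, mem_product]
    constructor
    · rintro ⟨⟨⟨h3, h4⟩, h5⟩, h6⟩
      exact ⟨⟨h3, h6⟩, h4, by omega⟩
    · rintro ⟨⟨h3, h6⟩, h4, h7⟩
      exact ⟨⟨⟨h3, h4⟩, by omega⟩, h6⟩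
  rw [h2, card_product]
  unfold rr
  push_cast
  ring

theorem cross {X Y : Finset ℕ} (hX : Sid X) :
    ((((X ×ˢ Y) ×ˢ (X ×ˢ Y)).filter fun v => v.1.1 + v.1.2 = v.2.1 + v.2.2).card) ≤
      X.card * Y.card + Y.card * Y.card := by
  classical
  have h1 : (((X ×ˢ Y) ×ˢ (X ×ˢ Y)).filter fun v => v.1.1 + v.1.2 = v.2.1 + v.2.2).card ≤
      (((X ×ˢ Y)).disjSum (Y ×ˢ Y)).card := by
    refine card_le_card_of_injOn
      (fun v => if v.1.2 = v.2.2 then Sum.inl v.1 else Sum.inr (v.1.2, v.2.2)) ?_ ?_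
    · intro v hv
      have hv' := (mem_filter.1 (mem_coe.1 hv)).1
      rw [mem_product, mem_product, mem_product] at hv'
      rw [mem_coe]
      simp only
      split_ifs
      · exact mem_disjSum.2 (Or.inl ⟨v.1, mem_product.2 hv'.1, rfl⟩)
      · exact mem_disjSum.2 (Or.inr ⟨(v.1.2, v.2.2), mem_product.2 ⟨hv'.1.2, hv'.2.2⟩, rfl⟩)
    · rintro ⟨⟨a, b⟩, c, d⟩ hv ⟨⟨a', b'⟩, c', d'⟩ hw h
      have g1 := mem_filter.1 (mem_coe.1 hv)
      have g2 := mem_filter.1 (mem_coe.1 hw)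
      simp only [mem_product] at g1 g2
      obtain ⟨⟨⟨ha, hb⟩, hc, hd⟩, e1⟩ := g1
      obtain ⟨⟨⟨ha', hb'⟩, hc', hd'⟩, e2⟩ := g2
      simp only at h
      by_cases h3 : b = d
      · by_cases h4 : b' = d'
        · rw [if_pos h3, if_pos h4] at h
          have h5 := Sum.inl.inj h
          simp only [Prod.mk.injEq] at h5 ⊢
          omega
        · rw [if_pos h3, if_neg h4] at h
          cases h
      · by_cases h4 : b' = d'
        · rw [if_neg h3, if_pos h4] at h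
          cases h
        · rw [if_neg h3, if_neg h4] at h
          have h5 := Sum.inr.inj h
          simp only [Prod.mk.injEq] at h5
          have h6 := hX a ha c' hc' c hc a' ha' (by omega)
          simp only [Prod.mk.injEq]
          rcases h6 with h6 | h6 <;> omega
  rw [card_disjSum, card_product, card_product] at h1
  exact h1

/-- unions -/
theorem quad_union {ι : Type} [DecidableEq ι] (I : Finset ι) (X : ι → Finset ℕ) {p : ℕ}
    (hS : ∀ i ∈ I, Sid (X i)) (hc : ∀ i ∈ I, (X i).card ≤ p) :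
    ((quad (I.biUnion X)).card : ℝ) ≤ 2 * (I.card : ℝ) ^ 4 * p ^ 2 := by
  classical
  set V := I.biUnion X with hV
  obtain ⟨M0, hM0⟩ : ∃ M0 : ℕ, ∀ v ∈ V, v < M0 :=
    ⟨V.sup id + 1, fun v hv => Nat.lt_succ_of_le (le_sup (f := id) hv)⟩
  have hM : ∀ q ∈ V ×ˢ V, q.1 + q.2 < 2 * M0 := by
    intro q hq
    have := hM0 _ (mem_product.1 hq).1
    have := hM0 _ (mem_product.1 hq).2
    omega
  have h1 : ((quad V).card : ℝ) = ∑ n ∈ range (2 * M0), (rr (V ×ˢ V) n : ℝ) ^ 2 :=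
    pairs_eq (V ×ˢ V) hM
  have hXV : ∀ i ∈ I, X i ⊆ V := fun i hi => subset_biUnion_of_mem X hi
  have h2 : ∀ n, (rr (V ×ˢ V) n : ℝ) ≤ ∑ ij ∈ I ×ˢ I, (rr (X ij.1 ×ˢ X ij.2) n : ℝ) := by
    intro n
    have : rr (V ×ˢ V) n ≤ ∑ ij ∈ I ×ˢ I, rr (X ij.1 ×ˢ X ij.2) n := by
      unfold rr
      refine le_trans (card_le_card ?_) card_biUnion_le
      intro q hq
      obtain ⟨h3, h4⟩ := mem_filter.1 hq
      obtain ⟨h5, h6⟩ := mem_product.1 h3
      obtain ⟨i, hi, h7⟩ := mem_biUnion.1 h5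
      obtain ⟨j, hj, h8⟩ := mem_biUnion.1 h6
      exact mem_biUnion.2 ⟨(i, j), mem_product.2 ⟨hi, hj⟩,
        mem_filter.2 ⟨mem_product.2 ⟨h7, h8⟩, h4⟩⟩
    exact_mod_cast this
  have h3 : ∀ ij ∈ I ×ˢ I, ∑ n ∈ range (2 * M0), (rr (X ij.1 ×ˢ X ij.2) n : ℝ) ^ 2 ≤
      2 * (p : ℝ) ^ 2 := by
    intro ij hij
    obtain ⟨hi, hj⟩ := mem_product.1 hij
    rw [← pairs_eq (X ij.1 ×ˢ X ij.2) (fun q hq => hM q (mem_product.2
      ⟨hXV _ hi (mem_product.1 hq).1, hXV _ hj (mem_product.1 hq).2⟩))]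
    have h4 := cross (Y := X ij.2) (hS _ hi)
    have h5 : (X ij.1).card * (X ij.2).card + (X ij.2).card * (X ij.2).card ≤ 2 * p ^ 2 := by
      have := Nat.mul_le_mul (hc _ hi) (hc _ hj)
      have := Nat.mul_le_mul (hc _ hj) (hc _ hj)
      nlinarith
    exact_mod_cast h4.trans h5
  rw [h1]
  calc ∑ n ∈ range (2 * M0), (rr (V ×ˢ V) n : ℝ) ^ 2
      ≤ ∑ n ∈ range (2 * M0), ((I ×ˢ I).card : ℝ) *
          ∑ ij ∈ I ×ˢ I, (rr (X ij.1 ×ˢ X ij.2) n : ℝ) ^ 2 := by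
        refine sum_le_sum fun n _ => ?_
        refine le_trans (pow_le_pow_left₀ (Nat.cast_nonneg _) (h2 n) 2) ?_
        exact sq_sum_le_card_mul_sum_sq
    _ = ((I ×ˢ I).card : ℝ) * ∑ ij ∈ I ×ˢ I, ∑ n ∈ range (2 * M0),
          (rr (X ij.1 ×ˢ X ij.2) n : ℝ) ^ 2 := by
        rw [← mul_sum, sum_comm]
    _ ≤ ((I ×ˢ I).card : ℝ) * ∑ _ij ∈ I ×ˢ I, 2 * (p : ℝ) ^ 2 :=
        mul_le_mul_of_nonneg_left (sum_le_sum h3) (Nat.cast_nonneg _)
    _ = 2 * (I.card : ℝ) ^ 4 * p ^ 2 := by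
        rw [sum_const, nsmul_eq_mul, card_product]
        push_cast
        ring

/-- residues -/
theorem sol_le_quad {m C : ℕ} (hm : 0 < m) {B : Finset ℕ} (hB : ∀ b ∈ B, b < C * m) :
    ((sol m B).card : ℝ) ≤ 2 * C * (quad B).card := by
  classical
  have hM : ∀ q ∈ B ×ˢ B, q.1 + q.2 < m * (2 * C) := by
    intro q hq
    have h1 := hB _ (mem_product.1 hq).1
    have h2 := hB _ (mem_product.1 hq).2
    have : m * (2 * C) = C * m + C * m := by ring
    omega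
  have h1 : ((quad B).card : ℝ) = ∑ n ∈ range (m * (2 * C)), (rr (B ×ˢ B) n : ℝ) ^ 2 :=
    pairs_eq (B ×ˢ B) hM
  have h2 : ((sol m B).card : ℝ) = ∑ c ∈ range m,
      (((B ×ˢ B).filter fun q => (q.1 + q.2) % m = c).card : ℝ) ^ 2 := by
    have h3 : (sol m B).card = ∑ c ∈ range m, ((sol m B).filter
        fun v => (v.1.1 + v.1.2) % m = c).card := by
      refine card_eq_sum_card_fiberwise ?_
      intro v _
      exact mem_coe.2 (mem_range.2 (Nat.mod_lt _ hm))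
    rw [h3]
    push_cast
    refine sum_congr rfl fun c _ => ?_
    have h4 : (sol m B).filter (fun v => (v.1.1 + v.1.2) % m = c) =
        ((B ×ˢ B).filter fun q => (q.1 + q.2) % m = c) ×ˢ
          ((B ×ˢ B).filter fun q => (q.1 + q.2) % m = c) := by
      ext v
      simp only [sol, mem_filter, mem_product]
      constructor
      · rintro ⟨⟨⟨h3, h4⟩, h5⟩, h6⟩
        exact ⟨⟨h3, h6⟩, h4, by omega⟩
      · rintro ⟨⟨h3, h6⟩, h4, h7⟩
        exact ⟨⟨⟨h3, h4⟩, by omega⟩, h6⟩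
    rw [h4, card_product]
    push_cast
    ring
  have h5 : ∀ c ∈ range m, (((B ×ˢ B).filter fun q => (q.1 + q.2) % m = c).card : ℝ) ^ 2 ≤
      2 * C * ∑ k ∈ range (2 * C), (rr (B ×ˢ B) (c + m * k) : ℝ) ^ 2 := by
    intro c hc
    have h6 : (((B ×ˢ B).filter fun q => (q.1 + q.2) % m = c).card : ℝ) ≤
        ∑ k ∈ range (2 * C), (rr (B ×ˢ B) (c + m * k) : ℝ) := by
      have : ((B ×ˢ B).filter fun q => (q.1 + q.2) % m = c).card ≤
          ∑ k ∈ range (2 * C), rr (B ×ˢ B) (c + m * k) := by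
        unfold rr
        refine le_trans (card_le_card ?_) card_biUnion_le
        intro q hq
        obtain ⟨h3, h4⟩ := mem_filter.1 hq
        refine mem_biUnion.2 ⟨(q.1 + q.2) / m, mem_range.2 ?_, mem_filter.2 ⟨h3, ?_⟩⟩
        · exact Nat.div_lt_of_lt_mul (hM q h3)
        · rw [← h4]
          exact (Nat.mod_add_div _ _).symm
      exact_mod_cast this
    refine le_trans (pow_le_pow_left₀ (Nat.cast_nonneg _) h6 2) ?_
    refine le_trans sq_sum_le_card_mul_sum_sq ?_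
    rw [card_range]
    push_cast
    exact le_rfl
  rw [h2, h1]
  refine (sum_le_sum h5).trans ?_
  rw [← mul_sum]
  refine mul_le_mul_of_nonneg_left (le_of_eq ?_) (by positivity)
  rw [← sum_product']
  refine sum_nbij' (fun v => v.1 + m * v.2) (fun n => (n % m, n / m)) ?_ ?_ ?_ ?_ ?_
  · intro v hv
    obtain ⟨h3, h4⟩ := mem_product.1 hv
    rw [mem_range] at h3 h4 ⊢
    have : m * (v.2 + 1) ≤ m * (2 * C) := Nat.mul_le_mul_left _ h4
    nlinarith
  · intro n hn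
    rw [mem_range] at hn
    exact mem_product.2 ⟨mem_range.2 (Nat.mod_lt _ hm), mem_range.2 (Nat.div_lt_of_lt_mul hn)⟩
  · intro v hv
    obtain ⟨h3, h4⟩ := mem_product.1 hv
    rw [mem_range] at h3 h4
    refine Prod.ext ?_ ?_
    · simp only [Nat.add_mul_mod_self_left, Nat.mod_eq_of_lt h3]
    · simp only
      rw [Nat.add_mul_div_left _ _ hm, Nat.div_eq_of_lt h3, zero_add]
  · intro n hn
    exact Nat.mod_add_div n m
  · intro v hv
    rfl

end Pool.Agent.Helper38.JB
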