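import Pool.Agent.Helper38.JB.LawP

/-!
Exponential sums over translates of a parabola, with weights of size at most one.
-/

set_option autoImplicit false

open Finset

namespace Pool.Agent.Helper38.JB

section

variable {p : ℕ} [Fact p.Prime]

local instance : NeZero p := ⟨(Fact.out : p.Prime).ne_zero⟩

theorem law2 {k : ZMod p} (hp2 : (2 : ZMod p) ≠ 0) (hk : k ≠ 0) (f : ZMod p → ℂ)
    (hf : ∀ y, ‖f y‖ ≤ 1) (g : ℕ → ℂ) (hg : ∀ x, ‖g x‖ = 1) :
    ∑ a : ZMod p, ∑ b : ZMod p,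
      ‖∑ x ∈ range p, g x * f (k * ((x : ZMod p) - a) ^ 2 + b)‖ ^ 2 ≤
      (p : ℝ) ^ 3 + p ^ 2 * ‖∑ x ∈ range p, g x‖ ^ 2 := by
  classical
  obtain ⟨W, hW⟩ : ∃ W : ℝ, W = ‖∑ c, f c‖ ^ 2 := ⟨_, rfl⟩
  have hp0 : (0 : ℝ) ≤ p := Nat.cast_nonneg _
  have hW0 : 0 ≤ W := by rw [hW]; positivity
  have hWp : W ≤ p ^ 2 := by
    rw [hW]
    refine pow_le_pow_left₀ (norm_nonneg _) ?_ 2
    refine (norm_sum_le _ _).trans ((sum_le_sum fun y _ => hf y).trans (le_of_eq ?_))
    rw [sum_const, card_univ, ZMod.card, nsmul_eq_mul, mul_one]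
  obtain ⟨Q, hQ⟩ : ∃ Q : ℝ, Q = ∑ c, ‖f c‖ ^ 2 := ⟨_, rfl⟩
  have hQp : Q ≤ p := by
    rw [hQ]
    refine (sum_le_sum (g := fun _ => (1 : ℝ)) fun y _ => ?_).trans (le_of_eq ?_)
    · exact pow_le_one₀ (norm_nonneg _) (hf y)
    · rw [sum_const, card_univ, ZMod.card, nsmul_eq_mul, mul_one]
  have key : ((∑ a : ZMod p, ∑ b : ZMod p,
      ‖∑ x ∈ range p, g x * f (k * ((x : ZMod p) - a) ^ 2 + b)‖ ^ 2 : ℝ) : ℂ) =
      ((W * ‖∑ x ∈ range p, g x‖ ^ 2 + (p * Q - W) * p : ℝ) : ℂ) := by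
    have e1 : ∀ a b : ZMod p,
        ((‖∑ x ∈ range p, g x * f (k * ((x : ZMod p) - a) ^ 2 + b)‖ ^ 2 : ℝ) : ℂ) =
        ∑ x ∈ range p, ∑ y ∈ range p, g x * (starRingEnd ℂ) (g y) *
          (f (k * ((x : ZMod p) - a) ^ 2 + b) *
            (starRingEnd ℂ) (f (k * ((y : ZMod p) - a) ^ 2 + b))) := by
      intro a b
      have h2 : ((‖∑ x ∈ range p, g x * f (k * ((x : ZMod p) - a) ^ 2 + b)‖ ^ 2 : ℝ) : ℂ) =
          (∑ x ∈ range p, g x * f (k * ((x : ZMod p) - a) ^ 2 + b)) *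
          (starRingEnd ℂ) (∑ x ∈ range p, g x * f (k * ((x : ZMod p) - a) ^ 2 + b)) := by
        rw [Complex.mul_conj, Complex.normSq_eq_norm_sq]
      rw [h2, map_sum, sum_mul_sum]
      refine sum_congr rfl fun x _ => sum_congr rfl fun y _ => ?_
      rw [map_mul]
      ring
    have e2 : ((∑ a : ZMod p, ∑ b : ZMod p,
        ‖∑ x ∈ range p, g x * f (k * ((x : ZMod p) - a) ^ 2 + b)‖ ^ 2 : ℝ) : ℂ) =
        ∑ x ∈ range p, ∑ y ∈ range p, g x * (starRingEnd ℂ) (g y) *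
          ∑ a : ZMod p, ∑ b : ZMod p, (f (k * ((x : ZMod p) - a) ^ 2 + b) *
            (starRingEnd ℂ) (f (k * ((y : ZMod p) - a) ^ 2 + b))) := by
      push_cast
      simp_rw [← Complex.ofReal_pow, e1]
      rw [sum_congr rfl fun a _ => sum_comm, sum_comm]
      refine sum_congr rfl fun x _ => ?_
      rw [sum_congr rfl fun a _ => sum_comm, sum_comm]
      refine sum_congr rfl fun y _ => ?_
      rw [mul_sum]
      refine sum_congr rfl fun a _ => ?_
      rw [mul_sum]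
    rw [e2]
    have e3 : ∀ x ∈ range p, ∀ y ∈ range p, ∑ a : ZMod p, ∑ b : ZMod p,
        (f (k * ((x : ZMod p) - a) ^ 2 + b) *
          (starRingEnd ℂ) (f (k * ((y : ZMod p) - a) ^ 2 + b))) =
        (W : ℂ) + if x = y then ((p * Q - W : ℝ) : ℂ) else 0 := by
      intro x hx y hy
      split_ifs with h
      · rw [h]
        have h3 : ∀ a : ZMod p, ∑ b : ZMod p, (f (k * ((y : ZMod p) - a) ^ 2 + b) *
            (starRingEnd ℂ) (f (k * ((y : ZMod p) - a) ^ 2 + b))) = (Q : ℂ) := by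
          intro a
          have e := Equiv.sum_comp (Equiv.addLeft (k * ((y : ZMod p) - a) ^ 2))
            (fun c => f c * (starRingEnd ℂ) (f c))
          simp only [Equiv.coe_addLeft] at e
          rw [e, hQ]
          push_cast
          refine sum_congr rfl fun c _ => ?_
          rw [Complex.mul_conj, Complex.normSq_eq_norm_sq]
          push_cast
          rfl
        simp_rw [h3]
        rw [sum_const, card_univ, ZMod.card]
        push_cast
        simp only [nsmul_eq_mul]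
        ring
      · rw [corr hp2 hk f (x := (x : ZMod p)) (y := (y : ZMod p)) (fun he =>
          h (cast_inj_lt (mem_range.1 hx) (mem_range.1 hy) he)), ← hW, add_zero]
    rw [sum_congr rfl fun x hx => sum_congr rfl fun y hy => by rw [e3 x hx y hy]]
    simp_rw [mul_add, sum_add_distrib]
    have e4 : ∑ x ∈ range p, ∑ y ∈ range p, g x * (starRingEnd ℂ) (g y) * (W : ℂ) =
        ((W * ‖∑ x ∈ range p, g x‖ ^ 2 : ℝ) : ℂ) := by
      have h2 : ((‖∑ x ∈ range p, g x‖ ^ 2 : ℝ) : ℂ) =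
          (∑ x ∈ range p, g x) * (starRingEnd ℂ) (∑ x ∈ range p, g x) := by
        rw [Complex.mul_conj, Complex.normSq_eq_norm_sq]
      rw [Complex.ofReal_mul, h2, map_sum, sum_mul_sum, mul_sum]
      refine sum_congr rfl fun x _ => ?_
      rw [mul_sum]
      refine sum_congr rfl fun y _ => ?_
      ring
    have e5 : ∑ x ∈ range p, ∑ y ∈ range p, g x * (starRingEnd ℂ) (g y) *
        (if x = y then ((p * Q - W : ℝ) : ℂ) else 0) = (((p * Q - W) * p : ℝ) : ℂ) := by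
      have h2 : ∀ x ∈ range p, ∑ y ∈ range p, g x * (starRingEnd ℂ) (g y) *
          (if x = y then ((p * Q - W : ℝ) : ℂ) else 0) = ((p * Q - W : ℝ) : ℂ) := by
        intro x hx
        simp only [mul_ite, mul_zero]
        rw [sum_ite_eq, if_pos hx, Complex.mul_conj, Complex.normSq_eq_norm_sq, hg]
        norm_num
      rw [sum_congr rfl h2, sum_const, card_range, nsmul_eq_mul]
      push_cast
      ring
    rw [e4, e5]
    push_cast
    ring
  have key' := Complex.ofReal_injective key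
  rw [key']
  have h1 : W * ‖∑ x ∈ range p, g x‖ ^ 2 ≤ p ^ 2 * ‖∑ x ∈ range p, g x‖ ^ 2 :=
    mul_le_mul_of_nonneg_right hWp (by positivity)
  have hQ0 : 0 ≤ Q := by rw [hQ]; exact sum_nonneg fun _ _ => by positivity
  have h2 : (p * Q - W) * p ≤ (p : ℝ) ^ 3 := by
    have h3 : (p : ℝ) * Q ≤ p * p := mul_le_mul_of_nonneg_left hQp hp0
    have h4 : p * Q - W ≤ (p : ℝ) * p := by linarith
    have h5 := mul_le_mul_of_nonneg_right h4 hp0
    linarith [h5, show (p : ℝ) * p * p = (p : ℝ) ^ 3 by ring]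
  linarith

end

end Pool.Agent.Helper38.JB
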