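import Pool.Agent.Helper38.JB.Lev

/-!
Exponential sums over translates of a parabola.
-/

set_option autoImplicit false

open Finset

namespace Pool.Agent.Helper38.JB

section

variable {p : ℕ} [Fact p.Prime]

local instance : NeZero p := ⟨(Fact.out : p.Prime).ne_zero⟩

theorem corr (hp2 : (2 : ZMod p) ≠ 0) {k : ZMod p} (hk : k ≠ 0) (f : ZMod p → ℂ) {x y : ZMod p}
    (hxy : x ≠ y) : ∑ a : ZMod p, ∑ b : ZMod p, f (k * (x - a) ^ 2 + b) *
      (starRingEnd ℂ) (f (k * (y - a) ^ 2 + b)) = ((‖∑ c, f c‖ ^ 2 : ℝ) : ℂ) := by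
  have h1 : ∀ a : ZMod p, ∑ b : ZMod p, f (k * (x - a) ^ 2 + b) *
      (starRingEnd ℂ) (f (k * (y - a) ^ 2 + b)) =
      ∑ b : ZMod p, f (k * (x - y) * (x + y - 2 * a) + b) * (starRingEnd ℂ) (f b) := by
    intro a
    rw [← Equiv.sum_comp (Equiv.subRight (k * (y - a) ^ 2))]
    refine sum_congr rfl fun b _ => ?_
    simp only [Equiv.subRight_apply]
    have e1 : k * (x - a) ^ 2 + (b - k * (y - a) ^ 2) = k * (x - y) * (x + y - 2 * a) + b := by
      ring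
    have e2 : k * (y - a) ^ 2 + (b - k * (y - a) ^ 2) = b := by ring
    rw [e1, e2]
  simp_rw [h1]
  have hbij : Function.Bijective (fun a : ZMod p => k * (x - y) * (x + y - 2 * a)) := by
    have hinj : Function.Injective (fun a : ZMod p => k * (x - y) * (x + y - 2 * a)) := by
      intro a b h
      have h2 : (k * (x - y) * 2) * (a - b) = 0 := by
        simp only at h
        linear_combination (-1) * h
      rcases mul_eq_zero.1 h2 with h3 | h3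
      · exact absurd h3 (mul_ne_zero (mul_ne_zero hk (sub_ne_zero.2 hxy)) hp2)
      · exact sub_eq_zero.1 h3
    exact Finite.injective_iff_bijective.1 hinj
  rw [hbij.sum_comp (fun c => ∑ b : ZMod p, f (c + b) * (starRingEnd ℂ) (f b)), sum_comm]
  have h2 : ∀ b : ZMod p, ∑ c : ZMod p, f (c + b) * (starRingEnd ℂ) (f b) =
      (∑ c, f c) * (starRingEnd ℂ) (f b) := by
    intro b
    have e := Equiv.sum_comp (Equiv.addRight b) f
    simp only [Equiv.coe_addRight] at e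
    rw [← sum_mul, e]
  simp_rw [h2]
  rw [← mul_sum, ← map_sum, Complex.mul_conj, Complex.normSq_eq_norm_sq]

theorem law {k : ZMod p} (hp2 : (2 : ZMod p) ≠ 0) (hk : k ≠ 0) (f : ZMod p → ℂ)
    (hf : ∀ y, ‖f y‖ = 1) (g : ℕ → ℂ) (hg : ∀ x, ‖g x‖ = 1) :
    ∑ a : ZMod p, ∑ b : ZMod p,
      ‖∑ x ∈ range p, g x * f (k * ((x : ZMod p) - a) ^ 2 + b)‖ ^ 2 ≤
      (p : ℝ) ^ 3 + p ^ 2 * ‖∑ x ∈ range p, g x‖ ^ 2 := by
  classical
  obtain ⟨W, hW⟩ : ∃ W : ℝ, W = ‖∑ c, f c‖ ^ 2 := ⟨_, rfl⟩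
  have hp0 : (0 : ℝ) ≤ p := Nat.cast_nonneg _
  have hW0 : 0 ≤ W := by rw [hW]; positivity
  have hWp : W ≤ p ^ 2 := by
    rw [hW]
    refine pow_le_pow_left₀ (norm_nonneg _) ?_ 2
    refine (norm_sum_le _ _).trans (le_of_eq ?_)
    simp_rw [hf]
    rw [sum_const, card_univ, ZMod.card, nsmul_eq_mul, mul_one]
  have key : ((∑ a : ZMod p, ∑ b : ZMod p,
      ‖∑ x ∈ range p, g x * f (k * ((x : ZMod p) - a) ^ 2 + b)‖ ^ 2 : ℝ) : ℂ) =
      ((W * ‖∑ x ∈ range p, g x‖ ^ 2 + (p ^ 2 - W) * p : ℝ) : ℂ) := by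
    have e1 : ∀ a b : ZMod p,
        ((‖∑ x ∈ range p, g x * f (k * ((x : ZMod p) - a) ^ 2 + b)‖ ^ 2 : ℝ) : ℂ) =
        ∑ x ∈ range p, ∑ y ∈ range p, g x * (starRingEnd ℂ) (g y) *
          (f (k * ((x : ZMod p) - a) ^ 2 + b) *
            (starRingEnd ℂ) (f (k * ((y : ZMod p) - a) ^ 2 + b))) := by
      intro a b
      have h2 : ((‖∑ x ∈ range p, g x * f (k * ((x : ZMod p) - a) ^ 2 + b)‖ ^ 2 : ℝ) : ℂ) =
          (∑ x ∈ range p, g x * f (k * ((x : ZMod p) - a) ^ 2 + b)) *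
          (starRingEnd ℂ) (∑ x ∈ range p, g x * f (k * ((x : ZMod p) - a) ^ 2 + b)) := by
        rw [Complex.mul_conj, Complex.normSq_eq_norm_sq]
      rw [h2, map_sum, sum_mul_sum]
      refine sum_congr rfl fun x _ => sum_congr rfl fun y _ => ?_
      rw [map_mul]
      ring
    have e2 : ((∑ a : ZMod p, ∑ b : ZMod p,
        ‖∑ x ∈ range p, g x * f (k * ((x : ZMod p) - a) ^ 2 + b)‖ ^ 2 : ℝ) : ℂ) =
        ∑ x ∈ range p, ∑ y ∈ range p, g x * (starRingEnd ℂ) (g y) *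
          ∑ a : ZMod p, ∑ b : ZMod p, (f (k * ((x : ZMod p) - a) ^ 2 + b) *
            (starRingEnd ℂ) (f (k * ((y : ZMod p) - a) ^ 2 + b))) := by
      push_cast
      simp_rw [← Complex.ofReal_pow, e1]
      rw [sum_congr rfl fun a _ => sum_comm, sum_comm]
      refine sum_congr rfl fun x _ => ?_
      rw [sum_congr rfl fun a _ => sum_comm, sum_comm]
      refine sum_congr rfl fun y _ => ?_
      rw [mul_sum]
      refine sum_congr rfl fun a _ => ?_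
      rw [mul_sum]
    rw [e2]
    have e3 : ∀ x ∈ range p, ∀ y ∈ range p, ∑ a : ZMod p, ∑ b : ZMod p,
        (f (k * ((x : ZMod p) - a) ^ 2 + b) *
          (starRingEnd ℂ) (f (k * ((y : ZMod p) - a) ^ 2 + b))) =
        (W : ℂ) + if x = y then ((p ^ 2 - W : ℝ) : ℂ) else 0 := by
      intro x hx y hy
      split_ifs with h
      · rw [h]
        have : ∀ z : ℂ, ‖z‖ = 1 → z * (starRingEnd ℂ) z = 1 := by
          intro z hz
          rw [Complex.mul_conj, Complex.normSq_eq_norm_sq, hz]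
          norm_num
        simp_rw [this _ (hf _)]
        rw [sum_const, sum_const, card_univ, ZMod.card]
        push_cast
        simp only [nsmul_eq_mul]
        ring
      · rw [corr hp2 hk f (x := (x : ZMod p)) (y := (y : ZMod p)) (fun he =>
          h (cast_inj_lt (mem_range.1 hx) (mem_range.1 hy) he)), ← hW, add_zero]
    rw [sum_congr rfl fun x hx => sum_congr rfl fun y hy => by rw [e3 x hx y hy]]
    simp_rw [mul_add, sum_add_distrib]
    have e4 : ∑ x ∈ range p, ∑ y ∈ range p, g x * (starRingEnd ℂ) (g y) * (W : ℂ) =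
        ((W * ‖∑ x ∈ range p, g x‖ ^ 2 : ℝ) : ℂ) := by
      have h2 : ((‖∑ x ∈ range p, g x‖ ^ 2 : ℝ) : ℂ) =
          (∑ x ∈ range p, g x) * (starRingEnd ℂ) (∑ x ∈ range p, g x) := by
        rw [Complex.mul_conj, Complex.normSq_eq_norm_sq]
      rw [Complex.ofReal_mul, h2, map_sum, sum_mul_sum, mul_sum]
      refine sum_congr rfl fun x _ => ?_
      rw [mul_sum]
      refine sum_congr rfl fun y _ => ?_
      ring
    have e5 : ∑ x ∈ range p, ∑ y ∈ range p, g x * (starRingEnd ℂ) (g y) *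
        (if x = y then ((p ^ 2 - W : ℝ) : ℂ) else 0) = (((p ^ 2 - W) * p : ℝ) : ℂ) := by
      have h2 : ∀ x ∈ range p, ∑ y ∈ range p, g x * (starRingEnd ℂ) (g y) *
          (if x = y then ((p ^ 2 - W : ℝ) : ℂ) else 0) = ((p ^ 2 - W : ℝ) : ℂ) := by
        intro x hx
        simp only [mul_ite, mul_zero]
        rw [sum_ite_eq, if_pos hx, Complex.mul_conj, Complex.normSq_eq_norm_sq, hg]
        norm_num
      rw [sum_congr rfl h2, sum_const, card_range, nsmul_eq_mul]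
      push_cast
      ring
    rw [e4, e5]
    push_cast
    ring
  have key' := Complex.ofReal_injective key
  rw [key']
  have h1 : W * ‖∑ x ∈ range p, g x‖ ^ 2 ≤ p ^ 2 * ‖∑ x ∈ range p, g x‖ ^ 2 :=
    mul_le_mul_of_nonneg_right hWp (by positivity)
  have h2 : (p ^ 2 - W) * p ≤ (p : ℝ) ^ 3 := by nlinarith
  linarith

end

theorem exShift : ExShift := by
  intro p _ hp2 κ hκ S hS
  classical
  have hNZ : NeZero p := ⟨(Fact.out : p.Prime).ne_zero⟩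
  have hp0 : 0 < p := (Fact.out : p.Prime).pos
  by_contra hcon
  push Not at hcon
  obtain ⟨B, hB⟩ : ∃ B : ℝ, B = 3 * ∑ z ∈ S, ((p : ℝ) + 4 / ‖1 - (z : ℂ)‖ ^ 2) := ⟨_, rfl⟩
  have h1 : ∀ a b : ZMod p, B < ∑ z ∈ S, ∑ i : Fin 3, ‖∑ v ∈ par (κ i) a b, (z : ℂ) ^ v‖ ^ 2 := by
    intro a b
    obtain ⟨z, hz, i, h⟩ := hcon a b
    rw [← hB] at h
    refine lt_of_lt_of_le h ?_
    have h2 : ‖∑ v ∈ par (κ i) a b, (z : ℂ) ^ v‖ ^ 2 ≤
        ∑ i : Fin 3, ‖∑ v ∈ par (κ i) a b, (z : ℂ) ^ v‖ ^ 2 :=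
      single_le_sum (f := fun i => ‖∑ v ∈ par (κ i) a b, (z : ℂ) ^ v‖ ^ 2)
        (fun _ _ => by positivity) (mem_univ i)
    refine h2.trans ?_
    exact single_le_sum (f := fun z : Circle => ∑ i : Fin 3,
      ‖∑ v ∈ par (κ i) a b, (z : ℂ) ^ v‖ ^ 2)
      (fun _ _ => sum_nonneg fun _ _ => by positivity) hz
  have h2 : (p : ℝ) ^ 2 * B < ∑ a : ZMod p, ∑ b : ZMod p, ∑ z ∈ S, ∑ i : Fin 3,
      ‖∑ v ∈ par (κ i) a b, (z : ℂ) ^ v‖ ^ 2 := by
    have : (p : ℝ) ^ 2 * B = ∑ _a : ZMod p, ∑ _b : ZMod p, B := by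
      rw [sum_const, sum_const, card_univ, ZMod.card]
      simp only [nsmul_eq_mul]
      ring
    rw [this]
    refine sum_lt_sum_of_nonempty univ_nonempty fun a _ => ?_
    exact sum_lt_sum_of_nonempty univ_nonempty fun b _ => h1 a b
  have h3 : ∑ a : ZMod p, ∑ b : ZMod p, ∑ z ∈ S, ∑ i : Fin 3,
      ‖∑ v ∈ par (κ i) a b, (z : ℂ) ^ v‖ ^ 2 = ∑ z ∈ S, ∑ i : Fin 3, ∑ a : ZMod p, ∑ b : ZMod p,
      ‖∑ v ∈ par (κ i) a b, (z : ℂ) ^ v‖ ^ 2 := by
    rw [sum_congr rfl fun a _ => sum_comm, sum_comm]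
    refine sum_congr rfl fun z _ => ?_
    rw [sum_congr rfl fun a _ => sum_comm, sum_comm]
  have h4 : ∀ z ∈ S, ∀ i : Fin 3, ∑ a : ZMod p, ∑ b : ZMod p,
      ‖∑ v ∈ par (κ i) a b, (z : ℂ) ^ v‖ ^ 2 ≤ p ^ 2 * (p + 4 / ‖1 - (z : ℂ)‖ ^ 2) := by
    intro z hz i
    have h5 := law hp2 (hκ i) (fun y : ZMod p => ((z : ℂ) ^ (2 * p)) ^ y.val)
      (fun y => by rw [norm_pow, norm_pow, Circle.norm_coe, one_pow, one_pow])
      (fun x => (z : ℂ) ^ x) (fun x => by rw [norm_pow, Circle.norm_coe, one_pow])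
    have h6 : ∀ a b : ZMod p, ∑ v ∈ par (κ i) a b, (z : ℂ) ^ v = ∑ x ∈ range p,
        (z : ℂ) ^ x * ((z : ℂ) ^ (2 * p)) ^ (κ i * ((x : ZMod p) - a) ^ 2 + b).val := by
      intro a b
      unfold par
      rw [sum_image (fun x hx y hy h => el_inj (κ i) a b (mem_range.1 (mem_coe.1 hx))
        (mem_range.1 (mem_coe.1 hy)) h)]
      refine sum_congr rfl fun x _ => ?_
      unfold el yc
      rw [pow_add, pow_mul]
    simp_rw [h6]
    refine h5.trans ?_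
    have hz1 : (z : ℂ) ≠ 1 := by
      intro h
      exact hS z hz (by ext; rw [h, Circle.coe_one])
    have hz2 : 0 < ‖1 - (z : ℂ)‖ := norm_pos_iff.2 (sub_ne_zero.2 (Ne.symm hz1))
    have h7 : ‖∑ x ∈ range p, (z : ℂ) ^ x‖ ≤ 2 / ‖1 - (z : ℂ)‖ := by
      rw [le_div_iff₀ hz2, ← norm_mul, mul_comm, mul_neg_geom_sum]
      refine (norm_sub_le _ _).trans ?_
      rw [norm_one, norm_pow, Circle.norm_coe, one_pow]
      norm_num
    have h8 : ‖∑ x ∈ range p, (z : ℂ) ^ x‖ ^ 2 ≤ 4 / ‖1 - (z : ℂ)‖ ^ 2 := by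
      have := pow_le_pow_left₀ (norm_nonneg _) h7 2
      rw [div_pow] at this
      norm_num at this ⊢
      exact this
    have h9 := mul_le_mul_of_nonneg_left h8 (by positivity : (0 : ℝ) ≤ p ^ 2)
    have : (p : ℝ) ^ 2 * (p + 4 / ‖1 - (z : ℂ)‖ ^ 2) = (p : ℝ) ^ 3 +
        p ^ 2 * (4 / ‖1 - (z : ℂ)‖ ^ 2) := by ring
    rw [this]
    linarith
  rw [h3] at h2
  have h5 : ∑ z ∈ S, ∑ i : Fin 3, ∑ a : ZMod p, ∑ b : ZMod p,
      ‖∑ v ∈ par (κ i) a b, (z : ℂ) ^ v‖ ^ 2 ≤ (p : ℝ) ^ 2 * B := by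
    calc ∑ z ∈ S, ∑ i : Fin 3, ∑ a : ZMod p, ∑ b : ZMod p,
          ‖∑ v ∈ par (κ i) a b, (z : ℂ) ^ v‖ ^ 2
        ≤ ∑ z ∈ S, ∑ _i : Fin 3, (p : ℝ) ^ 2 * (p + 4 / ‖1 - (z : ℂ)‖ ^ 2) :=
          sum_le_sum fun z hz => sum_le_sum fun i _ => h4 z hz i
      _ = (p : ℝ) ^ 2 * B := by
          rw [hB, mul_sum, mul_sum]
          refine sum_congr rfl fun z _ => ?_
          rw [sum_const, card_univ, Fintype.card_fin]
          simp only [nsmul_eq_mul]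
          push_cast
          ring
  linarith

end Pool.Agent.Helper38.JB
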