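import Pool.Agent.Helper38.JB.Fam

/-!
The just basis at one scale.
-/

set_option autoImplicit false

open Finset

namespace Pool.Agent.Helper38.JB

open Pool.Agent.Helper38.SP (quad)

/-- good translates of the parabolas -/
def ExShift : Prop := ∀ (p : ℕ) [Fact p.Prime], (2 : ZMod p) ≠ 0 → ∀ κ : Fin 3 → ZMod p,
  (∀ i, κ i ≠ 0) → ∀ S : Finset Circle, (∀ z ∈ S, z ≠ 1) →
  ∃ a b : ZMod p, ∀ z ∈ S, ∀ i, ‖∑ v ∈ par (κ i) a b, (z : ℂ) ^ v‖ ^ 2 ≤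
    3 * ∑ z ∈ S, ((p : ℝ) + 4 / ‖1 - (z : ℂ)‖ ^ 2)

/-- the indices of the pieces -/
def II : Finset (Fin 3 × ℕ × ℕ) := univ ×ˢ range 54 ×ˢ range 3

theorem card_II : II.card = 486 := by
  unfold II
  rw [card_product, card_product, card_range, card_range, card_univ, Fintype.card_fin]

theorem exists_u {p : ℕ} [Fact p.Prime] (hp : 5 ≤ p) :
    (2 : ZMod p) ≠ 0 ∧ ∃ u : ZMod p, ¬ IsSquare u ∧ 1 + u ≠ 0 := by
  have h2 : (2 : ZMod p) ≠ 0 := by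
    intro h
    have h3 : ((2 : ℕ) : ZMod p) = 0 := by exact_mod_cast h
    have := Nat.le_of_dvd (by norm_num) ((ZMod.natCast_eq_zero_iff 2 p).1 h3)
    omega
  have h3 : (3 : ZMod p) ≠ 0 := by
    intro h
    have h3 : ((3 : ℕ) : ZMod p) = 0 := by exact_mod_cast h
    have := Nat.le_of_dvd (by norm_num) ((ZMod.natCast_eq_zero_iff 3 p).1 h3)
    omega
  have hc : ringChar (ZMod p) ≠ 2 := by
    rw [ZMod.ringChar_zmod_n]
    omega
  refine ⟨h2, ?_⟩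
  obtain ⟨u, hu⟩ := FiniteField.exists_nonsquare (F := ZMod p) hc
  by_cases h : 1 + u = 0
  · refine ⟨4 * u, ?_, ?_⟩
    · rintro ⟨d, hd⟩
      refine hu ⟨d / 2, ?_⟩
      field_simp
      linear_combination hd
    · intro h4
      apply h3
      linear_combination 4 * h - h4
  · exact ⟨u, hu, h⟩

theorem sid_image {X : Finset ℕ} (hX : Sid X) (t : ℕ) : Sid (X.image (fun v => v + t)) := by
  intro a ha b hb c hc d hd h
  obtain ⟨a', ha', rfl⟩ := mem_image.1 ha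
  obtain ⟨b', hb', rfl⟩ := mem_image.1 hb
  obtain ⟨c', hc', rfl⟩ := mem_image.1 hc
  obtain ⟨d', hd', rfl⟩ := mem_image.1 hd
  rcases hX a' ha' b' hb' c' hc' d' hd' (by omega) with h1 | h1
  · left; rw [h1]
  · right; rw [h1]

/-- one scale -/
def Lev (i : ℕ) (S : Finset Circle) (X : Fin 3 × ℕ × ℕ → Finset ℕ) : Prop :=
  (∀ κ ∈ II, ∀ v ∈ X κ, 2 * 4 ^ i ≤ v ∧ v < 444 * 4 ^ i) ∧
  ((quad (II.biUnion X)).card : ℝ) ≤ 8 * 486 ^ 4 * 4 ^ i ∧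
  (∀ n, 28 * 4 ^ i ≤ n → n < 112 * 4 ^ i → ∃ v ∈ II.biUnion X, ∃ w ∈ II.biUnion X, v + w = n) ∧
  (∀ κ ∈ II, (X κ).card ≤ 2 * 2 ^ i) ∧
  ∀ κ ∈ II, ∀ z ∈ S, ‖∑ v ∈ X κ, (z : ℂ) ^ v‖ ^ 2 ≤
    3 * ∑ z ∈ S, (2 * 2 ^ i + 4 / ‖1 - (z : ℂ)‖ ^ 2)

set_option maxRecDepth 20000 in
theorem lev_exists (hE : ExShift) {i : ℕ} (hi : 3 ≤ i) (S : Finset Circle)
    (hS : ∀ z ∈ S, z ≠ 1) : ∃ X, Lev i S X := by
  classical
  obtain ⟨p, hpp, hp1, hp2⟩ := Nat.exists_prime_lt_and_le_two_mul (2 ^ i) (by positivity)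
  have : Fact p.Prime := ⟨hpp⟩
  have h8 : 8 ≤ 2 ^ i := by
    calc 8 = 2 ^ 3 := by norm_num
      _ ≤ 2 ^ i := Nat.pow_le_pow_right (by norm_num) hi
  obtain ⟨h2, u, hu, hu1⟩ := exists_u (p := p) (by omega)
  have hu0 : u ≠ 0 := by
    rintro rfl
    exact hu ⟨0, by ring⟩
  obtain ⟨a, b, hab⟩ := hE p h2 (kap u) (kap_ne h2 hu0 hu1) S hS
  have h4 : (4 : ℕ) ^ i = (2 ^ i) ^ 2 := by
    rw [← pow_mul, mul_comm, pow_mul]
    norm_num
  have hpl : 4 ^ i ≤ p ^ 2 := by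
    rw [h4]
    exact Nat.pow_le_pow_left hp1.le 2
  have hpu : p ^ 2 ≤ 4 * 4 ^ i := by
    rw [h4]
    calc p ^ 2 ≤ (2 * 2 ^ i) ^ 2 := Nat.pow_le_pow_left hp2 2
      _ = 4 * (2 ^ i) ^ 2 := by ring
  have hpp2 : 2 * p ≤ p ^ 2 := by nlinarith
  obtain ⟨X, hX⟩ : ∃ X : Fin 3 × ℕ × ℕ → Finset ℕ, ∀ κ, X κ = (par (kap u κ.1) a b).image
    (fun v => v + (2 * p ^ 2 * (κ.2.1 + 1) + p * κ.2.2)) := ⟨_, fun _ => rfl⟩
  have hmem : ∀ κ : Fin 3 × ℕ × ℕ, κ.2.1 < 54 → κ.2.2 < 3 → ∀ v ∈ par (kap u κ.1) a b, ∀ w,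
      w = v + (2 * p ^ 2 * (κ.2.1 + 1) + p * κ.2.2) → w ∈ II.biUnion X := by
    intro κ hh he v hv w hw
    rw [mem_biUnion]
    refine ⟨κ, ?_, ?_⟩
    · unfold II
      rw [mem_product, mem_product, mem_range, mem_range]
      exact ⟨mem_univ _, hh, he⟩
    · rw [hX, hw]
      exact mem_image.2 ⟨v, hv, rfl⟩
  refine ⟨X, ?_, ?_, ?_, ?_, ?_⟩
  · intro κ hκ v hv
    unfold II at hκ
    simp only [mem_product, mem_univ, mem_range, true_and] at hκ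
    rw [hX] at hv
    obtain ⟨v', hv', rfl⟩ := mem_image.1 hv
    obtain ⟨x, hx, rfl⟩ := mem_image.1 hv'
    have h3 := el_lt (kap u κ.1) a b (mem_range.1 hx)
    have h5 : 2 * p ^ 2 * (κ.2.1 + 1) ≤ 2 * p ^ 2 * 54 := Nat.mul_le_mul_left _ (by omega)
    have h6 : 2 * p ^ 2 * 1 ≤ 2 * p ^ 2 * (κ.2.1 + 1) := Nat.mul_le_mul_left _ (by omega)
    have h7 : p * κ.2.2 ≤ p * 2 := Nat.mul_le_mul_left _ (by omega)
    constructor <;> omega
  · refine (quad_union II _ (p := p) ?_ ?_).trans ?_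
    · intro κ _
      rw [hX]
      exact sid_image (sid_par h2 (kap_ne h2 hu0 hu1 κ.1) a b) _
    · intro κ _
      rw [hX]
      exact card_image_le.trans (card_par _ _ _).le
    · rw [card_II]
      have : ((p : ℝ)) ^ 2 ≤ 4 * 4 ^ i := by exact_mod_cast hpu
      push_cast
      nlinarith
  · intro n h5 h6
    have h7 : 4 * p ^ 2 ≤ n - p := by omega
    obtain ⟨k, l, v, hv, w, hw, e, β, he, e1, e2, e3⟩ := cover h2 hu hu1 a b h7
    have hβ1 : 2 ≤ β := by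
      by_contra hlt
      have : 2 * p ^ 2 * (β + 2) ≤ 2 * p ^ 2 * 3 := Nat.mul_le_mul_left _ (by omega)
      omega
    have hβ2 : β ≤ 55 := by
      by_contra hlt
      have : 2 * p ^ 2 * 56 ≤ 2 * p ^ 2 * β := Nat.mul_le_mul_left _ (by omega)
      omega
    obtain ⟨γ, rfl⟩ : ∃ γ, β = γ + 2 := ⟨β - 2, by omega⟩
    have z1 : (0 : ℕ) < 54 := by norm_num
    have z2 : (0 : ℕ) < 3 := by norm_num
    have m1 : v + 2 * p ^ 2 ∈ II.biUnion X :=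
      hmem (k, 0, 0) z1 z2 v hv _ (by simp only; ring)
    have m2 : w + (2 * p ^ 2 * (γ + 1) + p * e) ∈ II.biUnion X :=
      hmem (l, γ, e) (by simp only; omega) (by simp only; omega) w hw _ rfl
    refine ⟨_, m1, _, m2, ?_⟩
    have e5 : 2 * p ^ 2 * (γ + 2) = 2 * p ^ 2 + 2 * p ^ 2 * (γ + 1) := by ring
    have e6 : e * p = p * e := mul_comm _ _
    rw [e5, e6] at e1
    omega
  · intro κ _
    rw [hX]
    exact card_image_le.trans ((card_par _ _ _).le.trans hp2)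
  · intro κ _ z hz
    have h3 : ∑ v ∈ (par (kap u κ.1) a b).image
        (fun v => v + (2 * p ^ 2 * (κ.2.1 + 1) + p * κ.2.2)), (z : ℂ) ^ v =
        (z : ℂ) ^ (2 * p ^ 2 * (κ.2.1 + 1) + p * κ.2.2) * ∑ v ∈ par (kap u κ.1) a b, (z : ℂ) ^ v := by
      rw [sum_image (fun x _ y _ h => by simpa using h), mul_sum]
      refine sum_congr rfl fun v _ => ?_
      rw [pow_add]
      ring
    rw [hX, h3, norm_mul, norm_pow, Circle.norm_coe, one_pow, one_mul]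
    refine (hab z hz κ.1).trans ?_
    refine mul_le_mul_of_nonneg_left (sum_le_sum fun z _ => ?_) (by norm_num)
    have : (p : ℝ) ≤ 2 * 2 ^ i := by exact_mod_cast hp2
    linarith

end Pool.Agent.Helper38.JB
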