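import Pool.Agent.Helper38.JB.Test

/-!
The just basis at one scale, with all cuts.
-/

set_option autoImplicit false

open Finset

namespace Pool.Agent.Helper38.JB

open Pool.Agent.Helper38.SP (quad)

section

variable {p : ℕ} [Fact p.Prime]

theorem sq2 (a w : ZMod p) : ((range p).filter (fun x : ℕ => ((x : ZMod p) - a) ^ 2 = w)).card ≤ 2 := by
  classical
  by_contra hlt
  push Not at hlt
  obtain ⟨x, y, z, hx, hy, hz, hxy, hxz, hyz⟩ := two_lt_card_iff.1 hlt
  rw [mem_filter, mem_range] at hx hy hz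
  have h1 : ((y : ZMod p) - x) * ((y : ZMod p) + x - 2 * a) = 0 := by
    linear_combination hy.2 - hx.2
  have h2 : ((z : ZMod p) - x) * ((z : ZMod p) + x - 2 * a) = 0 := by
    linear_combination hz.2 - hx.2
  rcases mul_eq_zero.1 h1 with h | h
  · exact hxy (cast_inj_lt hy.1 hx.1 (sub_eq_zero.1 h)).symm
  · rcases mul_eq_zero.1 h2 with h' | h'
    · exact hxz (cast_inj_lt hz.1 hx.1 (sub_eq_zero.1 h')).symm
    · refine hyz (cast_inj_lt hy.1 hz.1 ?_)
      linear_combination h - h'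

theorem fiber2 {k : ZMod p} (hk : k ≠ 0) (a b : ZMod p) (y : ℕ) :
    ((range p).filter (fun x => yc k a b x = y)).card ≤ 2 := by
  classical
  refine le_trans (card_le_card ?_) (sq2 a (((y : ZMod p) - b) / k))
  intro x hx
  rw [mem_filter] at hx ⊢
  refine ⟨hx.1, ?_⟩
  have h1 := congrArg (Nat.cast (R := ZMod p)) hx.2
  unfold yc at h1
  rw [ZMod.natCast_zmod_val] at h1
  rw [eq_div_iff hk]
  linear_combination h1

theorem fiberI {k : ZMod p} (hk : k ≠ 0) (a b : ZMod p) (lo hi : ℕ) :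
    ((range p).filter (fun x => lo ≤ yc k a b x ∧ yc k a b x < hi)).card ≤ 2 * (hi - lo) := by
  classical
  calc _ ≤ ((Ico lo hi).biUnion fun y => (range p).filter (fun x => yc k a b x = y)).card := by
        refine card_le_card ?_
        intro x hx
        obtain ⟨h1, h2⟩ := mem_filter.1 hx
        exact mem_biUnion.2 ⟨yc k a b x, mem_Ico.2 h2, mem_filter.2 ⟨h1, rfl⟩⟩
    _ ≤ ∑ y ∈ Ico lo hi, ((range p).filter (fun x => yc k a b x = y)).card := card_biUnion_le
    _ ≤ ∑ _y ∈ Ico lo hi, 2 := sum_le_sum fun y _ => fiber2 hk a b y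
    _ = 2 * (hi - lo) := by rw [sum_const, Nat.card_Ico, smul_eq_mul, mul_comm]

/-- short intervals -/
theorem short {k : ZMod p} (hk : k ≠ 0) (a b : ZMod p) (σ u v : ℕ) (huv : u ≤ v) :
    ((((par k a b).image (fun w => w + σ)).filter (fun w => u ≤ w ∧ w < v)).card : ℝ) ≤
      ((v : ℝ) - u) / p + 5 := by
  classical
  have hp : 0 < p := (Fact.out : p.Prime).pos
  have hp0 : (0 : ℝ) < p := by exact_mod_cast hp
  have huv' : (u : ℝ) ≤ v := by exact_mod_cast huv
  obtain ⟨lo, hlo⟩ : ∃ lo, lo = (u - σ - p) / (2 * p) := ⟨_, rfl⟩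
  obtain ⟨hi, hhi⟩ : ∃ hi, hi = (v - σ) / (2 * p) + 1 := ⟨_, rfl⟩
  have h1 : (((par k a b).image (fun w => w + σ)).filter (fun w => u ≤ w ∧ w < v)).card ≤
      2 * (hi - lo) := by
    refine le_trans ?_ (fiberI hk a b lo hi)
    refine card_le_card_of_surjOn (fun x => el k a b x + σ) ?_
    intro w hw
    obtain ⟨h2, h3, h4⟩ := mem_filter.1 (mem_coe.1 hw)
    obtain ⟨w', hw', rfl⟩ := mem_image.1 h2
    obtain ⟨x, hx, rfl⟩ := mem_image.1 hw'
    refine ⟨x, mem_coe.2 (mem_filter.2 ⟨hx, ?_, ?_⟩), rfl⟩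
    · rw [hlo]
      rw [mem_range] at hx
      refine Nat.div_le_of_le_mul ?_
      unfold el at h3
      omega
    · rw [hhi]
      have : yc k a b x ≤ (v - σ) / (2 * p) := by
        rw [Nat.le_div_iff_mul_le (by omega)]
        unfold el at h4
        have : yc k a b x * (2 * p) = 2 * p * yc k a b x := mul_comm _ _
        omega
      omega
  by_cases hvσ : v ≤ σ
  · have h2 : ((par k a b).image (fun w => w + σ)).filter (fun w => u ≤ w ∧ w < v) = ∅ := by
      rw [filter_eq_empty_iff]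
      intro w hw h
      obtain ⟨w', hw', rfl⟩ := mem_image.1 hw
      omega
    rw [h2, card_empty, Nat.cast_zero]
    have : 0 ≤ ((v : ℝ) - u) / p := div_nonneg (by linarith) hp0.le
    linarith
  · push Not at hvσ
    have h2 : (hi : ℝ) ≤ ((v : ℝ) - σ) / (2 * p) + 1 := by
      rw [hhi]
      push_cast
      have h3 : (((v - σ) / (2 * p) : ℕ) : ℝ) ≤ ((v - σ : ℕ) : ℝ) / ((2 * p : ℕ) : ℝ) :=
        Nat.cast_div_le
      rw [Nat.cast_sub hvσ.le] at h3
      push_cast at h3
      linarith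
    have h3 : ((u : ℝ) - σ - p) / (2 * p) - 1 ≤ lo := by
      have h4 : ((u - σ - p : ℕ) : ℝ) < (2 * p : ℕ) * ((lo : ℝ) + 1) := by
        have h5 := Nat.lt_mul_div_succ (u - σ - p) (by omega : 0 < 2 * p)
        rw [← hlo] at h5
        exact_mod_cast h5
      have h5 : (u : ℝ) - σ - p ≤ ((u - σ - p : ℕ) : ℝ) := by
        have : u ≤ (u - σ - p) + σ + p := by omega
        have h6 : (u : ℝ) ≤ ((u - σ - p : ℕ) : ℝ) + σ + p := by exact_mod_cast this
        linarith
      push_cast at h4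
      rw [sub_le_iff_le_add, div_le_iff₀ (by positivity)]
      linarith
    have h4 : ((hi - lo : ℕ) : ℝ) ≤ max (((v : ℝ) - u) / (2 * p) + 5 / 2) 0 := by
      rcases le_total lo hi with h | h
      · rw [Nat.cast_sub h]
        refine le_max_of_le_left ?_
        have e : ((v : ℝ) - σ) / (2 * p) + 1 - (((u : ℝ) - σ - p) / (2 * p) - 1) =
            ((v : ℝ) - u) / (2 * p) + 5 / 2 := by
          field_simp
          ring
        linarith
      · rw [Nat.sub_eq_zero_of_le h, Nat.cast_zero]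
        exact le_max_right _ _
    have h5 : 0 ≤ ((v : ℝ) - u) / (2 * p) := div_nonneg (by linarith) (by positivity)
    rw [max_eq_left (by linarith)] at h4
    have h6 : ((((par k a b).image (fun w => w + σ)).filter (fun w => u ≤ w ∧ w < v)).card : ℝ) ≤
        2 * ((hi - lo : ℕ) : ℝ) := by exact_mod_cast h1
    have h7 : 2 * (((v : ℝ) - u) / (2 * p) + 5 / 2) = ((v : ℝ) - u) / p + 5 := by
      field_simp
    linarith

theorem norm_sum_le_card (z : Circle) (f : ℕ → ℕ) (Q : Finset ℕ) :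
    ‖∑ x ∈ Q, (z : ℂ) ^ f x‖ ≤ Q.card := by
  refine (norm_sum_le _ _).trans (le_of_eq ?_)
  simp_rw [norm_pow, Circle.norm_coe, one_pow]
  rw [sum_const, nsmul_eq_mul, mul_one]

/-- all cuts -/
theorem cuts {k : ZMod p} (hk : k ≠ 0) (a b : ZMod p) (σ : ℕ) {L : ℕ} (hL : 0 < L) (z : Circle)
    {B : ℝ} (hB : ∀ c ∈ (range (L + 1)).image (fun m => m * (p / L + 1)),
      ‖∑ x ∈ (range p).filter (fun x => yc k a b x < c), (z : ℂ) ^ el k a b x‖ ≤ B) (y : ℕ) :
    ‖∑ w ∈ ((par k a b).image (fun w => w + σ)).filter (fun w => w < y), (z : ℂ) ^ w‖ ≤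
      B + 2 * ((p : ℝ) / L + 1) + 2 := by
  classical
  have hp : 0 < p := (Fact.out : p.Prime).pos
  have hB0 : 0 ≤ B := (norm_nonneg _).trans (hB 0 (mem_image.2 ⟨0, mem_range.2 (by omega), by simp⟩))
  have hp0 : (0 : ℝ) < p := by exact_mod_cast hp
  have hL0 : (0 : ℝ) < L := by exact_mod_cast hL
  obtain ⟨Q, hQ⟩ : ∃ Q, Q = (range p).filter (fun x => el k a b x + σ < y) := ⟨_, rfl⟩
  have h1 : ∑ w ∈ ((par k a b).image (fun w => w + σ)).filter (fun w => w < y), (z : ℂ) ^ w =
      (z : ℂ) ^ σ * ∑ x ∈ Q, (z : ℂ) ^ el k a b x := by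
    have h2 : ((par k a b).image (fun w => w + σ)).filter (fun w => w < y) =
        Q.image (fun x => el k a b x + σ) := by
      ext w
      simp only [mem_filter, mem_image, hQ, par]
      constructor
      · rintro ⟨⟨w', ⟨x, hx, rfl⟩, rfl⟩, h⟩
        exact ⟨x, ⟨hx, h⟩, rfl⟩
      · rintro ⟨x, ⟨hx, h⟩, rfl⟩
        exact ⟨⟨_, ⟨x, hx, rfl⟩, rfl⟩, h⟩
    rw [h2, sum_image, mul_sum]
    · refine sum_congr rfl fun x _ => ?_
      rw [pow_add, mul_comm]
    · intro x hx x' hx' h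
      rw [hQ] at hx hx'
      have g1 := mem_range.1 (mem_filter.1 (mem_coe.1 hx)).1
      have g2 := mem_range.1 (mem_filter.1 (mem_coe.1 hx')).1
      simp only at h
      exact el_inj k a b g1 g2 (by omega)
  rw [h1, norm_mul, norm_pow, Circle.norm_coe, one_pow, one_mul]
  have hpL : (0 : ℝ) ≤ (p : ℝ) / L := by positivity
  by_cases hy : y ≤ σ
  · have : Q = ∅ := by
      rw [hQ, filter_eq_empty_iff]
      intro x _ h
      omega
    rw [this, sum_empty, norm_zero]
    linarith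
  push Not at hy
  obtain ⟨c, hc⟩ : ∃ c, c = (y - σ) / (2 * p) := ⟨_, rfl⟩
  obtain ⟨c', hc'⟩ : ∃ c', c' = min c p := ⟨_, rfl⟩
  obtain ⟨g, hg⟩ : ∃ g, g = p / L + 1 := ⟨_, rfl⟩
  obtain ⟨m, hm⟩ : ∃ m, m = c' / g := ⟨_, rfl⟩
  have hg0 : 0 < g := by rw [hg]; exact Nat.succ_pos _
  have hmg1 : m * g ≤ c' := by rw [hm]; exact Nat.div_mul_le_self _ _
  have hmg2 : c' < m * g + g := by
    have := Nat.lt_mul_div_succ c' hg0
    rw [← hm] at this
    linarith
  have hmL : m < L + 1 := by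
    have h2 : p < g * L := by
      have := Nat.lt_mul_div_succ p hL
      rw [← hg] at this
      linarith
    have h3 : m ≤ p / g := by
      rw [hm]
      exact Nat.div_le_div_right (by rw [hc']; exact min_le_right _ _)
    have h4 : p / g < L := Nat.div_lt_of_lt_mul h2
    omega
  obtain ⟨R, hR⟩ : ∃ R, R = (range p).filter (fun x => yc k a b x < m * g) := ⟨_, rfl⟩
  have hRQ : R ⊆ Q := by
    intro x hx
    rw [hR] at hx
    rw [hQ]
    obtain ⟨h2, h3⟩ := mem_filter.1 hx
    refine mem_filter.2 ⟨h2, ?_⟩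
    rw [mem_range] at h2
    have h4 : yc k a b x + 1 ≤ c := by
      have : c' ≤ c := by rw [hc']; exact min_le_left _ _
      exact Nat.succ_le_of_lt (lt_of_lt_of_le h3 (hmg1.trans this))
    have h5 : 2 * p * (yc k a b x + 1) ≤ 2 * p * c := Nat.mul_le_mul_left _ h4
    have h6 : 2 * p * c ≤ y - σ := by rw [hc]; exact Nat.mul_div_le _ _
    unfold el
    have h7 : 2 * p * (yc k a b x + 1) = 2 * p * yc k a b x + 2 * p := by ring
    omega
  have hQR : Q \ R ⊆ (range p).filter (fun x => m * g ≤ yc k a b x ∧ yc k a b x < m * g + (g + 1)) := by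
    intro x hx
    obtain ⟨h2, h3⟩ := mem_sdiff.1 hx
    rw [hQ] at h2
    obtain ⟨h4, h5⟩ := mem_filter.1 h2
    refine mem_filter.2 ⟨h4, ?_, ?_⟩
    · by_contra hlt
      exact h3 (by rw [hR]; exact mem_filter.2 ⟨h4, by omega⟩)
    · have h6 : yc k a b x ≤ c := by
        rw [hc, Nat.le_div_iff_mul_le (by omega)]
        unfold el at h5
        have : yc k a b x * (2 * p) = 2 * p * yc k a b x := mul_comm _ _
        omega
      have h7 := yc_lt k a b x
      have h8 : yc k a b x ≤ c' := by rw [hc']; exact le_min h6 h7.le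
      omega
  have h2 : ((Q \ R).card : ℝ) ≤ 2 * ((p : ℝ) / L + 1) + 2 := by
    have h3 := (card_le_card hQR).trans (fiberI hk a b _ _)
    have h4 : 2 * (m * g + (g + 1) - m * g) = 2 * g + 2 := by omega
    rw [h4] at h3
    have h5 : ((Q \ R).card : ℝ) ≤ 2 * (g : ℝ) + 2 := by exact_mod_cast h3
    have h6 : (g : ℝ) ≤ (p : ℝ) / L + 1 := by
      rw [hg]
      push_cast
      have : ((p / L : ℕ) : ℝ) ≤ (p : ℝ) / L := Nat.cast_div_le
      linarith
    linarith
  have h3 := hB (m * g) (mem_image.2 ⟨m, mem_range.2 hmL, by rw [hg]⟩)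
  rw [← hR] at h3
  rw [← sum_sdiff hRQ]
  refine (norm_add_le _ _).trans ?_
  have h4 := norm_sum_le_card z (el k a b) (Q \ R)
  linarith

theorem kap_inj (hp2 : (2 : ZMod p) ≠ 0) {u : ZMod p} (hu0 : u ≠ 0) (hu1 : 1 + u ≠ 0)
    (hu : u ≠ 1) {i j : Fin 3} (h : kap u i = kap u j) : i = j := by
  have e1 : (1 : ZMod p) = (1 + u) / 2 → False := by
    intro h
    rw [eq_div_iff hp2] at h
    apply hu
    linear_combination (-1) * h
  have e2 : (1 : ZMod p) = (1 + u) / (2 * u) → False := by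
    intro h
    rw [eq_div_iff (mul_ne_zero hp2 hu0)] at h
    apply hu
    linear_combination h
  have e3 : (1 + u) / 2 = (1 + u) / (2 * u) → False := by
    intro h
    rw [div_eq_div_iff hp2 (mul_ne_zero hp2 hu0)] at h
    have h2 : (2 * (1 + u)) * (u - 1) = 0 := by linear_combination h
    rcases mul_eq_zero.1 h2 with h3 | h3
    · exact mul_ne_zero hp2 hu1 h3
    · exact hu (sub_eq_zero.1 h3)
  fin_cases i <;> fin_cases j
  · rfl
  · exact (e1 (by simpa [kap] using h)).elim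
  · exact (e2 (by simpa [kap] using h)).elim
  · exact (e1 (by simpa [kap] using h.symm)).elim
  · rfl
  · exact (e3 (by simpa [kap] using h)).elim
  · exact (e2 (by simpa [kap] using h.symm)).elim
  · exact (e3 (by simpa [kap] using h.symm)).elim
  · rfl

end

end Pool.Agent.Helper38.JB
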