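import Pool.Agent.Helper38.JB.Lev3

/-!
The just basis at one scale, with all cuts: existence.
-/

set_option autoImplicit false

open Finset

namespace Pool.Agent.Helper38.JB

open Pool.Agent.Helper38.SP (quad)

/-- one scale; `D` is the part of the basis which is already there -/
def Lev3 (i L : ℕ) (S : Finset Circle) (D : Finset ℕ) (X : Fin 3 × ℕ × ℕ → Finset ℕ) : Prop :=
  (∀ κ ∈ II, ∀ v ∈ X κ, 2 * 4 ^ i ≤ v ∧ v < 444 * 4 ^ i) ∧
  ((quad (II.biUnion X)).card : ℝ) ≤ 8 * 486 ^ 4 * 4 ^ i ∧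
  (∀ n, 28 * 4 ^ i ≤ n → n < 112 * 4 ^ i → ∃ v ∈ II.biUnion X, ∃ w ∈ II.biUnion X, v + w = n) ∧
  (∀ κ ∈ II, (X κ).card ≤ 2 * 2 ^ i) ∧
  (∀ κ ∈ II, ∀ u v : ℕ, u ≤ v →
    (((X κ).filter (fun w => u ≤ w ∧ w < v)).card : ℝ) ≤ ((v : ℝ) - u) / 2 ^ i + 5) ∧
  (∀ κ ∈ II, ∀ z ∈ S, ∀ y : ℕ, ‖∑ w ∈ (X κ).filter (fun w => w < y), (z : ℂ) ^ w‖ ≤
    √(2 * (3 * ((L : ℝ) + 1) * ∑ z ∈ S, (2 * 2 ^ i + 4 / ‖1 - (z : ℂ)‖ ^ 2) + 1)) +
      2 * (2 * 2 ^ i / L + 1) + 2) ∧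
  (∀ κ ∈ II, ∀ κ' ∈ II, κ ≠ κ' → (X κ ∩ X κ').card ≤ 2) ∧
  ∀ κ ∈ II, ((X κ ∩ D).card : ℝ) ≤ 2 * (486 * D.card / 2 ^ i + 1)

set_option maxRecDepth 20000 in
theorem lev3_exists {i : ℕ} (hi : 3 ≤ i) {L : ℕ} (hL : 0 < L) (S : Finset Circle)
    (hS : ∀ z ∈ S, z ≠ 1) (D : Finset ℕ) : ∃ X, Lev3 i L S D X := by
  classical
  obtain ⟨p, hpp, hp1, hp2⟩ := Nat.exists_prime_lt_and_le_two_mul (2 ^ i) (by positivity)
  have : Fact p.Prime := ⟨hpp⟩
  have h8 : 8 ≤ 2 ^ i := by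
    calc 8 = 2 ^ 3 := by norm_num
      _ ≤ 2 ^ i := Nat.pow_le_pow_right (by norm_num) hi
  obtain ⟨h2, u, hu, hu1⟩ := exists_u (p := p) (by omega)
  have hu0 : u ≠ 0 := by
    rintro rfl
    exact hu ⟨0, by ring⟩
  have hu2 : u ≠ 1 := by
    rintro rfl
    exact hu ⟨1, by ring⟩
  obtain ⟨T, hT⟩ : ∃ T : Finset ℕ, T = ((range 54) ×ˢ (range 3)).image
    (fun q => 2 * p ^ 2 * (q.1 + 1) + p * q.2) := ⟨_, rfl⟩
  have hTc : T.card ≤ 162 := by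
    rw [hT]
    refine card_image_le.trans ?_
    rw [card_product, card_range, card_range]
  obtain ⟨a, b, hab, hov⟩ := exShift2 h2 (kap u) (kap_ne h2 hu0 hu1) S hS
    ((range (L + 1)).image (fun m => m * (p / L + 1))) D T
  have h4 : (4 : ℕ) ^ i = (2 ^ i) ^ 2 := by
    rw [← pow_mul, mul_comm, pow_mul]
    norm_num
  have hpl : 4 ^ i ≤ p ^ 2 := by
    rw [h4]
    exact Nat.pow_le_pow_left hp1.le 2
  have hpu : p ^ 2 ≤ 4 * 4 ^ i := by
    rw [h4]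
    calc p ^ 2 ≤ (2 * 2 ^ i) ^ 2 := Nat.pow_le_pow_left hp2 2
      _ = 4 * (2 ^ i) ^ 2 := by ring
  have hpp2 : 2 * p ≤ p ^ 2 := by nlinarith
  have hp1R : (2 : ℝ) ^ i ≤ p := by exact_mod_cast hp1.le
  have hp2R : (p : ℝ) ≤ 2 * 2 ^ i := by exact_mod_cast hp2
  have h2i : (0 : ℝ) < 2 ^ i := by positivity
  have hp0R : (0 : ℝ) < p := by linarith
  obtain ⟨X, hX⟩ : ∃ X : Fin 3 × ℕ × ℕ → Finset ℕ, ∀ κ, X κ = (par (kap u κ.1) a b).image
    (fun v => v + (2 * p ^ 2 * (κ.2.1 + 1) + p * κ.2.2)) := ⟨_, fun _ => rfl⟩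
  have hmem : ∀ κ : Fin 3 × ℕ × ℕ, κ.2.1 < 54 → κ.2.2 < 3 → ∀ v ∈ par (kap u κ.1) a b, ∀ w,
      w = v + (2 * p ^ 2 * (κ.2.1 + 1) + p * κ.2.2) → w ∈ II.biUnion X := by
    intro κ hh he v hv w hw
    rw [mem_biUnion]
    refine ⟨κ, ?_, ?_⟩
    · unfold II
      rw [mem_product, mem_product, mem_range, mem_range]
      exact ⟨mem_univ _, hh, he⟩
    · rw [hX, hw]
      exact mem_image.2 ⟨v, hv, rfl⟩
  have hII : ∀ κ ∈ II, κ.2.1 < 54 ∧ κ.2.2 < 3 := by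
    intro κ hκ
    unfold II at hκ
    simp only [mem_product, mem_univ, mem_range, true_and] at hκ
    exact hκ
  refine ⟨X, ?_, ?_, ?_, ?_, ?_, ?_, ?_, ?_⟩
  · intro κ hκ v hv
    have hκ' := hII κ hκ
    rw [hX] at hv
    obtain ⟨v', hv', rfl⟩ := mem_image.1 hv
    obtain ⟨x, hx, rfl⟩ := mem_image.1 hv'
    have h3 := el_lt (kap u κ.1) a b (mem_range.1 hx)
    have h5 : 2 * p ^ 2 * (κ.2.1 + 1) ≤ 2 * p ^ 2 * 54 := Nat.mul_le_mul_left _ (by omega)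
    have h6 : 2 * p ^ 2 * 1 ≤ 2 * p ^ 2 * (κ.2.1 + 1) := Nat.mul_le_mul_left _ (by omega)
    have h7 : p * κ.2.2 ≤ p * 2 := Nat.mul_le_mul_left _ (by omega)
    constructor <;> omega
  · refine (quad_union II _ (p := p) ?_ ?_).trans ?_
    · intro κ _
      rw [hX]
      exact sid_image (sid_par h2 (kap_ne h2 hu0 hu1 κ.1) a b) _
    · intro κ _
      rw [hX]
      exact card_image_le.trans (card_par _ _ _).le
    · rw [card_II]
      have : ((p : ℝ)) ^ 2 ≤ 4 * 4 ^ i := by exact_mod_cast hpu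
      push_cast
      nlinarith
  · intro n h5 h6
    have h7 : 4 * p ^ 2 ≤ n - p := by omega
    obtain ⟨k, l, v, hv, w, hw, e, β, he, e1, e2, e3⟩ := cover h2 hu hu1 a b h7
    have hβ1 : 2 ≤ β := by
      by_contra hlt
      have : 2 * p ^ 2 * (β + 2) ≤ 2 * p ^ 2 * 3 := Nat.mul_le_mul_left _ (by omega)
      omega
    have hβ2 : β ≤ 55 := by
      by_contra hlt
      have : 2 * p ^ 2 * 56 ≤ 2 * p ^ 2 * β := Nat.mul_le_mul_left _ (by omega)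
      omega
    obtain ⟨γ, rfl⟩ : ∃ γ, β = γ + 2 := ⟨β - 2, by omega⟩
    have z1 : (0 : ℕ) < 54 := by norm_num
    have z2 : (0 : ℕ) < 3 := by norm_num
    have m1 : v + 2 * p ^ 2 ∈ II.biUnion X :=
      hmem (k, 0, 0) z1 z2 v hv _ (by simp only; ring)
    have m2 : w + (2 * p ^ 2 * (γ + 1) + p * e) ∈ II.biUnion X :=
      hmem (l, γ, e) (by simp only; omega) (by simp only; omega) w hw _ rfl
    refine ⟨_, m1, _, m2, ?_⟩
    have e5 : 2 * p ^ 2 * (γ + 2) = 2 * p ^ 2 + 2 * p ^ 2 * (γ + 1) := by ring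
    have e6 : e * p = p * e := mul_comm _ _
    rw [e5, e6] at e1
    omega
  · intro κ _
    rw [hX]
    exact card_image_le.trans ((card_par _ _ _).le.trans hp2)
  · intro κ _ v w hvw
    rw [hX]
    refine (short (kap_ne h2 hu0 hu1 κ.1) a b _ v w hvw).trans ?_
    have h5 : (0 : ℝ) ≤ (w : ℝ) - v := by
      have : (v : ℝ) ≤ w := by exact_mod_cast hvw
      linarith
    have : ((w : ℝ) - v) / p ≤ ((w : ℝ) - v) / 2 ^ i := div_le_div_of_nonneg_left h5 h2i hp1R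
    linarith
  · intro κ _ z hz y
    rw [hX]
    refine (cuts (kap_ne h2 hu0 hu1 κ.1) a b _ hL z
      (B := √(2 * (3 * ((L : ℝ) + 1) * ∑ z ∈ S, (2 * 2 ^ i + 4 / ‖1 - (z : ℂ)‖ ^ 2) + 1))) ?_ y).trans ?_
    · intro c hc
      refine Real.le_sqrt_of_sq_le ((hab z hz κ.1 c hc).trans ?_)
      have h5 : (((range (L + 1)).image (fun m => m * (p / L + 1))).card : ℝ) ≤ (L : ℝ) + 1 := by
        have : ((range (L + 1)).image (fun m => m * (p / L + 1))).card ≤ L + 1 :=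
          card_image_le.trans (by rw [card_range])
        exact_mod_cast this
      have h6 : ∑ z ∈ S, ((p : ℝ) + 4 / ‖1 - (z : ℂ)‖ ^ 2) ≤
          ∑ z ∈ S, (2 * 2 ^ i + 4 / ‖1 - (z : ℂ)‖ ^ 2) := sum_le_sum fun z _ => by linarith
      have h7 : 0 ≤ ∑ z ∈ S, ((p : ℝ) + 4 / ‖1 - (z : ℂ)‖ ^ 2) := sum_nonneg fun _ _ => by positivity
      gcongr
    · have : (p : ℝ) / L ≤ 2 * 2 ^ i / L := by gcongr
      linarith
  · intro κ hκ κ' hκ' hne
    obtain ⟨k1, k2⟩ := hII κ hκ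
    obtain ⟨l1, l2⟩ := hII κ' hκ'
    rw [hX, hX]
    have hp5 : 5 ≤ p := by omega
    -- the common elements have the same first coordinate
    have key : ∀ x < p, ∀ x' < p, el (kap u κ.1) a b x + (2 * p ^ 2 * (κ.2.1 + 1) + p * κ.2.2) =
        el (kap u κ'.1) a b x' + (2 * p ^ 2 * (κ'.2.1 + 1) + p * κ'.2.2) → x = x' ∧
        2 * yc (kap u κ.1) a b x + 2 * p * κ.2.1 + κ.2.2 =
          2 * yc (kap u κ'.1) a b x + 2 * p * κ'.2.1 + κ'.2.2 := by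
      intro x hx x' hx' h
      unfold el at h
      have h5 : x + p * (2 * yc (kap u κ.1) a b x + 2 * p * κ.2.1 + κ.2.2) =
          x' + p * (2 * yc (kap u κ'.1) a b x' + 2 * p * κ'.2.1 + κ'.2.2) := by
        nlinarith
      obtain ⟨h6, h7⟩ := digits hx hx' h5
      subst h6
      exact ⟨rfl, h7⟩
    by_cases hk : κ.1 = κ'.1
    · refine le_trans (le_of_eq ?_) (Nat.zero_le 2)
      rw [card_eq_zero, ← disjoint_iff_inter_eq_empty, disjoint_left]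
      intro v hv hv'
      obtain ⟨w, hw, e1⟩ := mem_image.1 hv
      obtain ⟨w', hw', e2⟩ := mem_image.1 hv'
      obtain ⟨x, hx, rfl⟩ := mem_image.1 hw
      obtain ⟨x', hx', rfl⟩ := mem_image.1 hw'
      obtain ⟨_, h6⟩ := key x (mem_range.1 hx) x' (mem_range.1 hx') (e1.trans e2.symm)
      rw [hk] at h6
      have h7 : κ.2.2 + (2 * p) * κ.2.1 = κ'.2.2 + (2 * p) * κ'.2.1 := by omega
      obtain ⟨h8, h9⟩ := digits (by omega) (by omega) h7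
      exact hne (Prod.ext hk (Prod.ext h9 h8))
    · have hkk : kap u κ.1 - kap u κ'.1 ≠ 0 := by
        intro h
        exact hk (kap_inj h2 hu0 hu1 hu2 (sub_eq_zero.1 h))
      refine le_trans ?_ (sq2 a (((κ'.2.2 : ZMod p) - κ.2.2) / (2 * (kap u κ.1 - kap u κ'.1))))
      refine card_le_card_of_surjOn
        (fun x => el (kap u κ.1) a b x + (2 * p ^ 2 * (κ.2.1 + 1) + p * κ.2.2)) ?_
      intro v hv
      obtain ⟨hv1, hv2⟩ := mem_inter.1 (mem_coe.1 hv)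
      obtain ⟨w, hw, e1⟩ := mem_image.1 hv1
      obtain ⟨w', hw', e2⟩ := mem_image.1 hv2
      obtain ⟨x, hx, rfl⟩ := mem_image.1 hw
      obtain ⟨x', hx', rfl⟩ := mem_image.1 hw'
      obtain ⟨_, h6⟩ := key x (mem_range.1 hx) x' (mem_range.1 hx') (e1.trans e2.symm)
      refine ⟨x, mem_coe.2 (mem_filter.2 ⟨hx, ?_⟩), e1⟩
      have h7 := congrArg (Nat.cast (R := ZMod p)) h6
      push_cast at h7
      unfold yc at h7
      simp only [ZMod.natCast_zmod_val, ZMod.natCast_self] at h7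
      rw [eq_div_iff (mul_ne_zero h2 hkk)]
      linear_combination h7
  · intro κ hκ
    have hκ' := hII κ hκ
    rw [hX]
    have h5 : 2 * p ^ 2 * (κ.2.1 + 1) + p * κ.2.2 ∈ T := by
      rw [hT]
      exact mem_image.2 ⟨(κ.2.1, κ.2.2), mem_product.2 ⟨mem_range.2 hκ'.1, mem_range.2 hκ'.2⟩, rfl⟩
    refine (hov κ.1 _ h5).trans ?_
    have h6 : (T.card : ℝ) ≤ 162 := by exact_mod_cast hTc
    have h7 : 3 * (T.card : ℝ) * D.card / p ≤ 486 * D.card / 2 ^ i := by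
      have h8 : 3 * (T.card : ℝ) * D.card ≤ 486 * D.card := by
        have : (0 : ℝ) ≤ D.card := Nat.cast_nonneg _
        nlinarith
      gcongr
    linarith

end Pool.Agent.Helper38.JB
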