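import Pool.Agent.Helper38.SP.One

/-!
One scale, with a free density and few elements in a given thin set.
-/

set_option autoImplicit false

open Finset Filter

namespace Pool.Agent.Helper38.JB

open Pool.Agent.Helper38.SP
open Pool.Agent.Helper80.SP (energyW meanW)

theorem oneX [DecidableEq Circle] (Z : Subgroup Circle) (φ : Circle → ℂ)
    (hpd : PosDef (Z : Set Circle) φ) (h1 : φ 1 = 1) {Φ : ℝ}
    (hΦ : ∀ S : Finset Circle, (∀ s ∈ S, s ∈ Z) → ∑ s ∈ S, ‖φ s‖ ^ 4 ≤ Φ)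
    {Θ : ℝ} (hΘ : 0 < Θ) {K : ℝ} (D0 : ℕ → Finset ℕ)
    (hD0 : ∀ j, ((D0 j).card : ℝ) ≤ K * √((2 : ℝ) ^ j))
    (F : Finset Circle) (hF : ∀ ζ ∈ F, ζ ∈ Z) (s : ℕ) (hs : 0 < s)
    (S : Finset Circle) (hSne : S.Nonempty) (hSZ : ∀ t ∈ S, t ∈ Z)
    (hfol : ∀ ζ ∈ F, (1 - 1 / (2 * (s : ℝ))) * S.card ≤ (S.filter (fun t => t * ζ ∈ S)).card) :
    ∀ᶠ j : ℕ in atTop, ∃ B : Finset ℕ, (∀ b ∈ B, 2 * b < 2 ^ j) ∧
      ((quad B).card : ℝ) ≤ 4 * (Θ ^ 4 * (Φ + 1) + 4 * Θ ^ 2 + 4 * Θ) * 2 ^ j ∧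
      (∀ ζ ∈ insert 1 F, ‖∑ b ∈ B, (ζ : ℂ) ^ (2 ^ j + b) -
        φ ζ * ((Θ * √((2 : ℝ) ^ j) / 2 : ℝ) : ℂ)‖ ≤ (1 + Θ) * (√((2 : ℝ) ^ j) / s)) ∧
      ((B ∩ D0 j).card : ℝ) ≤ √((2 : ℝ) ^ j) / s := by
  have hΦ0 : 0 ≤ Φ := by
    have := hΦ ∅ (by simp)
    simpa using this
  have hK0 : 0 ≤ K := by
    have := (Nat.cast_nonneg _).trans (hD0 0)
    simpa using this
  have hsR : (1 : ℝ) ≤ s := by exact_mod_cast hs
  set D : Finset Circle := Df S with hD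
  have hDZ : ∀ η ∈ D, η ∈ Z := by
    intro η hη
    obtain ⟨p, hp, rfl⟩ := mem_image.1 hη
    rw [mem_product] at hp
    exact Z.div_mem (hSZ _ hp.1) (hSZ _ hp.2)
  have hφ1 : ∀ η ∈ Z, ‖φ η‖ ≤ 1 := fun η hη => norm_le_one hpd h1 Z.one_mem hη
  obtain ⟨C1, hC1, hen⟩ := energyW D
  have hmean := fun ζ => meanW D ζ
  choose Cz hCz hmeanW using hmean
  set F' : Finset Circle := insert 1 F with hF'
  have hF'Z : ∀ ζ ∈ F', ζ ∈ Z := by
    intro ζ hζ
    rcases mem_insert.1 hζ with h | h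
    · rw [h]; exact Z.one_mem
    · exact hF ζ h
  set C : ℝ := ∑ ζ ∈ F', Cz ζ with hC
  have hC0 : 0 ≤ C := Finset.sum_nonneg (fun ζ _ => hCz ζ)
  have hCle : ∀ ζ ∈ F', Cz ζ ≤ C := fun ζ hζ =>
    Finset.single_le_sum (f := Cz) (fun i _ => hCz i) hζ
  set X : ℝ := 1 + Θ * D.card + 2 * C + C1 + 2 * s * C + 2 * s * (Θ * D.card * K) +
    32 * (s ^ 2 * ((F'.card + 1) * Θ)) with hX
  have htend : Tendsto (fun j : ℕ => √((2 : ℝ) ^ j)) atTop atTop :=
    Real.tendsto_sqrt_atTop.comp (tendsto_pow_atTop_atTop_of_one_lt (by norm_num))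
  filter_upwards [htend.eventually_ge_atTop X, eventually_ge_atTop 1] with j hj hj1
  set sm : ℝ := √((2 : ℝ) ^ j) with hsm
  have q1 : 0 ≤ Θ * (D.card : ℝ) := by positivity
  have q2 : 0 ≤ 2 * (s : ℝ) * C := by positivity
  have q3 : 0 ≤ 2 * (s : ℝ) * (Θ * D.card * K) := by positivity
  have q4 : 0 ≤ 32 * ((s : ℝ) ^ 2 * ((F'.card + 1) * Θ)) := by positivity
  have hsm1 : 1 ≤ sm := by linarith
  have hsm0 : 0 < sm := by linarith
  have hsm2 : sm * sm = (2 : ℝ) ^ j := Real.mul_self_sqrt (by positivity)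
  have hsmle : sm ≤ (2 : ℝ) ^ j := by
    rw [← hsm2]
    nlinarith
  set M : ℕ := 2 ^ (j - 1) with hMdef
  have hM2 : 2 * M = 2 ^ j := by
    rw [hMdef, ← pow_succ']
    congr 1
    omega
  have hM2R : 2 * (M : ℝ) = (2 : ℝ) ^ j := by exact_mod_cast hM2
  -- the weights
  set w : ℕ → ℝ := fun a => wt S φ (2 ^ j + a) with hw
  set g : Circle → ℂ := fun η => gam S φ η * ((η⁻¹ : Circle) : ℂ) ^ (2 ^ j) with hg
  have hw0 : ∀ a, 0 ≤ w a := fun a => (wt_complex hpd hSZ (2 ^ j + a)).1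
  have hwg : ∀ a, ((w a : ℝ) : ℂ) = ∑ z ∈ D, g z * ((z⁻¹ : Circle) : ℂ) ^ a := by
    intro a
    have := wt_sum hpd hSZ (2 ^ j + a)
    simp only [hw, hg]
    rw [this]
    refine Finset.sum_congr rfl (fun z _ => ?_)
    rw [pow_add]
    ring
  have hgn : ∀ z, ‖g z‖ = ‖gam S φ z‖ := by
    intro z
    simp only [hg]
    rw [norm_mul, norm_pow, Circle.norm_coe, one_pow, mul_one]
  have hg1 : ∀ z ∈ D, ‖g z‖ ≤ 1 := fun z hz => by
    rw [hgn]
    exact (norm_gam_le φ S z).trans (hφ1 z (hDZ z hz))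
  have hg4 : ∑ z ∈ D, ‖g z‖ ^ 4 ≤ Φ := by
    refine le_trans (Finset.sum_le_sum (fun z _ => ?_)) (hΦ D hDZ)
    rw [hgn]
    exact pow_le_pow_left₀ (norm_nonneg _) (norm_gam_le φ S z) 4
  have hwD : ∀ a, w a ≤ D.card := by
    intro a
    have h2 : |w a| ≤ D.card := by
      rw [← Real.norm_eq_abs, ← Complex.norm_real, hwg a]
      refine (norm_sum_le _ _).trans ?_
      refine (Finset.sum_le_sum (g := fun _ => (1 : ℝ)) (fun z hz => ?_)).trans ?_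
      · rw [norm_mul, norm_pow, Circle.norm_coe, one_pow, mul_one]
        exact hg1 z hz
      · simp
    exact (le_abs_self _).trans h2
  set p : ℕ → ℝ := fun a => Θ * w a / sm with hp
  have hp0 : ∀ a, 0 ≤ p a := fun a => div_nonneg (mul_nonneg hΘ.le (hw0 a)) hsm0.le
  have hpD : ∀ a, p a ≤ Θ * D.card / sm := fun a => by
    rw [hp]
    simp only
    have := hwD a
    gcongr
  have hp1 : ∀ a, p a ≤ 1 := fun a => by
    refine (hpD a).trans ?_
    rw [div_le_one hsm0]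
    linarith
  -- means
  have hmean1 : ∀ ζ ∈ F', ∀ y : ℕ,
      ‖∑ a ∈ range y, (p a : ℂ) * (ζ : ℂ) ^ (2 ^ j + a) - gam S φ ζ * ((Θ * y / sm : ℝ) : ℂ)‖ ≤
        Θ * C / sm := by
    intro ζ hζ y
    have h2 := hmeanW ζ g hg1 w hwg y
    have h3 : (if ζ ∈ D then g ζ else 0) * (ζ : ℂ) ^ (2 ^ j) = gam S φ ζ := by
      split_ifs with h
      · simp only [hg]
        rw [mul_assoc, ← mul_pow, ← Circle.coe_mul, inv_mul_cancel, Circle.coe_one, one_pow, mul_one]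
      · rw [gam_zero h, zero_mul]
    have h4 : ∑ a ∈ range y, (p a : ℂ) * (ζ : ℂ) ^ (2 ^ j + a) -
        gam S φ ζ * ((Θ * y / sm : ℝ) : ℂ) =
        (((Θ / sm : ℝ) : ℂ) * (ζ : ℂ) ^ (2 ^ j)) * (∑ a ∈ range y, (w a : ℂ) * (ζ : ℂ) ^ a -
          (if ζ ∈ D then g ζ else 0) * y) := by
      rw [← h3, mul_sub, Finset.mul_sum]
      congr 1
      · refine Finset.sum_congr rfl (fun a _ => ?_)
        simp only [hp]
        push_cast
        rw [pow_add]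
        ring
      · push_cast
        ring
    rw [h4, norm_mul, norm_mul, norm_pow, Circle.norm_coe, one_pow, Complex.norm_real,
      Real.norm_eq_abs, abs_of_pos (by positivity), mul_one, mul_comm Θ C, mul_div_assoc,
      mul_comm C]
    exact mul_le_mul_of_nonneg_left (h2.trans (hCle ζ hζ)) (by positivity)
  have hMsm : Θ * (M : ℝ) / sm = Θ * sm / 2 := by
    rw [div_eq_div_iff hsm0.ne' (by norm_num)]
    have : (M : ℝ) * 2 = sm * sm := by rw [hsm2]; linarith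
    linear_combination Θ * this
  have hPabs : |∑ a ∈ range M, p a - Θ * sm / 2| ≤ Θ * C / sm := by
    have h2 := hmean1 1 (mem_insert_self _ _) M
    rw [gam_one hSne h1, hMsm] at h2
    have h3 : ∑ a ∈ range M, (p a : ℂ) * ((1 : Circle) : ℂ) ^ (2 ^ j + a) -
        1 * ((Θ * sm / 2 : ℝ) : ℂ) = ((∑ a ∈ range M, p a - Θ * sm / 2 : ℝ) : ℂ) := by
      push_cast
      simp
    rw [h3, Complex.norm_real, Real.norm_eq_abs] at h2
    exact h2
  have hCsm : Θ * C / sm ≤ Θ * sm / 2 := by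
    rw [div_le_div_iff₀ hsm0 (by norm_num)]
    have h2 : 2 * C ≤ sm := by linarith
    have h3 : C * 2 ≤ sm * sm := by nlinarith
    nlinarith
  have hP : ∑ a ∈ range M, p a ≤ Θ * sm := by
    have := (abs_le.1 hPabs).2
    linarith
  have hP0 : 0 ≤ ∑ a ∈ range M, p a := Finset.sum_nonneg (fun a _ => hp0 a)
  -- energy
  set E0 : ℝ := Θ ^ 4 * (Φ + 1) + 4 * Θ ^ 2 + 4 * Θ with hE0
  have hE0p : 0 < E0 := by positivity
  have hE : EX p (range M) (fun S => ((quad S).card : ℝ)) ≤ E0 * (2 : ℝ) ^ j := by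
    refine (EX_quad hp0 hp1 (range M)).trans ?_
    rw [sum_quad_eq]
    have h2 : ∑ n ∈ range (2 * M), (∑ v ∈ (range M ×ˢ range M).filter (fun v => v.1 + v.2 = n),
        p v.1 * p v.2) ^ 2 = (Θ ^ 4 * (sm ^ 4)⁻¹) * ∑ n ∈ range (2 * M),
        (∑ v ∈ (range M ×ˢ range M).filter (fun v => v.1 + v.2 = n), w v.1 * w v.2) ^ 2 := by
      rw [Finset.mul_sum]
      refine Finset.sum_congr rfl (fun n _ => ?_)
      have h3 : ∑ v ∈ (range M ×ˢ range M).filter (fun v => v.1 + v.2 = n), p v.1 * p v.2 =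
          (Θ ^ 2 * (sm ^ 2)⁻¹) *
            ∑ v ∈ (range M ×ˢ range M).filter (fun v => v.1 + v.2 = n), w v.1 * w v.2 := by
        rw [Finset.mul_sum]
        refine Finset.sum_congr rfl (fun v _ => ?_)
        simp only [hp]
        field_simp
      rw [h3]
      field_simp
    have h3 := hen g hg1 w hwg M
    have hsm4 : sm ^ 4 = ((2 : ℝ) ^ j) ^ 2 := by rw [← hsm2]; ring
    have hj1 : (1 : ℝ) ≤ (2 : ℝ) ^ j := by linarith
    have h4 : (sm ^ 4)⁻¹ * (4 * (M : ℝ) ^ 3 * ∑ z ∈ D, ‖g z‖ ^ 4 + C1 * ((M : ℝ) + 1) ^ 2) ≤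
        Φ / 2 * (2 : ℝ) ^ j + C1 := by
      rw [hsm4, inv_mul_le_iff₀ (by positivity)]
      have hM1 : (M : ℝ) = (2 : ℝ) ^ j / 2 := by linarith
      have hM1' : (1 : ℝ) ≤ M := by
        have : 1 ≤ M := Nat.one_le_two_pow
        exact_mod_cast this
      have h5 : 4 * (M : ℝ) ^ 3 * ∑ z ∈ D, ‖g z‖ ^ 4 ≤ 4 * (M : ℝ) ^ 3 * Φ := by gcongr
      have h6 : 4 * (M : ℝ) ^ 3 * Φ = ((2 : ℝ) ^ j) ^ 2 * (Φ / 2 * (2 : ℝ) ^ j) := by
        rw [hM1]
        ring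
      have h7 : C1 * ((M : ℝ) + 1) ^ 2 ≤ ((2 : ℝ) ^ j) ^ 2 * C1 := by
        have : (M : ℝ) + 1 ≤ (2 : ℝ) ^ j := by linarith
        have h8 : ((M : ℝ) + 1) ^ 2 ≤ ((2 : ℝ) ^ j) ^ 2 := by gcongr
        calc C1 * ((M : ℝ) + 1) ^ 2 ≤ C1 * ((2 : ℝ) ^ j) ^ 2 := by gcongr
          _ = _ := mul_comm _ _
      have h9 : ((2 : ℝ) ^ j) ^ 2 * (Φ / 2 * (2 : ℝ) ^ j + C1) =
          ((2 : ℝ) ^ j) ^ 2 * (Φ / 2 * (2 : ℝ) ^ j) + ((2 : ℝ) ^ j) ^ 2 * C1 := by ring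
      rw [h9]
      linarith
    have h5 : (sm ^ 4)⁻¹ * ∑ n ∈ range (2 * M),
        (∑ v ∈ (range M ×ˢ range M).filter (fun v => v.1 + v.2 = n), w v.1 * w v.2) ^ 2 ≤
        Φ / 2 * (2 : ℝ) ^ j + C1 :=
      (mul_le_mul_of_nonneg_left h3 (by positivity)).trans h4
    rw [h2]
    have h6 : (∑ a ∈ range M, p a) ^ 2 ≤ Θ ^ 2 * (2 : ℝ) ^ j := by
      calc (∑ a ∈ range M, p a) ^ 2 ≤ (Θ * sm) ^ 2 := by gcongr
        _ = Θ ^ 2 * (2 : ℝ) ^ j := by rw [mul_pow, sq sm, hsm2]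
    have h7 : C1 ≤ (2 : ℝ) ^ j := by linarith
    have h8 : 0 ≤ Φ / 2 * (2 : ℝ) ^ j := by positivity
    have h10 : ∑ a ∈ range M, p a ≤ Θ * (2 : ℝ) ^ j := hP.trans (by gcongr)
    have h11 : (Θ ^ 4 * (sm ^ 4)⁻¹) * ∑ n ∈ range (2 * M),
        (∑ v ∈ (range M ×ˢ range M).filter (fun v => v.1 + v.2 = n), w v.1 * w v.2) ^ 2 ≤
        Θ ^ 4 * ((Φ + 1) * (2 : ℝ) ^ j) := by
      rw [mul_assoc]
      refine mul_le_mul_of_nonneg_left (h5.trans ?_) (by positivity)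
      have : (Φ + 1) * (2 : ℝ) ^ j = Φ / 2 * (2 : ℝ) ^ j + Φ / 2 * (2 : ℝ) ^ j + (2 : ℝ) ^ j := by
        ring
      rw [this]
      linarith
    rw [hE0]
    linarith
  -- selection
  set G : Option Circle → ℕ → ℂ := fun i a => match i with
    | none => if a ∈ D0 j then 1 else 0
    | some ζ => (ζ : ℂ) ^ (2 ^ j + a) with hG
  have hGn : ∀ i a, ‖G i a‖ ≤ 1 := by
    intro i a
    rcases i with _ | ζ
    · simp only [hG]
      split_ifs
      · rw [norm_one]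
      · rw [norm_zero]; exact zero_le_one
    · simp only [hG]
      rw [norm_pow, Circle.norm_coe, one_pow]
  have hQ0 : 0 < 4 * E0 * (2 : ℝ) ^ j := by positivity
  have hδ0 : 0 < sm / (4 * s) := by positivity
  have hcard : ((insertNone F').card : ℝ) = F'.card + 1 := by
    rw [card_insertNone]
    push_cast
    ring
  have hlt : E0 * (2 : ℝ) ^ j / (4 * E0 * (2 : ℝ) ^ j) +
      ((insertNone F').card : ℝ) * (Θ * sm) / (sm / (4 * s)) ^ 2 < 1 := by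
    have e1 : E0 * (2 : ℝ) ^ j / (4 * E0 * (2 : ℝ) ^ j) = 1 / 4 := by
      field_simp
    have e2 : ((insertNone F').card : ℝ) * (Θ * sm) / (sm / (4 * s)) ^ 2 =
        (16 * (s ^ 2 * ((F'.card + 1) * Θ))) / sm := by
      rw [hcard]
      field_simp
      norm_num
    have e3 : (16 * ((s : ℝ) ^ 2 * ((F'.card + 1) * Θ))) / sm ≤ 1 / 2 := by
      rw [div_le_iff₀ hsm0]
      linarith
    rw [e1, e2]
    linarith
  obtain ⟨B, hBM, hBQ, hBd⟩ := select hp0 hp1 (range M) (insertNone F') G hGn hE hP hQ0 hδ0 hlt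
  have hδs : sm / (4 * s) = sm / s / 4 := by field_simp
  refine ⟨B, ?_, hBQ, ?_, ?_⟩
  · intro b hb
    have := mem_range.1 (hBM hb)
    omega
  · intro ζ hζ
    have h2 := hBd (some ζ) (mem_insertNone.2 fun a ha => by
      rw [Option.mem_some_iff] at ha
      rw [← ha]
      exact hζ)
    simp only [hG] at h2
    have h3 := hmean1 ζ hζ M
    rw [hMsm] at h3
    have h4 : ‖gam S φ ζ - φ ζ‖ ≤ 1 / (2 * (s : ℝ)) := by
      rcases mem_insert.1 hζ with h | h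
      · rw [h, gam_one hSne h1, h1, sub_self, norm_zero]
        positivity
      · exact gam_close hSne (hφ1 ζ (hF ζ h)) (hfol ζ h)
    have h5 : ‖gam S φ ζ * ((Θ * sm / 2 : ℝ) : ℂ) - φ ζ * ((Θ * sm / 2 : ℝ) : ℂ)‖ ≤
        1 / (2 * (s : ℝ)) * (Θ * sm / 2) := by
      rw [← sub_mul, norm_mul, Complex.norm_real, Real.norm_eq_abs, abs_of_pos (by positivity)]
      gcongr
    have h6 : Θ * C / sm ≤ Θ * (sm / s) / 2 := by
      have : Θ * (sm / s) / 2 = Θ * sm / (s * 2) := by field_simp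
      rw [this, div_le_div_iff₀ hsm0 (by positivity)]
      have h7 : 2 * (s : ℝ) * C ≤ sm := by linarith
      have h8 : C * (s * 2) ≤ sm * sm := by nlinarith
      nlinarith
    have h9 : 1 / (2 * (s : ℝ)) * (Θ * sm / 2) = Θ * (sm / s) / 4 := by
      field_simp
      norm_num
    have h10 : 0 < sm / s := by positivity
    have h11 : 0 < Θ * (sm / s) := by positivity
    calc ‖∑ b ∈ B, (ζ : ℂ) ^ (2 ^ j + b) - φ ζ * ((Θ * sm / 2 : ℝ) : ℂ)‖
        ≤ sm / (4 * s) + Θ * C / sm + 1 / (2 * (s : ℝ)) * (Θ * sm / 2) := by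
          have e : ∑ b ∈ B, (ζ : ℂ) ^ (2 ^ j + b) - φ ζ * ((Θ * sm / 2 : ℝ) : ℂ) =
              (∑ b ∈ B, (ζ : ℂ) ^ (2 ^ j + b) - ∑ a ∈ range M, (p a : ℂ) * (ζ : ℂ) ^ (2 ^ j + a)) +
              (∑ a ∈ range M, (p a : ℂ) * (ζ : ℂ) ^ (2 ^ j + a) -
                gam S φ ζ * ((Θ * sm / 2 : ℝ) : ℂ)) +
              (gam S φ ζ * ((Θ * sm / 2 : ℝ) : ℂ) - φ ζ * ((Θ * sm / 2 : ℝ) : ℂ)) := by ring
          rw [e]
          refine (norm_add_le _ _).trans (add_le_add ((norm_add_le _ _).trans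
            (add_le_add h2 h3)) h5)
      _ ≤ (1 + Θ) * (sm / s) := by
          rw [h9, hδs]
          nlinarith
  · have h2 := hBd none (by rw [mem_insertNone]; intro a ha; cases ha)
    simp only [hG] at h2
    have h3 : ∑ a ∈ B, (if a ∈ D0 j then (1 : ℂ) else 0) = ((B ∩ D0 j).card : ℂ) := by
      rw [← Finset.sum_filter, Finset.filter_mem_eq_inter]
      simp
    have h4 : ∑ a ∈ range M, (p a : ℂ) * (if a ∈ D0 j then (1 : ℂ) else 0) =
        ((∑ a ∈ range M ∩ D0 j, p a : ℝ) : ℂ) := by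
      rw [← Finset.filter_mem_eq_inter, Finset.sum_filter]
      push_cast
      refine Finset.sum_congr rfl (fun a _ => ?_)
      split_ifs <;> simp
    have h5 : ∑ a ∈ range M ∩ D0 j, p a ≤ Θ * D.card * K := by
      calc ∑ a ∈ range M ∩ D0 j, p a ≤ ∑ _a ∈ range M ∩ D0 j, Θ * D.card / sm :=
            Finset.sum_le_sum (fun a _ => hpD a)
        _ = (range M ∩ D0 j).card * (Θ * D.card / sm) := by rw [sum_const, nsmul_eq_mul]
        _ ≤ (K * sm) * (Θ * D.card / sm) := by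
            refine mul_le_mul_of_nonneg_right ?_ (by positivity)
            refine le_trans ?_ (hD0 j)
            exact_mod_cast card_le_card inter_subset_right
        _ = Θ * D.card * K := by field_simp
    rw [h3, h4] at h2
    have h6 : (((B ∩ D0 j).card : ℂ) - ((∑ a ∈ range M ∩ D0 j, p a : ℝ) : ℂ)) =
        ((((B ∩ D0 j).card : ℝ) - ∑ a ∈ range M ∩ D0 j, p a : ℝ) : ℂ) := by
      push_cast
      rfl
    rw [h6, Complex.norm_real, Real.norm_eq_abs] at h2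
    have h7 := (abs_le.1 h2).2
    have h8 : Θ * D.card * K ≤ sm / s / 2 := by
      rw [div_div, le_div_iff₀ (by positivity)]
      linarith
    have h10 : 0 < sm / s := by positivity
    rw [hδs] at h7
    linarith

end Pool.Agent.Helper38.JB
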