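import Pool.Agent.Helper80.SP.Final

/-!
Sets which meet few classes modulo many primes.
-/

set_option autoImplicit false

open Finset Filter

namespace Pool.Agent.Helper38.JB

open scoped ComplexConjugate

/-- pairs in the same class -/
def same (p : ℕ) (B : Finset ℕ) : Finset (ℕ × ℕ) := (B ×ˢ B).filter fun v => v.1 % p = v.2 % p

theorem card_sq_le (p : ℕ) (B : Finset ℕ) :
    (B.card : ℝ) ^ 2 ≤ (B.image fun a => a % p).card * (same p B).card := by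
  have h1 : (B.card : ℝ) = ∑ c ∈ B.image fun a => a % p, ((B.filter fun a => a % p = c).card : ℝ) := by
    rw [← Nat.cast_sum, ← card_eq_sum_card_image]
  have h2 : ((same p B).card : ℝ) =
      ∑ c ∈ B.image fun a => a % p, ((B.filter fun a => a % p = c).card : ℝ) ^ 2 := by
    have h3 : (same p B).card = ∑ c ∈ B.image fun a => a % p,
        ((same p B).filter fun v => v.1 % p = c).card := by
      refine card_eq_sum_card_fiberwise (fun v hv => ?_)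
      have hv' := mem_filter.1 (mem_coe.1 hv)
      exact mem_coe.2 (mem_image_of_mem _ (mem_product.1 hv'.1).1)
    rw [h3, Nat.cast_sum]
    refine Finset.sum_congr rfl (fun c _ => ?_)
    rw [sq, ← Nat.cast_mul, ← card_product]
    congr 2
    ext v
    simp only [same, mem_filter, mem_product]
    constructor
    · rintro ⟨⟨⟨h4, h5⟩, h6⟩, h7⟩
      exact ⟨⟨h4, h7⟩, h5, by rw [← h6, h7]⟩
    · rintro ⟨⟨h4, h7⟩, h5, h6⟩
      exact ⟨⟨⟨h4, h5⟩, by rw [h6, h7]⟩, h7⟩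
  rw [h1, h2]
  exact sq_sum_le_card_mul_sum_sq

theorem geom_root {w : ℂ} {p : ℕ} (hw : w ^ p = 1) :
    ∑ k ∈ range p, w ^ k = if w = 1 then (p : ℂ) else 0 := by
  split_ifs with h
  · rw [h]; simp
  · rw [geom_sum_eq h, hw, sub_self, zero_div]

theorem parseval_le (p : ℕ) (ζ : Circle) (hζ : ζ ^ p = 1) (B : Finset ℕ) :
    (p : ℝ) * (same p B).card ≤ ∑ k ∈ range p, ‖∑ a ∈ B, ((ζ ^ k : Circle) : ℂ) ^ a‖ ^ 2 := by
  have hζc : (ζ : ℂ) ^ p = 1 := by rw [← Circle.coe_pow, hζ, Circle.coe_one]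
  have h1 : ∀ k, ((‖∑ a ∈ B, ((ζ ^ k : Circle) : ℂ) ^ a‖ ^ 2 : ℝ) : ℂ) =
      ∑ v ∈ B ×ˢ B, ((ζ : ℂ) ^ v.1 * conj ((ζ : ℂ) ^ v.2)) ^ k := by
    intro k
    rw [← Complex.normSq_eq_norm_sq, ← Complex.mul_conj, map_sum, Finset.sum_mul_sum,
      ← Finset.sum_product']
    refine Finset.sum_congr rfl (fun v _ => ?_)
    rw [Circle.coe_pow, mul_pow, ← map_pow, ← pow_mul, ← pow_mul, ← pow_mul, ← pow_mul,
      mul_comm k, mul_comm k]
  have h2 : ((∑ k ∈ range p, ‖∑ a ∈ B, ((ζ ^ k : Circle) : ℂ) ^ a‖ ^ 2 : ℝ) : ℂ) =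
      ∑ v ∈ B ×ˢ B, (if (ζ : ℂ) ^ v.1 * conj ((ζ : ℂ) ^ v.2) = 1 then (p : ℂ) else 0) := by
    push_cast
    have h3 : ∀ k ∈ range p, ((‖∑ a ∈ B, ((ζ ^ k : Circle) : ℂ) ^ a‖ : ℂ) ^ 2) =
        ∑ v ∈ B ×ˢ B, ((ζ : ℂ) ^ v.1 * conj ((ζ : ℂ) ^ v.2)) ^ k := by
      intro k _
      rw [← h1 k]
      push_cast
      rfl
    have h4 := Finset.sum_congr rfl h3
    push_cast at h4
    rw [h4, Finset.sum_comm]
    refine Finset.sum_congr rfl (fun v _ => ?_)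
    refine geom_root ?_
    rw [mul_pow, ← map_pow, ← pow_mul, ← pow_mul, mul_comm v.1, mul_comm v.2, pow_mul, pow_mul,
      hζc, one_pow, one_pow, map_one, mul_one]
  have h5 : (∑ k ∈ range p, ‖∑ a ∈ B, ((ζ ^ k : Circle) : ℂ) ^ a‖ ^ 2 : ℝ) =
      ∑ v ∈ B ×ˢ B, (if (ζ : ℂ) ^ v.1 * conj ((ζ : ℂ) ^ v.2) = 1 then (p : ℝ) else 0) := by
    have : ((∑ v ∈ B ×ˢ B, (if (ζ : ℂ) ^ v.1 * conj ((ζ : ℂ) ^ v.2) = 1 then (p : ℝ) else 0) : ℝ) :
        ℂ) = ∑ v ∈ B ×ˢ B, (if (ζ : ℂ) ^ v.1 * conj ((ζ : ℂ) ^ v.2) = 1 then (p : ℂ) else 0) := by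
      push_cast
      refine Finset.sum_congr rfl (fun v _ => ?_)
      split_ifs <;> simp
    rw [← this] at h2
    exact Complex.ofReal_injective h2
  rw [h5, same, card_filter, Nat.cast_sum, mul_sum]
  refine Finset.sum_le_sum (fun v _ => ?_)
  split_ifs with h6 h7 h7
  · simp
  · exfalso
    apply h7
    have h8 : ∀ n : ℕ, (ζ : ℂ) ^ n = (ζ : ℂ) ^ (n % p) := by
      intro n
      conv_lhs => rw [← Nat.mod_add_div n p, pow_add, pow_mul, hζc, one_pow, mul_one]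
    rw [h8 v.1, h8 v.2, h6, Complex.mul_conj, Complex.normSq_eq_norm_sq, norm_pow, Circle.norm_coe]
    simp
  · simp
  · simp

open Pool.Agent.Helper80.SP (mean mean_one)
open Pool.Agent.Helper25.RC (below mem_below rep)

theorem sq_bound {p : ℕ} (hp : 0 < p) {ζ : Circle} (hζ : ζ ^ p = 1) {A : Set ℕ} {x : ℕ → ℕ}
    (hpos : ∀ᶠ i in atTop, 0 < (below A (x i)).card) {φ : Circle → ℂ}
    (hlim : ∀ k : ℕ, Tendsto (fun i => mean A (x i) (ζ ^ k)) atTop (nhds (φ (ζ ^ k))))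
    {ν : ℕ} (hν : ∀ y, ((below A y).image fun a => a % p).card ≤ ν) (hν0 : 0 < ν) :
    (p : ℝ) / ν ≤ ∑ k ∈ range p, ‖φ (ζ ^ k)‖ ^ 2 := by
  have hpR : (0 : ℝ) < p := by exact_mod_cast hp
  have hνR : (0 : ℝ) < ν := by exact_mod_cast hν0
  have h1 : ∀ᶠ i in atTop, (p : ℝ) / ν ≤ ∑ k ∈ range p, ‖mean A (x i) (ζ ^ k)‖ ^ 2 := by
    filter_upwards [hpos] with i hi
    have hn : (0 : ℝ) < (below A (x i)).card := by exact_mod_cast hi
    have h2 : ∀ k, ‖mean A (x i) (ζ ^ k)‖ ^ 2 =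
        ‖∑ a ∈ below A (x i), ((ζ ^ k : Circle) : ℂ) ^ a‖ ^ 2 / (below A (x i)).card ^ 2 := by
      intro k
      unfold mean
      rw [norm_div, Complex.norm_natCast, div_pow]
    simp only [h2]
    rw [← Finset.sum_div, div_le_div_iff₀ hνR (by positivity)]
    have h3 := parseval_le p ζ hζ (below A (x i))
    have h4 := card_sq_le p (below A (x i))
    have h5 : (((below A (x i)).image fun a => a % p).card : ℝ) ≤ ν := by exact_mod_cast hν (x i)
    have h6 : ((below A (x i)).card : ℝ) ^ 2 ≤ ν * (same p (below A (x i))).card :=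
      h4.trans (mul_le_mul_of_nonneg_right h5 (Nat.cast_nonneg _))
    calc (p : ℝ) * ((below A (x i)).card : ℝ) ^ 2 ≤ p * (ν * (same p (below A (x i))).card) :=
          mul_le_mul_of_nonneg_left h6 hpR.le
      _ = (p * (same p (below A (x i))).card) * ν := by ring
      _ ≤ _ := mul_le_mul_of_nonneg_right h3 hνR.le
  exact ge_of_tendsto (tendsto_finsetSum _ fun k _ => ((hlim k).norm).pow 2) h1

theorem classes_bound {p : ℕ} (hp : 0 < p) {ζ : Circle} (hζ : ζ ^ p = 1) {A : Set ℕ} {x : ℕ → ℕ}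
    (hpos : ∀ᶠ i in atTop, 0 < (below A (x i)).card) {φ : Circle → ℂ}
    (hlim : ∀ k : ℕ, Tendsto (fun i => mean A (x i) (ζ ^ k)) atTop (nhds (φ (ζ ^ k))))
    {ν : ℕ} (hν : ∀ y, ((below A y).image fun a => a % p).card ≤ ν) (hν0 : 0 < ν) (hνp : ν ≤ p) :
    ((p : ℝ) / ν - 1) ^ 2 / p ≤ ∑ k ∈ Ioo 0 p, ‖φ (ζ ^ k)‖ ^ 4 := by
  have hpR : (0 : ℝ) < p := by exact_mod_cast hp
  have hνR : (0 : ℝ) < ν := by exact_mod_cast hν0
  have h2 := sq_bound hp hζ hpos hlim hν hν0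
  have h3 : φ 1 = 1 := by
    have h4 := hlim 0
    rw [pow_zero] at h4
    refine tendsto_nhds_unique h4 (tendsto_const_nhds.congr' ?_)
    filter_upwards [hpos] with i hi
    exact (mean_one A (x i) hi).symm
  have h4 : ∑ k ∈ range p, ‖φ (ζ ^ k)‖ ^ 2 = 1 + ∑ k ∈ Ioo 0 p, ‖φ (ζ ^ k)‖ ^ 2 := by
    have h5 : range p = insert 0 (Ioo 0 p) := by
      ext k
      rw [mem_insert, mem_range, mem_Ioo]
      omega
    rw [h5, sum_insert (by rw [mem_Ioo]; omega), pow_zero, h3, norm_one, one_pow]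
  have h5 : (∑ k ∈ Ioo 0 p, ‖φ (ζ ^ k)‖ ^ 2) ^ 2 ≤ p * ∑ k ∈ Ioo 0 p, ‖φ (ζ ^ k)‖ ^ 4 := by
    refine (sq_sum_le_card_mul_sum_sq (s := Ioo 0 p) (f := fun k => ‖φ (ζ ^ k)‖ ^ 2)).trans ?_
    have h6 : ∀ k, (‖φ (ζ ^ k)‖ ^ 2) ^ 2 = ‖φ (ζ ^ k)‖ ^ 4 := fun k => by ring
    simp only [h6]
    refine mul_le_mul_of_nonneg_right ?_ (Finset.sum_nonneg fun k _ => by positivity)
    rw [Nat.card_Ioo]
    have : p - 0 - 1 ≤ p := by omega
    exact_mod_cast this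
  have h6 : 0 ≤ (p : ℝ) / ν - 1 := by
    rw [sub_nonneg, one_le_div hνR]
    exact_mod_cast hνp
  rw [div_le_iff₀ hpR]
  refine (pow_le_pow_left₀ h6 (by linarith) 2).trans (h5.trans (le_of_eq (mul_comm _ _)))

/-- the number of classes modulo `q` which `A` meets -/
noncomputable def classes (A : Set ℕ) (q : ℕ) : ℕ := ((fun a => a % q) '' A).ncard

theorem classes_ge {A : Set ℕ} {p : ℕ} (hp : 0 < p) (y : ℕ) :
    ((below A y).image fun a => a % p).card ≤ classes A p := by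
  rw [← Set.ncard_coe_finset, coe_image]
  refine Set.ncard_le_ncard ?_ ?_
  · rintro _ ⟨a, ha, rfl⟩
    exact ⟨a, ((mem_below).1 (mem_coe.1 ha)).2, rfl⟩
  · refine (Set.finite_Iio p).subset ?_
    rintro _ ⟨a, _, rfl⟩
    exact Nat.mod_lt a hp

theorem classes_le (A : Set ℕ) {p : ℕ} (hp : 0 < p) : classes A p ≤ p := by
  have h : ((fun a => a % p) '' A) ⊆ Set.Iio p := by
    rintro _ ⟨a, _, rfl⟩
    exact Nat.mod_lt a hp
  refine (Set.ncard_le_ncard h (Set.finite_Iio p)).trans (le_of_eq ?_)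
  rw [← Finset.coe_range, Set.ncard_coe_finset, card_range]

theorem exists_prim {N : ℕ} (hN : 0 < N) : ∃ ζ : Circle, IsPrimitiveRoot ζ N := by
  refine ⟨Circle.exp (2 * Real.pi / N), ?_⟩
  have h := Complex.isPrimitiveRoot_exp N hN.ne'
  refine IsPrimitiveRoot.of_map_of_injective (f := Circle.coeHom) ?_ Circle.coe_injective
  have e : Circle.coeHom (Circle.exp (2 * Real.pi / N)) = Complex.exp (2 * Real.pi * Complex.I / N) := by
    show ((Circle.exp (2 * Real.pi / N) : Circle) : ℂ) = _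
    rw [Circle.coe_exp]
    congr 1
    push_cast
    ring
  rw [e]
  exact h

theorem exists_law (Z : Subgroup Circle) (hcount : (Z : Set Circle).Countable) {A : Set ℕ} {c C : ℝ}
    {x : ℕ → ℕ} (hc : 0 < c) (hx : StrictMono x)
    (hA : ∀ i, c * √(x i) ≤ ((below A (x i)).card : ℝ))
    (hC : ∀ y : ℕ, ∑ n ∈ range y, (rep A n : ℝ) ^ 2 ≤ C * y) :
    ∃ (ψ : ℕ → ℕ) (φ : Circle → ℂ), StrictMono (fun i => x (ψ i)) ∧
      (∀ z ∈ Z, Tendsto (fun i => mean A (x (ψ i)) z) atTop (nhds (φ z))) ∧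
      (∀ᶠ i in atTop, 0 < (below A (x (ψ i))).card) ∧ (Summable fun z : Z => ‖φ z‖ ^ 4) ∧
      ∑' z : Z, ‖φ z‖ ^ 4 ≤ 4 * C / c ^ 4 := by
  obtain ⟨zs, hzs⟩ := hcount.exists_eq_range ⟨1, Z.one_mem⟩
  obtain ⟨ψ, l, hψ, hlim⟩ := Pool.Agent.Helper80.SP.exists_limitS A x zs
  have hex : ∀ z : Circle, ∃ v : ℂ, z ∈ Z →
      Tendsto (fun i => mean A (x (ψ i)) z) atTop (nhds v) := by
    intro z
    by_cases hz : z ∈ Z
    · have hz' : z ∈ Set.range zs := by rw [← hzs]; exact hz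
      obtain ⟨i, rfl⟩ := hz'
      exact ⟨l i, fun _ => hlim i⟩
    · exact ⟨0, fun h => absurd h hz⟩
  choose φ hφ using hex
  have hxψ : StrictMono fun i => x (ψ i) := hx.comp hψ
  have h := Pool.Agent.Helper80.SP.necS' Z (Filter.map (fun i => x (ψ i)) atTop)
    hxψ.tendsto_atTop A C c hc (by
      rw [eventually_map]
      exact Eventually.of_forall fun i => hA (ψ i)) (Eventually.of_forall hC) φ (fun z hz => by
      rw [tendsto_map'_iff]
      exact hφ z hz)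
  refine ⟨ψ, φ, hxψ, fun z hz => hφ z hz, ?_, h.2.2.1, h.2.2.2⟩
  filter_upwards [hxψ.tendsto_atTop.eventually_ge_atTop 1] with i hi
  have h1 := hA (ψ i)
  have h2 : 0 < √((x (ψ i) : ℕ) : ℝ) := Real.sqrt_pos.2 (by exact_mod_cast (by omega))
  have h3 : (0 : ℝ) < (below A (x (ψ i))).card := lt_of_lt_of_le (mul_pos hc h2) h1
  exact_mod_cast h3

theorem sieve {A : Set ℕ} {c C : ℝ} {x : ℕ → ℕ} (hc : 0 < c) (hx : StrictMono x)
    (hA : ∀ i, c * √(x i) ≤ ((below A (x i)).card : ℝ))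
    (hC : ∀ y : ℕ, ∑ n ∈ range y, (rep A n : ℝ) ^ 2 ≤ C * y) (P : Finset ℕ)
    (hP : ∀ p ∈ P, p.Prime) :
    ∑ p ∈ P, ((p : ℝ) / classes A p - 1) ^ 2 / p ≤ 4 * C / c ^ 4 := by
  classical
  obtain ⟨N, hN⟩ : ∃ N, N = ∏ p ∈ P, p := ⟨_, rfl⟩
  have hN0 : 0 < N := by
    rw [hN]
    exact Finset.prod_pos fun p hp => (hP p hp).pos
  obtain ⟨ζ, hζ⟩ := exists_prim hN0
  obtain ⟨Z, hZ⟩ : ∃ Z, Z = Subgroup.zpowers ζ := ⟨_, rfl⟩
  have hζZ : ζ ∈ Z := by rw [hZ]; exact Subgroup.mem_zpowers ζ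
  have hcount : (Z : Set Circle).Countable := by
    rw [hZ, Subgroup.coe_zpowers]
    exact Set.countable_range _
  obtain ⟨zs, hzs⟩ := hcount.exists_eq_range ⟨1, Z.one_mem⟩
  obtain ⟨ψ, l, hψ, hlim⟩ := Pool.Agent.Helper80.SP.exists_limitS A x zs
  have hex : ∀ z : Circle, ∃ v : ℂ, z ∈ Z →
      Tendsto (fun i => mean A (x (ψ i)) z) atTop (nhds v) := by
    intro z
    by_cases hz : z ∈ Z
    · have hz' : z ∈ Set.range zs := by rw [← hzs]; exact hz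
      obtain ⟨i, rfl⟩ := hz'
      exact ⟨l i, fun _ => hlim i⟩
    · exact ⟨0, fun h => absurd h hz⟩
  choose φ hφ using hex
  have hxψ : StrictMono fun i => x (ψ i) := hx.comp hψ
  have hpos : ∀ᶠ i in atTop, 0 < (below A (x (ψ i))).card := by
    filter_upwards [hxψ.tendsto_atTop.eventually_ge_atTop 1] with i hi
    have h1 := hA (ψ i)
    have h2 : 0 < √((x (ψ i) : ℕ) : ℝ) := Real.sqrt_pos.2 (by exact_mod_cast (by omega))
    have h3 : (0 : ℝ) < (below A (x (ψ i))).card := lt_of_lt_of_le (mul_pos hc h2) h1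
    exact_mod_cast h3
  -- the roots
  obtain ⟨rt, hrt⟩ : ∃ rt : ℕ → Circle, rt = fun p => ζ ^ (N / p) := ⟨_, rfl⟩
  have hdvd : ∀ p ∈ P, p ∣ N := fun p hp => by rw [hN]; exact Finset.dvd_prod_of_mem _ hp
  have hprim : ∀ p ∈ P, IsPrimitiveRoot (rt p) p := fun p hp => by
    rw [hrt]
    exact hζ.pow hN0 (Nat.div_mul_cancel (hdvd p hp)).symm
  have hrZ : ∀ p k, rt p ^ k ∈ Z := fun p k => by
    rw [hrt]
    exact Z.pow_mem (Z.pow_mem hζZ _) k
  obtain ⟨i1, hi1⟩ := hpos.exists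
  have hcl0 : ∀ p ∈ P, 0 < classes A p := fun p hp => by
    refine lt_of_lt_of_le ?_ (classes_ge (hP p hp).pos (x (ψ i1)))
    exact card_pos.2 ((card_pos.1 hi1).image _)
  have h1 : ∀ p ∈ P, ((p : ℝ) / classes A p - 1) ^ 2 / p ≤ ∑ k ∈ Ioo 0 p, ‖φ (rt p ^ k)‖ ^ 4 :=
    fun p hp => classes_bound (hP p hp).pos (hprim p hp).pow_eq_one hpos
      (fun k => hφ _ (hrZ p k)) (classes_ge (hP p hp).pos) (hcl0 p hp)
      (classes_le A (hP p hp).pos)
  refine (Finset.sum_le_sum h1).trans ?_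
  rw [Finset.sum_sigma']
  have hinj : Set.InjOn (fun v : (_ : ℕ) × ℕ => rt v.1 ^ v.2) (P.sigma fun p => Ioo 0 p) := by
    rintro ⟨p, k⟩ hv ⟨p', k'⟩ hv' h
    simp only [coe_sigma, Set.mem_sigma_iff, mem_coe, mem_Ioo] at hv hv' h
    have ord : ∀ q ∈ P, ∀ m, 0 < m → m < q → orderOf (rt q ^ m) = q := by
      intro q hq m hm hmq
      have h2 := (hprim q hq).pow_of_coprime m
        ((Nat.Prime.coprime_iff_not_dvd (hP q hq)).2
          (Nat.not_dvd_of_pos_of_lt hm hmq)).symm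
      exact h2.eq_orderOf.symm
    have hpp : p = p' := by
      rw [← ord p hv.1 k hv.2.1 hv.2.2, ← ord p' hv'.1 k' hv'.2.1 hv'.2.2, h]
    subst hpp
    have hkk := (hprim p hv.1).pow_inj hv.2.2 hv'.2.2 h
    rw [hkk]
  rw [← Finset.sum_image (f := fun z => ‖φ z‖ ^ 4) hinj]
  refine Pool.Agent.Helper80.SP.sum_bound Z (Filter.map (fun i => x (ψ i)) atTop)
    hxψ.tendsto_atTop A C c hc ?_ (Eventually.of_forall hC) φ (fun z hz => ?_) _ ?_
  · rw [eventually_map]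
    exact Eventually.of_forall fun i => hA (ψ i)
  · rw [tendsto_map'_iff]
    exact hφ z hz
  · intro z hz
    obtain ⟨v, _, rfl⟩ := mem_image.1 hz
    exact hrZ v.1 v.2

theorem classes_tendsto {A : Set ℕ} {c C : ℝ} {x : ℕ → ℕ} (hc : 0 < c) (hx : StrictMono x)
    (hA : ∀ i, c * √(x i) ≤ ((below A (x i)).card : ℝ))
    (hC : ∀ y : ℕ, ∑ n ∈ range y, (rep A n : ℝ) ^ 2 ≤ C * y) :
    Tendsto (fun q : ℕ => (classes A q : ℝ) / √q) atTop atTop := by
  classical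
  have hrt : ∀ q : ℕ, ∃ ζ : Circle, 0 < q → IsPrimitiveRoot ζ q := fun q => by
    rcases Nat.eq_zero_or_pos q with h | h
    · exact ⟨1, fun h2 => absurd h2 (by omega)⟩
    · obtain ⟨ζ, hζ⟩ := exists_prim h
      exact ⟨ζ, fun _ => hζ⟩
  choose rt hrt using hrt
  obtain ⟨Z, hZ⟩ : ∃ Z, Z = CommGroup.torsion Circle := ⟨_, rfl⟩
  have hcount : (Z : Set Circle).Countable := by
    refine (Set.countable_range fun v : ℕ × ℕ => rt v.1 ^ v.2).mono ?_
    intro z hz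
    rw [hZ] at hz
    have hz' : IsOfFinOrder z := hz
    have hn := hz'.orderOf_pos
    have h1 : (z : ℂ) ^ orderOf z = 1 := by
      rw [← Circle.coe_pow, pow_orderOf_eq_one, Circle.coe_one]
    have h2 : IsPrimitiveRoot ((rt (orderOf z) : Circle) : ℂ) (orderOf z) :=
      (hrt _ hn).map_of_injective (f := Circle.coeHom) Circle.coe_injective
    have : NeZero (orderOf z) := ⟨hn.ne'⟩
    obtain ⟨i, _, hi⟩ := h2.eq_pow_of_pow_eq_one h1
    refine ⟨(orderOf z, i), ?_⟩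
    apply Circle.ext
    show ((rt (orderOf z) ^ i : Circle) : ℂ) = z
    rw [Circle.coe_pow]
    exact hi
  have hrZ : ∀ q, 0 < q → ∀ k, rt q ^ k ∈ Z := fun q hq k => by
    refine Z.pow_mem ?_ k
    rw [hZ]
    exact (isOfFinOrder_iff_pow_eq_one.2 ⟨q, hq, (hrt q hq).pow_eq_one⟩ : IsOfFinOrder (rt q))
  obtain ⟨ψ, φ, hxψ, hφ, hpos, hs, _⟩ := exists_law Z hcount hc hx hA hC
  obtain ⟨i1, hi1⟩ := hpos.exists
  have hcl0 : ∀ q, 0 < q → 0 < classes A q := fun q hq => by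
    refine lt_of_lt_of_le ?_ (classes_ge hq (x (ψ i1)))
    exact card_pos.2 ((card_pos.1 hi1).image _)
  have hφ1 : ∀ z ∈ Z, ‖φ z‖ ≤ 1 := fun z hz =>
    le_of_tendsto (hφ z hz).norm (Eventually.of_forall fun i =>
      Pool.Agent.Helper80.SP.norm_mean_le A (x (ψ i)) z)
  rw [tendsto_atTop]
  intro K'
  obtain ⟨K, hK0, hKK⟩ : ∃ K : ℝ, 0 < K ∧ K' ≤ K := ⟨max K' 1, by positivity, le_max_left _ _⟩
  have hε : (0 : ℝ) < 1 / (4 * K ^ 2) := by positivity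
  obtain ⟨F, hF⟩ := summable_iff_vanishing_norm.1 hs (1 / (4 * K ^ 2)) hε
  have hq1 : Tendsto (fun q : ℕ => √(q : ℝ)) atTop atTop :=
    Real.tendsto_sqrt_atTop.comp tendsto_natCast_atTop_atTop
  filter_upwards [eventually_gt_atTop 0, hq1.eventually_gt_atTop (2 * K * F.card)] with q hq hqF
  refine hKK.trans ?_
  have hqR : (0 : ℝ) < q := by exact_mod_cast hq
  have hsq : 0 < √(q : ℝ) := Real.sqrt_pos.2 hqR
  have hsq2 : √(q : ℝ) * √q = q := Real.mul_self_sqrt hqR.le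
  by_contra hlt
  rw [not_le, div_lt_iff₀ hsq] at hlt
  have hν : (0 : ℝ) < classes A q := by exact_mod_cast hcl0 q hq
  have h1 := sq_bound hq (hrt q hq).pow_eq_one hpos (fun k => hφ _ (hrZ q hq k)) (classes_ge hq)
    (hcl0 q hq)
  -- the sum as a sum over the group
  obtain ⟨G, hG⟩ : ∃ G : Finset Z, G = (range q).attach.image
    (fun k : {y // y ∈ range q} => (⟨rt q ^ (k : ℕ), hrZ q hq k⟩ : Z)) := ⟨_, rfl⟩
  have h2 : ∑ k ∈ range q, ‖φ (rt q ^ k)‖ ^ 2 = ∑ z ∈ G, ‖φ z‖ ^ 2 := by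
    rw [hG, Finset.sum_image, ← Finset.sum_attach (range q)]
    intro k _ k' _ h
    have h3 : rt q ^ (k : ℕ) = rt q ^ (k' : ℕ) := congrArg Subtype.val h
    exact Subtype.ext ((hrt q hq).pow_inj (mem_range.1 k.2) (mem_range.1 k'.2) h3)
  have h3 : ∑ z ∈ G, ‖φ z‖ ^ 2 ≤ F.card + √(q : ℝ) / (2 * K) := by
    rw [← Finset.sum_sdiff (inter_subset_left : G ∩ F ⊆ G), add_comm]
    refine add_le_add ?_ ?_
    · refine (Finset.sum_le_sum (g := fun _ => (1 : ℝ)) fun z _ => ?_).trans ?_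
      · exact pow_le_one₀ (norm_nonneg _) (hφ1 z z.2)
      · rw [sum_const, nsmul_eq_mul, mul_one]
        exact_mod_cast card_le_card inter_subset_right
    · have h4 : ∑ z ∈ G \ (G ∩ F), ‖φ z‖ ^ 4 ≤ 1 / (4 * K ^ 2) := by
        have h5 := hF (G \ (G ∩ F)) (by
          rw [disjoint_left]
          intro z hz hzF
          rw [Finset.mem_sdiff, mem_inter] at hz
          exact hz.2 ⟨hz.1, hzF⟩)
        exact (le_abs_self _).trans h5.le
      have h6 : (∑ z ∈ G \ (G ∩ F), ‖φ z‖ ^ 2) ^ 2 ≤ q * (1 / (4 * K ^ 2)) := by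
        refine (sq_sum_le_card_mul_sum_sq (s := G \ (G ∩ F))
          (f := fun z : Z => ‖φ z‖ ^ 2)).trans ?_
        have h7 : ∀ z : Z, (‖φ z‖ ^ 2) ^ 2 = ‖φ z‖ ^ 4 := fun z => by ring
        simp only [h7]
        refine mul_le_mul ?_ h4 (Finset.sum_nonneg fun z _ => by positivity) hqR.le
        have h8 : (G \ (G ∩ F)).card ≤ q := by
          refine (card_le_card sdiff_subset).trans ?_
          rw [hG]
          refine card_image_le.trans ?_
          rw [card_attach, card_range]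
        exact_mod_cast h8
      have h9 : q * (1 / (4 * K ^ 2)) = (√(q : ℝ) / (2 * K)) ^ 2 := by
        rw [div_pow, sq √(q : ℝ), hsq2]
        ring
      rw [h9] at h6
      exact (abs_le_of_sq_le_sq' h6 (by positivity)).2
  rw [h2] at h1
  have h4 := h1.trans h3
  have h5 : (F.card : ℝ) < √(q : ℝ) / (2 * K) := by
    rw [lt_div_iff₀ (by positivity)]
    linarith
  have h6 : √(q : ℝ) / K < q / classes A q := by
    rw [div_lt_div_iff₀ hK0 hν]
    calc √(q : ℝ) * classes A q < √(q : ℝ) * (K * √q) := mul_lt_mul_of_pos_left hlt hsq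
      _ = (√(q : ℝ) * √q) * K := by ring
      _ = q * K := by rw [hsq2]
  have h7 : √(q : ℝ) / K = √(q : ℝ) / (2 * K) + √(q : ℝ) / (2 * K) := by
    field_simp
    ring
  linarith

end Pool.Agent.Helper38.JB
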