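import Pool.Agent.Helper38.JB.Law2

/-!
Good translates of the parabolas: all cuts, and few elements in a given set.
-/

set_option autoImplicit false

open Finset

namespace Pool.Agent.Helper38.JB

section

variable {p : ℕ} [Fact p.Prime]

local instance : NeZero p := ⟨(Fact.out : p.Prime).ne_zero⟩

theorem cutlaw (hp2 : (2 : ZMod p) ≠ 0) {k : ZMod p} (hk : k ≠ 0) (z : Circle) (hz : z ≠ 1)
    (c : ℕ) : ∑ a : ZMod p, ∑ b : ZMod p,
      ‖∑ x ∈ (range p).filter (fun x => yc k a b x < c), (z : ℂ) ^ el k a b x‖ ^ 2 ≤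
      (p : ℝ) ^ 2 * (p + 4 / ‖1 - (z : ℂ)‖ ^ 2) := by
  classical
  have h5 := law2 hp2 hk (fun y : ZMod p => if y.val < c then ((z : ℂ) ^ (2 * p)) ^ y.val else 0)
    (fun y => by
      split_ifs
      · rw [norm_pow, norm_pow, Circle.norm_coe, one_pow, one_pow]
      · rw [norm_zero]; exact zero_le_one)
    (fun x => (z : ℂ) ^ x) (fun x => by rw [norm_pow, Circle.norm_coe, one_pow])
  have h6 : ∀ a b : ZMod p, ∑ x ∈ (range p).filter (fun x => yc k a b x < c),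
      (z : ℂ) ^ el k a b x = ∑ x ∈ range p, (z : ℂ) ^ x *
        (if (k * ((x : ZMod p) - a) ^ 2 + b).val < c then
          ((z : ℂ) ^ (2 * p)) ^ (k * ((x : ZMod p) - a) ^ 2 + b).val else 0) := by
    intro a b
    rw [sum_filter]
    refine sum_congr rfl fun x _ => ?_
    unfold el yc
    split_ifs
    · rw [pow_add, pow_mul]
    · rw [mul_zero]
  simp_rw [h6]
  refine h5.trans ?_
  have hz1 : (z : ℂ) ≠ 1 := by
    intro h
    exact hz (by ext; rw [h, Circle.coe_one])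
  have hz2 : 0 < ‖1 - (z : ℂ)‖ := norm_pos_iff.2 (sub_ne_zero.2 (Ne.symm hz1))
  have h7 : ‖∑ x ∈ range p, (z : ℂ) ^ x‖ ≤ 2 / ‖1 - (z : ℂ)‖ := by
    rw [le_div_iff₀ hz2, ← norm_mul, mul_comm, mul_neg_geom_sum]
    refine (norm_sub_le _ _).trans ?_
    rw [norm_one, norm_pow, Circle.norm_coe, one_pow]
    norm_num
  have h8 : ‖∑ x ∈ range p, (z : ℂ) ^ x‖ ^ 2 ≤ 4 / ‖1 - (z : ℂ)‖ ^ 2 := by
    have := pow_le_pow_left₀ (norm_nonneg _) h7 2
    rw [div_pow] at this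
    norm_num at this ⊢
    exact this
  have h9 := mul_le_mul_of_nonneg_left h8 (by positivity : (0 : ℝ) ≤ p ^ 2)
  have : (p : ℝ) ^ 2 * (p + 4 / ‖1 - (z : ℂ)‖ ^ 2) = (p : ℝ) ^ 3 +
      p ^ 2 * (4 / ‖1 - (z : ℂ)‖ ^ 2) := by ring
  rw [this]
  linarith

theorem overlap (k : ZMod p) (D : Finset ℕ) (σ : ℕ) : ∑ a : ZMod p, ∑ b : ZMod p,
    ((((par k a b).image (fun v => v + σ)) ∩ D).card : ℝ) ≤ p * D.card := by
  classical
  have h1 : ∀ a : ZMod p, ∑ b : ZMod p, (((par k a b).image (fun v => v + σ)) ∩ D).card ≤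
      D.card := by
    intro a
    rw [← card_sigma]
    refine card_le_card_of_injOn (fun q => q.2) ?_ ?_
    · intro q hq
      exact (mem_inter.1 (mem_sigma.1 (mem_coe.1 hq)).2).2
    · rintro ⟨b, v⟩ hq ⟨b', v'⟩ hq' h
      simp only at h
      subst h
      have g1 := (mem_inter.1 (mem_sigma.1 (mem_coe.1 hq)).2).1
      have g2 := (mem_inter.1 (mem_sigma.1 (mem_coe.1 hq')).2).1
      obtain ⟨w, hw, e1⟩ := mem_image.1 g1
      obtain ⟨w', hw', e2⟩ := mem_image.1 g2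
      obtain ⟨x, hx, rfl⟩ := mem_image.1 hw
      obtain ⟨x', hx', rfl⟩ := mem_image.1 hw'
      rw [mem_range] at hx hx'
      simp only at e1 e2
      have e3 : el k a b x = el k a b' x' := by omega
      have e4 := digits (by omega) (by omega) e3
      have e5 : yc k a b x = yc k a b' x := by
        rw [e4.2, e4.1]
      have e6 : k * ((x : ZMod p) - a) ^ 2 + b = k * ((x : ZMod p) - a) ^ 2 + b' :=
        ZMod.val_injective p e5
      have : b = b' := add_left_cancel e6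
      subst this
      rfl
  have h2 : ∑ a : ZMod p, ∑ b : ZMod p, (((par k a b).image (fun v => v + σ)) ∩ D).card ≤
      p * D.card := by
    refine (sum_le_sum fun a _ => h1 a).trans (le_of_eq ?_)
    rw [sum_const, card_univ, ZMod.card, smul_eq_mul]
  exact_mod_cast h2

theorem exShift2 (hp2 : (2 : ZMod p) ≠ 0) (κ : Fin 3 → ZMod p) (hκ : ∀ i, κ i ≠ 0)
    (S : Finset Circle) (hS : ∀ z ∈ S, z ≠ 1) (C D T : Finset ℕ) : ∃ a b : ZMod p,
      (∀ z ∈ S, ∀ i, ∀ c ∈ C,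
        ‖∑ x ∈ (range p).filter (fun x => yc (κ i) a b x < c), (z : ℂ) ^ el (κ i) a b x‖ ^ 2 ≤
          2 * (3 * C.card * ∑ z ∈ S, ((p : ℝ) + 4 / ‖1 - (z : ℂ)‖ ^ 2) + 1)) ∧
      ∀ i, ∀ σ ∈ T, ((((par (κ i) a b).image (fun v => v + σ)) ∩ D).card : ℝ) ≤
        2 * (3 * T.card * D.card / p + 1) := by
  classical
  have hp0 : (0 : ℝ) < p := by exact_mod_cast (Fact.out : p.Prime).pos
  obtain ⟨M1, hM1⟩ : ∃ M1 : ℝ, M1 = 3 * C.card * ∑ z ∈ S, ((p : ℝ) + 4 / ‖1 - (z : ℂ)‖ ^ 2) + 1 :=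
    ⟨_, rfl⟩
  obtain ⟨M2, hM2⟩ : ∃ M2 : ℝ, M2 = 3 * (T.card : ℝ) * D.card / p + 1 := ⟨_, rfl⟩
  have hs0 : 0 ≤ ∑ z ∈ S, ((p : ℝ) + 4 / ‖1 - (z : ℂ)‖ ^ 2) := sum_nonneg fun _ _ => by positivity
  have hM1p : 0 < M1 := by rw [hM1]; positivity
  have hM2p : 0 < M2 := by rw [hM2]; positivity
  obtain ⟨F1, hF1⟩ : ∃ F1 : ZMod p → ZMod p → ℝ, ∀ a b, F1 a b = ∑ z ∈ S, ∑ i, ∑ c ∈ C,
      ‖∑ x ∈ (range p).filter (fun x => yc (κ i) a b x < c), (z : ℂ) ^ el (κ i) a b x‖ ^ 2 :=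
    ⟨_, fun _ _ => rfl⟩
  obtain ⟨F2, hF2⟩ : ∃ F2 : ZMod p → ZMod p → ℝ, ∀ a b, F2 a b = ∑ i, ∑ σ ∈ T,
      ((((par (κ i) a b).image (fun v => v + σ)) ∩ D).card : ℝ) := ⟨_, fun _ _ => rfl⟩
  have hF10 : ∀ a b, 0 ≤ F1 a b := fun a b => by
    rw [hF1]
    exact sum_nonneg fun _ _ => sum_nonneg fun _ _ => sum_nonneg fun _ _ => by positivity
  have hF20 : ∀ a b, 0 ≤ F2 a b := fun a b => by
    rw [hF2]
    exact sum_nonneg fun _ _ => sum_nonneg fun _ _ => Nat.cast_nonneg _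
  have hsum1 : ∑ a : ZMod p, ∑ b : ZMod p, F1 a b ≤ p ^ 2 * (M1 - 1) := by
    have e : ∑ a : ZMod p, ∑ b : ZMod p, F1 a b = ∑ z ∈ S, ∑ i, ∑ c ∈ C, ∑ a : ZMod p,
        ∑ b : ZMod p, ‖∑ x ∈ (range p).filter (fun x => yc (κ i) a b x < c),
          (z : ℂ) ^ el (κ i) a b x‖ ^ 2 := by
      simp_rw [hF1]
      rw [sum_congr rfl fun a _ => sum_comm, sum_comm]
      refine sum_congr rfl fun z _ => ?_
      rw [sum_congr rfl fun a _ => sum_comm, sum_comm]
      refine sum_congr rfl fun i _ => ?_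
      rw [sum_congr rfl fun a _ => sum_comm, sum_comm]
    rw [e]
    calc _ ≤ ∑ z ∈ S, ∑ _i : Fin 3, ∑ _c ∈ C, (p : ℝ) ^ 2 * (p + 4 / ‖1 - (z : ℂ)‖ ^ 2) :=
          sum_le_sum fun z hz => sum_le_sum fun i _ => sum_le_sum fun c _ =>
            cutlaw hp2 (hκ i) z (hS z hz) c
      _ = p ^ 2 * (M1 - 1) := by
          rw [hM1, add_sub_cancel_right, mul_sum, mul_sum]
          refine sum_congr rfl fun z _ => ?_
          rw [sum_const, sum_const, card_univ, Fintype.card_fin]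
          simp only [nsmul_eq_mul]
          push_cast
          ring
  have hsum2 : ∑ a : ZMod p, ∑ b : ZMod p, F2 a b ≤ p ^ 2 * (M2 - 1) := by
    have e : ∑ a : ZMod p, ∑ b : ZMod p, F2 a b = ∑ i, ∑ σ ∈ T, ∑ a : ZMod p,
        ∑ b : ZMod p, ((((par (κ i) a b).image (fun v => v + σ)) ∩ D).card : ℝ) := by
      simp_rw [hF2]
      rw [sum_congr rfl fun a _ => sum_comm, sum_comm]
      refine sum_congr rfl fun i _ => ?_
      rw [sum_congr rfl fun a _ => sum_comm, sum_comm]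
    rw [e]
    calc _ ≤ ∑ _i : Fin 3, ∑ _σ ∈ T, (p : ℝ) * D.card :=
          sum_le_sum fun i _ => sum_le_sum fun σ _ => overlap (κ i) D σ
      _ = p ^ 2 * (M2 - 1) := by
          rw [hM2, add_sub_cancel_right, sum_const, sum_const, card_univ, Fintype.card_fin]
          simp only [nsmul_eq_mul]
          push_cast
          field_simp
  -- the mean
  obtain ⟨a, b, hab⟩ : ∃ a b : ZMod p, F1 a b / (2 * M1) + F2 a b / (2 * M2) < 1 := by
    by_contra hcon
    push Not at hcon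
    have h1 : ∑ _a : ZMod p, ∑ _b : ZMod p, (1 : ℝ) ≤
        ∑ a : ZMod p, ∑ b : ZMod p, (F1 a b / (2 * M1) + F2 a b / (2 * M2)) :=
      sum_le_sum fun a _ => sum_le_sum fun b _ => hcon a b
    have h2 : ∑ a : ZMod p, ∑ b : ZMod p, (F1 a b / (2 * M1) + F2 a b / (2 * M2)) =
        (∑ a : ZMod p, ∑ b : ZMod p, F1 a b) / (2 * M1) +
          (∑ a : ZMod p, ∑ b : ZMod p, F2 a b) / (2 * M2) := by
      simp_rw [sum_add_distrib, sum_div]
    have h3 : ∑ _a : ZMod p, ∑ _b : ZMod p, (1 : ℝ) = p ^ 2 := by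
      rw [sum_const, sum_const, card_univ, ZMod.card]
      simp only [nsmul_eq_mul]
      ring
    rw [h2, h3] at h1
    have h4 : (∑ a : ZMod p, ∑ b : ZMod p, F1 a b) / (2 * M1) < p ^ 2 / 2 := by
      rw [div_lt_div_iff₀ (by positivity) (by norm_num)]
      have : (0 : ℝ) < p ^ 2 := by positivity
      nlinarith
    have h5 : (∑ a : ZMod p, ∑ b : ZMod p, F2 a b) / (2 * M2) < p ^ 2 / 2 := by
      rw [div_lt_div_iff₀ (by positivity) (by norm_num)]
      have : (0 : ℝ) < p ^ 2 := by positivity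
      nlinarith
    linarith
  refine ⟨a, b, ?_, ?_⟩
  · intro z hz i c hc
    rw [← hM1]
    have h1 : F1 a b ≤ 2 * M1 := by
      have h2 : F1 a b / (2 * M1) < 1 := by
        have : 0 ≤ F2 a b / (2 * M2) := div_nonneg (hF20 a b) (by positivity)
        linarith
      rw [div_lt_one (by positivity)] at h2
      exact h2.le
    refine le_trans ?_ h1
    rw [hF1]
    refine le_trans ?_ (single_le_sum (f := fun z : Circle => ∑ i, ∑ c ∈ C,
      ‖∑ x ∈ (range p).filter (fun x => yc (κ i) a b x < c), (z : ℂ) ^ el (κ i) a b x‖ ^ 2)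
      (fun _ _ => sum_nonneg fun _ _ => sum_nonneg fun _ _ => by positivity) hz)
    refine le_trans ?_ (single_le_sum (f := fun i => ∑ c ∈ C,
      ‖∑ x ∈ (range p).filter (fun x => yc (κ i) a b x < c), (z : ℂ) ^ el (κ i) a b x‖ ^ 2)
      (fun _ _ => sum_nonneg fun _ _ => by positivity) (mem_univ i))
    exact single_le_sum (f := fun c =>
      ‖∑ x ∈ (range p).filter (fun x => yc (κ i) a b x < c), (z : ℂ) ^ el (κ i) a b x‖ ^ 2)
      (fun _ _ => by positivity) hc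
  · intro i σ hσ
    rw [← hM2]
    have h1 : F2 a b ≤ 2 * M2 := by
      have h2 : F2 a b / (2 * M2) < 1 := by
        have : 0 ≤ F1 a b / (2 * M1) := div_nonneg (hF10 a b) (by positivity)
        linarith
      rw [div_lt_one (by positivity)] at h2
      exact h2.le
    refine le_trans ?_ h1
    rw [hF2]
    refine le_trans ?_ (single_le_sum (f := fun i => ∑ σ ∈ T,
      ((((par (κ i) a b).image (fun v => v + σ)) ∩ D).card : ℝ))
      (fun _ _ => sum_nonneg fun _ _ => Nat.cast_nonneg _) (mem_univ i))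
    exact single_le_sum (f := fun σ => ((((par (κ i) a b).image (fun v => v + σ)) ∩ D).card : ℝ))
      (fun _ _ => Nat.cast_nonneg _) hσ

end

end Pool.Agent.Helper38.JB
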