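import Pool.Agent.Helper38.JB.Base

/-!
Bases are thick.
-/

set_option autoImplicit false

open Finset Filter

namespace Pool.Agent.Helper38.JB

open Pool.Agent.Helper25.RC (below rep mem_below)

theorem basis_thick {A : Set ℕ} {n0 : ℕ} (h : ∀ n, n0 ≤ n → 1 ≤ rep A n) {x : ℕ}
    (hx : 2 * n0 ≤ x) : 1 / 2 * √(x : ℝ) ≤ (below A x).card := by
  classical
  have h1 : Ico n0 x ⊆ (below A x ×ˢ below A x).image (fun q => q.1 + q.2) := by
    intro n hn
    obtain ⟨h2, h3⟩ := mem_Ico.1 hn
    have h4 : 0 < rep A n := h n h2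
    unfold Pool.Agent.Helper25.RC.rep at h4
    obtain ⟨q, hq⟩ := card_pos.1 h4
    obtain ⟨h5, h6, h7⟩ := mem_filter.1 hq
    rw [HasAntidiagonal.mem_antidiagonal] at h5
    exact mem_image.2 ⟨q, mem_product.2 ⟨mem_below.2 ⟨by omega, h6⟩, mem_below.2 ⟨by omega, h7⟩⟩, h5⟩
  have h2 : x - n0 ≤ (below A x).card * (below A x).card := by
    have := card_le_card h1
    rw [Nat.card_Ico] at this
    refine this.trans (card_image_le.trans ?_)
    rw [card_product]
  have h3 : x ≤ 2 * ((below A x).card * (below A x).card) := by omega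
  have h4 : (x : ℝ) ≤ 2 * ((below A x).card * (below A x).card) := by exact_mod_cast h3
  have h5 : √(x : ℝ) ≤ 2 * (below A x).card := by
    refine Real.sqrt_le_iff.2 ⟨by positivity, ?_⟩
    have : (0 : ℝ) ≤ ((below A x).card : ℝ) * (below A x).card := by positivity
    nlinarith
  linarith

end Pool.Agent.Helper38.JB
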