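import Pool.Agent.Helper80.SP.Scale
import Pool.Agent.Helper38.JB.Thick
import Pool.Agent.Helper38.JB.Sieve
import Pool.Agent.Helper38.JB.Base3
import Pool.Agent.Helper80.JB.All
import Pool.Agent.Helper80.JB.OneY

/-!
# Thick sets with bounded mean square of representations, and residue classes
-/

set_option autoImplicit false

open Finset Filter
open scoped ComplexConjugate ComplexOrder

namespace Pool.Agent.Helper38.JB.Text10

open Pool.Agent.Helper80.SP

/-- `r(n)`: the number of ordered pairs of elements of `A` with sum `n` -/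
noncomputable def rep (A : Set ℕ) (n : ℕ) : ℕ :=
  {p : ℕ × ℕ | p.1 ∈ A ∧ p.2 ∈ A ∧ p.1 + p.2 = n}.ncard

open Classical in
/-- the elements of `A` below `x` -/
noncomputable def below (A : Set ℕ) (x : ℕ) : Finset ℕ := {a ∈ range x | a ∈ A}

/-- the number of residue classes modulo `q` which `A` meets -/
noncomputable def classes (A : Set ℕ) (q : ℕ) : ℕ := ((fun a => a % q) '' A).ncard

/-- the mean of `z ^ a` over the elements `a` of `A` below `x` -/
noncomputable def mean (A : Set ℕ) (x : ℕ) (z : Circle) : ℂ :=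
  (∑ a ∈ below A x, (z : ℂ) ^ a) / #(below A x)

/-- `φ` is positive definite on the group `Z` -/
def PosDef (Z : Subgroup Circle) (φ : Circle → ℂ) : Prop :=
  ∀ S : Finset Circle, (∀ s ∈ S, s ∈ Z) → ∀ c : Circle → ℂ,
    0 ≤ ∑ s ∈ S, ∑ t ∈ S, c s * conj (c t) * φ (s / t)

open Classical in
/-- Let `|A ∩ [0, x)| ≥ c √x` for infinitely many `x`, where `c > 0`, and suppose that the mean
square of `rep A n` over `n < x` is bounded. Then `classes A q / √q` tends to infinity, and the sum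
of `(p / classes A p - 1) ^ 2 / p` over the primes `p` converges.

For a countable subgroup `Z` of the unit circle, the limits of the means `mean A x z`, `z ∈ Z`, for
the sets `A` with `|A ∩ [0, x)| ≥ c √x` for `x ≥ 2` and bounded mean square are exactly the positive
definite functions `φ` with `φ 1 = 1` and `∑ z : Z, ‖φ z‖ ^ 4 < ∞`; and if `φ - t δ` is positive
definite for some `t > 0`, where `δ` is the function `1` at `1` and `0` elsewhere, the same condition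
describes the limits for the sets with `rep A n ≥ 1` for all large `n` and bounded mean square. -/
theorem main :
    (∀ A : Set ℕ, (∃ c : ℝ, 0 < c ∧ ∃ᶠ x : ℕ in atTop, c * √x ≤ #(below A x)) →
      (∃ C : ℝ, ∀ x : ℕ, ∑ n ∈ range x, (rep A n : ℝ) ^ 2 ≤ C * x) →
      Tendsto (fun q : ℕ => (classes A q : ℝ) / √q) atTop atTop ∧
        Summable fun p : Nat.Primes => ((p : ℝ) / classes A p - 1) ^ 2 / p) ∧
    ∀ Z : Subgroup Circle, (Z : Set Circle).Countable → ∀ φ : Circle → ℂ,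
      ((∃ A : Set ℕ, (∃ c : ℝ, 0 < c ∧ ∀ x : ℕ, 2 ≤ x → c * √x ≤ #(below A x)) ∧
          (∃ C : ℝ, ∀ x : ℕ, ∑ n ∈ range x, (rep A n : ℝ) ^ 2 ≤ C * x) ∧
          ∀ z ∈ Z, Tendsto (fun x => mean A x z) atTop (nhds (φ z))) ↔
        φ 1 = 1 ∧ PosDef Z φ ∧ Summable fun z : Z => ‖φ z‖ ^ 4) ∧
      ∀ t : ℝ, 0 < t → PosDef Z (fun z => φ z - if z = 1 then (t : ℂ) else 0) →
        ((∃ A : Set ℕ, (∀ᶠ n in atTop, 1 ≤ rep A n) ∧
            (∃ C : ℝ, ∀ x : ℕ, ∑ n ∈ range x, (rep A n : ℝ) ^ 2 ≤ C * x) ∧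
            ∀ z ∈ Z, Tendsto (fun x => mean A x z) atTop (nhds (φ z))) ↔
          φ 1 = 1 ∧ Summable fun z : Z => ‖φ z‖ ^ 4) := by
  have hrep : ∀ (A : Set ℕ) (y : ℕ), ∑ n ∈ range y, (Pool.Agent.Helper25.RC.rep A n : ℝ) ^ 2 =
      ∑ n ∈ range y, (rep A n : ℝ) ^ 2 := fun A y =>
    sum_congr rfl fun n _ => by rw [Pool.Agent.Helper80.RC.rep_eq]; rfl
  have hr : ∀ (A : Set ℕ) (n : ℕ), Pool.Agent.Helper25.RC.rep A n = rep A n := fun A n => by
    rw [Pool.Agent.Helper80.RC.rep_eq]; rfl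
  refine ⟨fun A hA hK => ?_, fun Z hZ φ => ?_⟩
  · obtain ⟨c, hc, hA⟩ := hA
    obtain ⟨C, hC⟩ := hK
    obtain ⟨x, hx, hAx⟩ := extraction_of_frequently_atTop hA
    have hK' : ∀ y : ℕ, ∑ n ∈ range y, (Pool.Agent.Helper25.RC.rep A n : ℝ) ^ 2 ≤ C * y :=
      fun y => by rw [hrep]; exact hC y
    refine ⟨Pool.Agent.Helper38.JB.classes_tendsto hc hx hAx hK', ?_⟩
    refine summable_of_sum_le (c := 4 * C / c ^ 4) (fun p => by positivity) fun P => ?_
    have h := Pool.Agent.Helper38.JB.sieve hc hx hAx hK' (P.image fun p : Nat.Primes => (p : ℕ))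
      (fun p hp => by
        obtain ⟨q, _, rfl⟩ := Finset.mem_image.1 hp
        exact q.2)
    have h2 := Finset.sum_image (s := P) (g := fun p : Nat.Primes => (p : ℕ))
      (f := fun p : ℕ => ((p : ℝ) / Pool.Agent.Helper38.JB.classes A p - 1) ^ 2 / p)
      (fun p _ q _ h => Nat.Primes.coe_nat_injective h)
    exact (le_of_eq h2.symm).trans h
  have hnec : ∀ (A : Set ℕ) (c C : ℝ), 0 < c → (∀ᶠ x : ℕ in atTop, c * √x ≤ #(below A x)) →
      (∀ y : ℕ, ∑ n ∈ range y, (rep A n : ℝ) ^ 2 ≤ C * y) →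
      (∀ z ∈ Z, Tendsto (fun x => mean A x z) atTop (nhds (φ z))) →
      φ 1 = 1 ∧ PosDef Z φ ∧ (Summable fun z : Z => ‖φ z‖ ^ 4) := by
    intro A c C hc hA hK hlim
    obtain ⟨a1, a2, a3, _⟩ := necS' Z atTop le_rfl A C c hc hA
      (Eventually.of_forall fun y => by rw [hrep]; exact hK y) φ hlim
    exact ⟨a1, a2, a3⟩
  refine ⟨⟨?_, ?_⟩, fun t ht hpt => ⟨?_, ?_⟩⟩
  · rintro ⟨A, ⟨c, hc, hA⟩, ⟨C, hC⟩, hlim⟩
    exact hnec A c C hc (eventually_atTop.2 ⟨2, hA⟩) hC hlim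
  · rintro ⟨h1, hpd, hs⟩
    obtain ⟨A, c, C, hc, h2, h3, h4⟩ := suffS oneScale_all Z hZ φ h1 hpd hs
    exact ⟨A, ⟨c, hc, h2⟩, ⟨C, fun x => by rw [← hrep]; exact h3 x⟩, h4⟩
  · rintro ⟨A, hb, ⟨C, hC⟩, hlim⟩
    obtain ⟨n0, hn0⟩ := eventually_atTop.1 hb
    obtain ⟨a1, _, a3⟩ := hnec A (1 / 2) C (by norm_num)
      (eventually_atTop.2 ⟨2 * n0, fun x hx => Pool.Agent.Helper38.JB.basis_thick (n0 := n0)
        (fun n hn => by rw [hr]; exact hn0 n hn) hx⟩) hC hlim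
    exact ⟨a1, a3⟩
  · rintro ⟨h1, hs⟩
    obtain ⟨J, K, _, hJ⟩ := Pool.Agent.Helper38.JB.base3 Z hZ
    obtain ⟨A, c, C, hc, hb, hd, hC, hlim⟩ := Pool.Agent.Helper80.JB.all_x
      Pool.Agent.Helper80.JB.oneY Z hZ hJ φ h1 hs t ht hpt
    exact ⟨A, hb.mono fun n hn => by rw [← hr]; exact hn,
      ⟨C, fun y => by rw [← hrep]; exact hC y⟩, hlim⟩

end Pool.Agent.Helper38.JB.Text10
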