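import Pool.Agent.Helper80.SP.Scale
import Pool.Agent.Helper38.JB.Thick
import Pool.Agent.Helper38.JB.Sieve
import Pool.Agent.Helper38.JB.Base3
import Pool.Agent.Helper80.JB.All
import Pool.Agent.Helper80.JB.OneY

/-!
# The Bohr spectra of thick sets with bounded mean square of representations
-/

set_option autoImplicit false

open Finset Filter
open scoped ComplexConjugate ComplexOrder

namespace Pool.Agent.Helper38.JB.Text8

open Pool.Agent.Helper80.SP

/-- `r(n)`: the number of ordered pairs of elements of `A` with sum `n` -/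
noncomputable def rep (A : Set ℕ) (n : ℕ) : ℕ :=
  {p : ℕ × ℕ | p.1 ∈ A ∧ p.2 ∈ A ∧ p.1 + p.2 = n}.ncard

open Classical in
/-- the elements of `A` below `x` -/
noncomputable def below (A : Set ℕ) (x : ℕ) : Finset ℕ := {a ∈ range x | a ∈ A}

/-- the mean of `z ^ a` over the elements `a` of `A` below `x` -/
noncomputable def mean (A : Set ℕ) (x : ℕ) (z : Circle) : ℂ :=
  (∑ a ∈ below A x, (z : ℂ) ^ a) / #(below A x)

/-- `φ` is positive definite on the group `Z` -/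
def PosDef (Z : Subgroup Circle) (φ : Circle → ℂ) : Prop :=
  ∀ S : Finset Circle, (∀ s ∈ S, s ∈ Z) → ∀ c : Circle → ℂ,
    0 ≤ ∑ s ∈ S, ∑ t ∈ S, c s * conj (c t) * φ (s / t)

/-- the number of residue classes modulo `q` which `A` meets -/
noncomputable def classes (A : Set ℕ) (q : ℕ) : ℕ := ((fun a => a % q) '' A).ncard

open Classical in
/-- Let `|A ∩ [0, x)| ≥ c √x` for infinitely many `x` and `∑ n < y, rep A n ^ 2 ≤ C y` for all `y`.
Then `classes A q / √q` tends to infinity, and the sum of `(p / classes A p - 1) ^ 2 / p` over the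
primes `p` is at most `4 C / c ^ 4`.

Let `Z` be a countable subgroup of the unit circle and `δ` the function which is `1` at `1` and
`0` elsewhere. The functions `φ` on `Z` which are the limits of the means `mean A x z` for some set
`A` with `|A ∩ [0, x)| ≥ c √x` for all `x ≥ 2` and `∑ n < x, rep A n ^ 2 ≤ C x` for all `x` are
exactly the positive definite `φ` with `φ 1 = 1` and `∑ z : Z, ‖φ z‖ ^ 4 < ∞`, and the same
functions are obtained if the lower bound for `A` and the limits are only required along a sequence.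
If `φ - t δ` is positive definite for some `t > 0`, nothing changes if `A` is required to have
`rep A n ≥ 1` for all large `n`. Such limits exist along a subsequence, and the sum is at most
`4 C / c ^ 4`. -/
theorem main :
    -- sets in few residue classes
    (∀ (A : Set ℕ) (c C : ℝ) (x : ℕ → ℕ), 0 < c → StrictMono x →
      (∀ i, c * √(x i) ≤ #(below A (x i))) →
      (∀ y : ℕ, ∑ n ∈ range y, (rep A n : ℝ) ^ 2 ≤ C * y) →
      Tendsto (fun q : ℕ => (classes A q : ℝ) / √q) atTop atTop ∧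
        ∀ P : Finset ℕ, (∀ p ∈ P, p.Prime) →
          ∑ p ∈ P, ((p : ℝ) / classes A p - 1) ^ 2 / p ≤ 4 * C / c ^ 4) ∧
    ∀ Z : Subgroup Circle, (Z : Set Circle).Countable →
    -- the possible limits
    (∀ φ : Circle → ℂ,
      [ (∃ (A : Set ℕ) (c C : ℝ), 0 < c ∧ (∀ x : ℕ, 2 ≤ x → c * √x ≤ #(below A x)) ∧
          (∀ x : ℕ, ∑ n ∈ range x, (rep A n : ℝ) ^ 2 ≤ C * x) ∧
          ∀ z ∈ Z, Tendsto (fun x => mean A x z) atTop (nhds (φ z))),
        (∃ (A : Set ℕ) (c C : ℝ) (x : ℕ → ℕ), 0 < c ∧ StrictMono x ∧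
          (∀ i, c * √(x i) ≤ #(below A (x i))) ∧
          (∀ y : ℕ, ∑ n ∈ range y, (rep A n : ℝ) ^ 2 ≤ C * y) ∧
          ∀ z ∈ Z, Tendsto (fun i => mean A (x i) z) atTop (nhds (φ z))),
        (φ 1 = 1 ∧ PosDef Z φ ∧ Summable fun z : Z => ‖φ z‖ ^ 4) ].TFAE) ∧
    -- bases
    (∀ (φ : Circle → ℂ) (t : ℝ), 0 < t →
      PosDef Z (fun z => φ z - if z = 1 then (t : ℂ) else 0) →
      [ (∃ (A : Set ℕ) (c C : ℝ), 0 < c ∧ (∀ᶠ n in atTop, 1 ≤ rep A n) ∧
          (∀ x : ℕ, 2 ≤ x → c * √x ≤ #(below A x)) ∧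
          (∀ x : ℕ, ∑ n ∈ range x, (rep A n : ℝ) ^ 2 ≤ C * x) ∧
          ∀ z ∈ Z, Tendsto (fun x => mean A x z) atTop (nhds (φ z))),
        (∃ (A : Set ℕ) (C : ℝ) (x : ℕ → ℕ), StrictMono x ∧ (∀ᶠ n in atTop, 1 ≤ rep A n) ∧
          (∀ y : ℕ, ∑ n ∈ range y, (rep A n : ℝ) ^ 2 ≤ C * y) ∧
          ∀ z ∈ Z, Tendsto (fun i => mean A (x i) z) atTop (nhds (φ z))),
        (φ 1 = 1 ∧ Summable fun z : Z => ‖φ z‖ ^ 4) ].TFAE) ∧
    -- limits exist along subsequences
    ∀ (A : Set ℕ) (c C : ℝ) (x : ℕ → ℕ), 0 < c → StrictMono x →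
      (∀ i, c * √(x i) ≤ #(below A (x i))) →
      (∀ y : ℕ, ∑ n ∈ range y, (rep A n : ℝ) ^ 2 ≤ C * y) →
      ∃ (ψ : ℕ → ℕ) (φ : Circle → ℂ), StrictMono ψ ∧
        (∀ z ∈ Z, Tendsto (fun i => mean A (x (ψ i)) z) atTop (nhds (φ z))) ∧
        ∑' z : Z, ‖φ z‖ ^ 4 ≤ 4 * C / c ^ 4 := by
  have hrep : ∀ (A : Set ℕ) (y : ℕ), ∑ n ∈ range y, (Pool.Agent.Helper25.RC.rep A n : ℝ) ^ 2 =
      ∑ n ∈ range y, (rep A n : ℝ) ^ 2 := fun A y =>
    sum_congr rfl fun n _ => by rw [Pool.Agent.Helper80.RC.rep_eq]; rfl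
  refine ⟨fun A c C x hc hx hA hK => ?_, fun Z hZ => ?_⟩
  · have hK' : ∀ y : ℕ, ∑ n ∈ range y, (Pool.Agent.Helper25.RC.rep A n : ℝ) ^ 2 ≤ C * y :=
      fun y => by rw [hrep]; exact hK y
    exact ⟨Pool.Agent.Helper38.JB.classes_tendsto hc hx hA hK',
      Pool.Agent.Helper38.JB.sieve hc hx hA hK'⟩
  have hnec : ∀ (A : Set ℕ) (c C : ℝ) (x : ℕ → ℕ) (φ : Circle → ℂ), 0 < c → StrictMono x →
      (∀ i, c * √(x i) ≤ #(below A (x i))) →
      (∀ y : ℕ, ∑ n ∈ range y, (rep A n : ℝ) ^ 2 ≤ C * y) →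
      (∀ z ∈ Z, Tendsto (fun i => mean A (x i) z) atTop (nhds (φ z))) →
      φ 1 = 1 ∧ PosDef Z φ ∧ (Summable fun z : Z => ‖φ z‖ ^ 4) ∧
        ∑' z : Z, ‖φ z‖ ^ 4 ≤ 4 * C / c ^ 4 := by
    intro A c C x φ hc hx hA hK hlim
    refine necS' Z (Filter.map x atTop) hx.tendsto_atTop A C c hc ?_ ?_ φ fun z hz => ?_
    · rw [eventually_map]
      exact Eventually.of_forall hA
    · exact Eventually.of_forall fun y => by rw [hrep]; exact hK y
    · rw [tendsto_map'_iff]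
      exact hlim z hz
  have hr : ∀ (A : Set ℕ) (n : ℕ), Pool.Agent.Helper25.RC.rep A n = rep A n := fun A n => by
    rw [Pool.Agent.Helper80.RC.rep_eq]; rfl
  refine ⟨fun φ => ?_, fun φ t ht hpt => ?_, fun A c C x hc hx hA hK => ?_⟩
  · tfae_have 1 → 2 := by
      rintro ⟨A, c, C, hc, h1, h2, h3⟩
      exact ⟨A, c, C, fun i => i + 2, hc, fun i j h => Nat.add_lt_add_right h 2,
        fun i => h1 (i + 2) (by omega), h2, fun z hz =>
          (h3 z hz).comp (tendsto_add_atTop_nat 2)⟩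
    tfae_have 2 → 3 := by
      rintro ⟨A, c, C, x, hc, hx, h1, h2, h3⟩
      obtain ⟨a1, a2, a3, _⟩ := hnec A c C x φ hc hx h1 h2 h3
      exact ⟨a1, a2, a3⟩
    tfae_have 3 → 1 := by
      rintro ⟨h1, hpd, hs⟩
      obtain ⟨A, c, C, hc, h2, h3, h4⟩ := suffS oneScale_all Z hZ φ h1 hpd hs
      exact ⟨A, c, C, hc, h2, fun x => by rw [← hrep]; exact h3 x, h4⟩
    tfae_finish
  · tfae_have 1 → 2 := by
      rintro ⟨A, c, C, _, hb, _, hC, hlim⟩
      exact ⟨A, C, id, strictMono_id, hb, hC, hlim⟩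
    tfae_have 2 → 3 := by
      rintro ⟨A, C, x, hx, hb, hC, hlim⟩
      obtain ⟨n0, hn0⟩ := eventually_atTop.1 hb
      obtain ⟨i0, hi0⟩ := eventually_atTop.1
        (hx.tendsto_atTop.eventually_ge_atTop (2 * n0))
      obtain ⟨a1, _, a3, _⟩ := hnec A (1 / 2) C (fun i => x (i + i0)) φ (by norm_num)
        (fun i j h => hx (Nat.add_lt_add_right h i0))
        (fun i => Pool.Agent.Helper38.JB.basis_thick (n0 := n0)
          (fun n hn => by rw [hr]; exact hn0 n hn) (hi0 (i + i0) (by omega))) hC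
        (fun z hz => (hlim z hz).comp (tendsto_add_atTop_nat i0))
      exact ⟨a1, a3⟩
    tfae_have 3 → 1 := by
      rintro ⟨h1, hs⟩
      obtain ⟨J, K, _, hJ⟩ := Pool.Agent.Helper38.JB.base3 Z hZ
      obtain ⟨A, c, C, hc, hb, hd, hC, hlim⟩ := Pool.Agent.Helper80.JB.all_x
        Pool.Agent.Helper80.JB.oneY Z hZ hJ φ h1 hs t ht hpt
      exact ⟨A, c, C, hc, hb.mono fun n hn => by rw [← hr]; exact hn, hd,
        fun y => by rw [← hrep]; exact hC y, hlim⟩
    tfae_finish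
  · obtain ⟨zs, hzs⟩ := hZ.exists_eq_range ⟨1, Z.one_mem⟩
    obtain ⟨ψ, l, hψ, hlim⟩ := exists_limitS A x zs
    -- the limit as a function on the circle
    have hex : ∀ z : Circle, ∃ v : ℂ, z ∈ Z →
        Tendsto (fun i => mean A (x (ψ i)) z) atTop (nhds v) := by
      intro z
      by_cases hz : z ∈ Z
      · have hz' : z ∈ Set.range zs := by rw [← hzs]; exact hz
        obtain ⟨i, rfl⟩ := hz'
        exact ⟨l i, fun _ => hlim i⟩
      · exact ⟨0, fun h => absurd h hz⟩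
    choose φ hφ using hex
    refine ⟨ψ, φ, hψ, fun z hz => hφ z hz, ?_⟩
    exact (hnec A c C (fun i => x (ψ i)) φ hc (hx.comp hψ) (fun i => hA (ψ i)) hK
      fun z hz => hφ z hz).2.2.2

end Pool.Agent.Helper38.JB.Text8
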